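import Pool.Agent.ACQ.Targets

set_option autoImplicit false

/-!
# ACQ, T_ABS: the trivial bound for `VV`
-/

open Finset

namespace Pool.Agent.ACQ

namespace ABS_

lemma chi_abs {ι σ : Type} (p : ι → ℕ) (s : σ → ℕ) (i : ι) (o : Option σ) (n : ℕ)
    (hp : 2 ≤ p i) : |chi p s i o n| ≤ 1 := by
  have h1 : (2 : ℝ) ≤ p i := by exact_mod_cast hp
  cases o with
  | none => simp [chi]
  | some b =>
    unfold chi
    by_cases h : n ≡ s b [MOD p i]
    · simp [h]
    · simp only [if_neg h]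
      have h2 : (1 : ℝ) ≤ (p i : ℝ) - 1 := by linarith
      rw [abs_of_nonneg (by positivity), div_le_one (by linarith)]
      exact h2

end ABS_

open ABS_ in
/-- ABS. The trivial bound for `VV`. -/
theorem p_ABS : T_ABS := by
  intro ι σ _ _ _ _ p s Y n hp
  unfold VV
  refine (abs_sum_le_sum_abs _ _).trans (sum_le_sum fun ψ _ => ?_)
  rw [abs_mul, abs_prod]
  have h1 : ∏ i, |chi p s i (ψ i) n| ≤ 1 :=
    prod_le_one (fun i _ => abs_nonneg _) fun i _ => chi_abs p s i (ψ i) n (hp i)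
  calc |Y ψ| * ∏ i, |chi p s i (ψ i) n| ≤ |Y ψ| * 1 :=
        mul_le_mul_of_nonneg_left h1 (abs_nonneg _)
    _ = |Y ψ| := mul_one _

end Pool.Agent.ACQ
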