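import Pool.Agent.ACQ.Targets

set_option autoImplicit false

/-!
# ACQ, job AS1: elementary asymptotics
-/

open Finset

namespace Pool.Agent.ACQ

namespace AS1_

/-- Everything follows from a few inequalities for `L = log N`. -/
theorem core (C₁ c C : ℝ) (I : ℕ) (hC₁ : 1 ≤ C₁) (hc : 0 < c) (hI : 1 ≤ I)
    (N : ℕ) (h1 : 100 ≤ Real.log N) (h2 : 60 * C₁ ≤ Real.log N) (h3 : 4 * C₁ ^ 2 ≤ Real.log N)
    (h4 : 8 * C * I / c ≤ Real.log N) (h5 : Real.log N ^ 10 ≤ Real.exp (1 / 16 * Real.log N)) :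
    2 ≤ N ∧ 1 < Real.log (Real.log N) ∧ 2 ≤ zN N ∧ yN N ≤ zN N ∧
    zN N ≤ XN N ∧ 1 ≤ XN N ∧ XN N ≤ N ∧ (XN N : ℝ) ≤ (N : ℝ) ^ ((1 : ℝ) / 16) ∧
    Real.log (zN N) ≤ 10 * Real.log (Real.log N) ∧ 0 < Real.log (zN N) ∧
    Real.log N / 32 ≤ Real.log (XN N) ∧
    2 * Real.log N * (2 * C / (c * zN N)) ≤ 1 / (I : ℝ) ∧
    4 * Real.log N + 2 ≤ (zN N : ℝ) ∧
    ∀ m : ℝ, 0 ≤ m → m ≤ C₁ * (Real.log N / Real.log (Real.log N)) →
      10 * (m + 2) * Real.log N ≤ zN N ∧ 2 * (m ^ 2 * Real.log N) ≤ zN N := by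
  have hN2 : 2 ≤ N := by
    by_contra h
    have h6 : N = 0 ∨ N = 1 := by omega
    rcases h6 with h6 | h6
    · rw [h6] at h1
      norm_num at h1
    · rw [h6] at h1
      norm_num at h1
  have hNR : (1 : ℝ) ≤ N := by exact_mod_cast (by omega : 1 ≤ N)
  have hN0 : (0 : ℝ) < N := by linarith
  set L : ℝ := Real.log N with hL
  have hL0 : (0 : ℝ) < L := by linarith
  have hL1 : (1 : ℝ) ≤ L := by linarith
  have hLL : 1 < Real.log L := by
    rw [Real.lt_log_iff_exp_lt hL0]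
    have := Real.exp_one_lt_d9
    linarith
  -- powers of `L`
  have p2 : L ≤ L ^ 2 := by nlinarith
  have hk : ∀ k : ℕ, 1 ≤ L ^ k := fun k => one_le_pow₀ hL1
  have hk1 : ∀ k : ℕ, 1 ≤ k → L ≤ L ^ k := by
    intro k hk
    calc L = L ^ 1 := (pow_one L).symm
      _ ≤ L ^ k := pow_le_pow_right₀ hL1 hk
  -- `z`
  have hz1 : (zN N : ℝ) ≤ L ^ 10 := Nat.floor_le (by positivity)
  have hz2 : L ^ 10 < (zN N : ℝ) + 1 := Nat.lt_floor_add_one _
  have hz3 : L ^ 10 / 2 ≤ (zN N : ℝ) := by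
    have := hk1 10 (by norm_num)
    linarith
  have e10 : L ^ 10 = L * L ^ 9 := by ring
  have hz4 : 4 * L + 2 ≤ (zN N : ℝ) := by
    have h6 : L * 100 ≤ L * L ^ 9 := by
      apply mul_le_mul_of_nonneg_left _ hL0.le
      exact h1.trans (hk1 9 (by norm_num))
    linarith
  have hz5 : (2 : ℝ) ≤ (zN N : ℝ) := by linarith
  have hz6 : 2 ≤ zN N := by exact_mod_cast hz5
  have hz0 : (0 : ℝ) < (zN N : ℝ) := by linarith
  -- `X`
  have hexp : (N : ℝ) ^ ((1 : ℝ) / 16) = Real.exp (1 / 16 * L) := by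
    rw [Real.rpow_def_of_pos hN0, hL]
    congr 1
    ring
  have hX1 : (XN N : ℝ) ≤ (N : ℝ) ^ ((1 : ℝ) / 16) := Nat.floor_le (by positivity)
  have hX2 : (N : ℝ) ^ ((1 : ℝ) / 16) < (XN N : ℝ) + 1 := Nat.lt_floor_add_one _
  have hzX : zN N ≤ XN N := by
    apply Nat.floor_le_floor
    rw [hexp]
    exact h5
  have hX3 : 1 ≤ XN N := by omega
  have hXN : XN N ≤ N := by
    have h6 : (N : ℝ) ^ ((1 : ℝ) / 16) ≤ (N : ℝ) ^ (1 : ℝ) :=
      Real.rpow_le_rpow_of_exponent_le hNR (by norm_num)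
    rw [Real.rpow_one] at h6
    have h7 : (XN N : ℝ) ≤ (N : ℝ) := hX1.trans h6
    exact_mod_cast h7
  have hX4 : L / 32 ≤ Real.log (XN N) := by
    rw [Real.le_log_iff_exp_le (by exact_mod_cast (by omega : 0 < XN N))]
    have h6 : Real.exp (1 / 16 * L) = Real.exp (L / 32) * Real.exp (L / 32) := by
      rw [← Real.exp_add]
      congr 1
      ring
    have h7 : (2 : ℝ) ≤ Real.exp (L / 32) := by
      have h8 := Real.add_one_le_exp (L / 32)
      have h9 : (1 : ℝ) ≤ L / 32 := by linarith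
      linarith
    rw [hexp, h6] at hX2
    nlinarith
  have hy : yN N ≤ zN N := by
    apply Nat.floor_le_floor
    rw [← hL]
    calc Real.sqrt L ≤ L := by
          rw [Real.sqrt_le_left hL0.le]
          exact p2
      _ ≤ L ^ 10 := hk1 10 (by norm_num)
  have hlz : Real.log (zN N) ≤ 10 * Real.log L := by
    have h6 : Real.log (zN N) ≤ Real.log (L ^ 10) := Real.log_le_log hz0 hz1
    rw [Real.log_pow] at h6
    exact_mod_cast h6
  refine ⟨hN2, hLL, hz6, hy, hzX, hX3, hXN, hX1, hlz, Real.log_pos (by linarith), hX4, ?_,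
    hz4, ?_⟩
  · have hI0 : (0 : ℝ) < (I : ℝ) := by exact_mod_cast hI
    have h6 : 8 * C * I ≤ c * L := by
      rw [div_le_iff₀ hc] at h4
      linarith
    have h7 : c * L * L ≤ c * L ^ 10 := by
      have h8 : c * L ^ 2 ≤ c * L ^ 10 :=
        mul_le_mul_of_nonneg_left (pow_le_pow_right₀ hL1 (by norm_num)) hc.le
      calc c * L * L = c * L ^ 2 := by ring
        _ ≤ c * L ^ 10 := h8
    have h8 : 8 * C * I * L ≤ c * L * L := mul_le_mul_of_nonneg_right h6 hL0.le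
    have h9 : c * L ^ 10 ≤ c * (2 * (zN N : ℝ)) :=
      mul_le_mul_of_nonneg_left (by linarith) hc.le
    rw [← mul_div_assoc, div_le_div_iff₀ (by positivity) hI0]
    linarith
  · intro m hm hm2
    have h6 : L / Real.log L ≤ L := by
      rw [div_le_iff₀ (by linarith)]
      nlinarith
    have h7 : m ≤ C₁ * L := hm2.trans (mul_le_mul_of_nonneg_left h6 (by linarith))
    have hC0 : 0 ≤ C₁ * L := by positivity
    constructor
    · have h8 : m + 2 ≤ 3 * (C₁ * L) := by nlinarith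
      have h9 : 10 * (m + 2) * L ≤ 30 * (C₁ * L) * L := by nlinarith
      have h10 : 60 * C₁ * (L * L) ≤ L * (L * L) :=
        mul_le_mul_of_nonneg_right h2 (by positivity)
      have h11 : L * (L * L) ≤ L ^ 10 := by
        calc L * (L * L) = L ^ 3 := by ring
          _ ≤ L ^ 10 := pow_le_pow_right₀ hL1 (by norm_num)
      linarith
    · have h8 : m ^ 2 ≤ (C₁ * L) ^ 2 := pow_le_pow_left₀ hm h7 2
      have h9 : 2 * (m ^ 2 * L) ≤ 2 * ((C₁ * L) ^ 2 * L) := by nlinarith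
      have h10 : 4 * C₁ ^ 2 * L ^ 3 ≤ L * L ^ 3 :=
        mul_le_mul_of_nonneg_right h3 (by positivity)
      have h11 : L * L ^ 3 ≤ L ^ 10 := by
        calc L * L ^ 3 = L ^ 4 := by ring
          _ ≤ L ^ 10 := pow_le_pow_right₀ hL1 (by norm_num)
      have h12 : 2 * ((C₁ * L) ^ 2 * L) = (4 * C₁ ^ 2 * L ^ 3) / 2 := by ring
      linarith

end AS1_

theorem p_AS1 : T_AS1 := by
  intro C₁ c C I hC₁ hc _ hI
  have hlog : Filter.Tendsto (fun N : ℕ => Real.log (N : ℝ)) Filter.atTop Filter.atTop :=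
    Real.tendsto_log_atTop.comp tendsto_natCast_atTop_atTop
  have h5 : ∀ᶠ L : ℝ in Filter.atTop, L ^ 10 ≤ Real.exp (1 / 16 * L) := by
    have h := (isLittleO_pow_exp_pos_mul_atTop (k := 10) (b := 1 / 16) (by norm_num)).bound
      (c := 1) one_pos
    filter_upwards [h, Filter.eventually_ge_atTop (0 : ℝ)] with L hL h0
    rw [Real.norm_of_nonneg (by positivity), Real.norm_of_nonneg (Real.exp_pos _).le,
      one_mul] at hL
    exact hL
  have hall : ∀ᶠ L : ℝ in Filter.atTop, 100 ≤ L ∧ 60 * C₁ ≤ L ∧ 4 * C₁ ^ 2 ≤ L ∧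
      8 * C * I / c ≤ L ∧ L ^ 10 ≤ Real.exp (1 / 16 * L) := by
    filter_upwards [Filter.eventually_ge_atTop (100 : ℝ), Filter.eventually_ge_atTop (60 * C₁),
      Filter.eventually_ge_atTop (4 * C₁ ^ 2), Filter.eventually_ge_atTop (8 * C * I / c), h5]
      with L a b c' d e
    exact ⟨a, b, c', d, e⟩
  obtain ⟨N₀, hN₀⟩ := Filter.eventually_atTop.1 (hlog.eventually hall)
  refine ⟨N₀, fun N hN => ?_⟩
  obtain ⟨a, b, c', d, e⟩ := hN₀ N hN
  exact AS1_.core C₁ c C I hC₁ hc hI N a b c' d e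

end Pool.Agent.ACQ
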