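import Pool.Agent.ACQ.Targets

set_option autoImplicit false

/-!
# ACQ: asymptotics 2 (target `T_AS2`)
-/

open Finset

namespace Pool.Agent.ACQ

/-- `N^(k/400) = exp (log N / 400)^k`. -/
theorem AS2_rpow (N : ℕ) (hN : 0 < N) (x : ℝ) (k : ℕ) (hx : x = (k : ℝ) / 400) :
    (N : ℝ) ^ x = Real.exp (Real.log N / 400) ^ k := by
  have h : (0 : ℝ) < N := by exact_mod_cast hN
  rw [Real.rpow_def_of_pos h, ← Real.exp_nat_mul, hx]
  congr 1
  ring

theorem AS2_self (N : ℕ) (hN : 0 < N) :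
    (N : ℝ) = Real.exp (Real.log N / 400) ^ 400 := by
  have h : (0 : ℝ) < N := by exact_mod_cast hN
  rw [← Real.exp_nat_mul]
  have h1 : ((400 : ℕ) : ℝ) * (Real.log N / 400) = Real.log N := by
    push_cast
    ring
  rw [h1, Real.exp_log h]

theorem AS2_four (N : ℕ) (hL : 40000 ≤ Real.log N) :
    ((4 ^ yN N : ℕ) : ℝ) ≤ Real.exp (Real.log N / 400) ^ 4 := by
  have h0 : (0 : ℝ) ≤ Real.log N := by linarith
  have h1 : (yN N : ℝ) ≤ Real.sqrt (Real.log N) := Nat.floor_le (Real.sqrt_nonneg _)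
  have h2 : (4 : ℝ) ≤ Real.exp 2 := by
    have := Real.quadratic_le_exp_of_nonneg (show (0 : ℝ) ≤ 2 by norm_num)
    linarith
  have h3 : (200 : ℝ) ≤ Real.sqrt (Real.log N) := by
    apply Real.le_sqrt_of_sq_le
    linarith
  have h4 : Real.sqrt (Real.log N) * Real.sqrt (Real.log N) = Real.log N :=
    Real.mul_self_sqrt h0
  have h5 : 2 * Real.sqrt (Real.log N) ≤ Real.log N / 100 := by nlinarith
  calc ((4 ^ yN N : ℕ) : ℝ) = (4 : ℝ) ^ yN N := by push_cast; ring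
    _ ≤ Real.exp 2 ^ yN N := pow_le_pow_left₀ (by norm_num) h2 _
    _ = Real.exp ((yN N : ℝ) * 2) := by rw [Real.exp_nat_mul]
    _ ≤ Real.exp (Real.log N / 100) := by
        apply Real.exp_le_exp.mpr
        linarith
    _ = Real.exp (Real.log N / 400) ^ 4 := by
        rw [← Real.exp_nat_mul]
        congr 1
        push_cast
        ring

theorem AS2_two (N m : ℕ) (C₁ : ℝ) (hC : 1 ≤ C₁) (hL : 0 ≤ Real.log N)
    (hLL : 100 * C₁ ≤ Real.log (Real.log N))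
    (hm : (m : ℝ) ≤ C₁ * (Real.log N / Real.log (Real.log N))) :
    (m : ℝ) ≤ Real.log N / 100 ∧ (2 : ℝ) ^ m ≤ Real.exp (Real.log N / 400) ^ 4 := by
  have h1 : 0 < Real.log (Real.log N) := by linarith
  have h2 : C₁ * (Real.log N / Real.log (Real.log N)) ≤ Real.log N / 100 := by
    rw [← mul_div_assoc, div_le_iff₀ h1]
    nlinarith [mul_le_mul_of_nonneg_left hLL hL]
  have h3 : (m : ℝ) ≤ Real.log N / 100 := hm.trans h2
  refine ⟨h3, ?_⟩
  have h4 : (2 : ℝ) ≤ Real.exp 1 := by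
    have := Real.add_one_le_exp (1 : ℝ)
    linarith
  calc (2 : ℝ) ^ m ≤ Real.exp 1 ^ m := pow_le_pow_left₀ (by norm_num) h4 _
    _ = Real.exp ((m : ℝ) * 1) := by rw [Real.exp_nat_mul]
    _ ≤ Real.exp (Real.log N / 100) := by
        apply Real.exp_le_exp.mpr
        linarith
    _ = Real.exp (Real.log N / 400) ^ 4 := by
        rw [← Real.exp_nat_mul]
        congr 1
        push_cast
        ring

theorem p_AS2 : T_AS2 := by
  intro C C₁ M hC₁
  obtain ⟨N₀, hN₀⟩ := exists_nat_ge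
    (Real.exp (80000 * (C₁ + |C| + |M| + 6) + Real.exp (100 * C₁)))
  refine ⟨N₀, fun N hN m hm => ?_⟩
  have hNr : Real.exp (80000 * (C₁ + |C| + |M| + 6) + Real.exp (100 * C₁)) ≤ (N : ℝ) :=
    hN₀.trans (by exact_mod_cast hN)
  have hNpos : (0 : ℝ) < N := lt_of_lt_of_le (Real.exp_pos _) hNr
  have hNpos' : 0 < N := by exact_mod_cast hNpos
  have hL : 80000 * (C₁ + |C| + |M| + 6) + Real.exp (100 * C₁) ≤ Real.log N :=
    (Real.le_log_iff_exp_le hNpos).mpr hNr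
  have hCn : 0 ≤ |C| := abs_nonneg _
  have hMn : 0 ≤ |M| := abs_nonneg _
  have hE := Real.exp_pos (100 * C₁)
  have hL0 : 80000 * (C₁ + |C| + |M| + 6) ≤ Real.log N := by linarith
  have hL1 : 40000 ≤ Real.log N := by linarith
  have hLpos : 0 < Real.log N := by linarith
  have hLL : 100 * C₁ ≤ Real.log (Real.log N) := by
    rw [Real.le_log_iff_exp_le hLpos]
    linarith
  obtain ⟨hm1, hm2⟩ := AS2_two N m C₁ hC₁ hLpos.le hLL hm
  have h4 := AS2_four N hL1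
  set u : ℝ := Real.exp (Real.log N / 400) with hu
  have hu2 : 2 ≤ u := by
    have := Real.add_one_le_exp (Real.log N / 400)
    linarith
  have hu4 : Real.log N ^ 2 / 20000 ≤ u ^ 4 := by
    have h := Real.quadratic_le_exp_of_nonneg (show (0 : ℝ) ≤ Real.log N / 100 by positivity)
    have h' : u ^ 4 = Real.exp (Real.log N / 100) := by
      rw [hu, ← Real.exp_nat_mul]
      congr 1
      push_cast
      ring
    rw [h']
    nlinarith
  have hX : (XN N : ℝ) ≤ u ^ 25 := by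
    have h := Nat.floor_le (show 0 ≤ (N : ℝ) ^ ((1 : ℝ) / 16) by positivity)
    rw [AS2_rpow N hNpos' ((1 : ℝ) / 16) 25 (by norm_num)] at h
    unfold XN
    rw [AS2_rpow N hNpos' ((1 : ℝ) / 16) 25 (by norm_num)]
    exact h
  have hX0 : (0 : ℝ) ≤ (XN N : ℝ) := Nat.cast_nonneg _
  have hu25 : 1 ≤ u ^ 25 := one_le_pow₀ (by linarith)
  rw [AS2_rpow N hNpos' ((1 : ℝ) / 8) 50 (by norm_num),
    AS2_rpow N hNpos' ((3 : ℝ) / 16) 75 (by norm_num), ← hu]
  -- first factor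
  have hF : (C * Real.log N + 1) * ((XN N : ℝ) + 1) + (M + 5) ≤ u ^ 29 := by
    have e1 : C * Real.log N + 1 ≤ |C| * Real.log N + 1 := by
      have := mul_le_mul_of_nonneg_right (le_abs_self C) hLpos.le
      linarith
    have e2 : (C * Real.log N + 1) * ((XN N : ℝ) + 1) ≤
        (|C| * Real.log N + 1) * ((XN N : ℝ) + 1) :=
      mul_le_mul_of_nonneg_right e1 (by linarith)
    have e3 : M + 5 ≤ (|M| + 5) * ((XN N : ℝ) + 1) := by
      have := le_abs_self M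
      nlinarith
    have e4 : |C| * Real.log N + 1 + (|M| + 5) ≤ u ^ 4 / 2 := by
      have : |C| * Real.log N + |M| + 6 ≤ (|C| + |M| + 6) * Real.log N := by nlinarith
      nlinarith
    have e5 : (|C| * Real.log N + 1 + (|M| + 5)) * ((XN N : ℝ) + 1) ≤
        (u ^ 4 / 2) * (2 * u ^ 25) := by
      apply mul_le_mul e4 (by linarith) (by linarith) (by positivity)
    calc (C * Real.log N + 1) * ((XN N : ℝ) + 1) + (M + 5)
        ≤ (|C| * Real.log N + 1 + (|M| + 5)) * ((XN N : ℝ) + 1) := by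
          rw [add_mul (|C| * Real.log N + 1)]
          linarith
      _ ≤ (u ^ 4 / 2) * (2 * u ^ 25) := e5
      _ = u ^ 29 := by ring
  have hu0 : 0 ≤ u := by linarith
  have h2m : (0 : ℝ) ≤ 2 ^ m := by positivity
  have hA : (u ^ 50 * 2 ^ m) ^ 2 ≤ (u ^ 50 * u ^ 4) ^ 2 := by
    apply pow_le_pow_left₀ (by positivity)
    exact mul_le_mul_of_nonneg_left hm2 (by positivity)
  have hB : (u ^ 75 * 2 ^ m) ^ 2 ≤ (u ^ 75 * u ^ 4) ^ 2 := by
    apply pow_le_pow_left₀ (by positivity)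
    exact mul_le_mul_of_nonneg_left hm2 (by positivity)
  have h4m : 4 * (m : ℝ) ≤ u ^ 4 := by nlinarith
  have hl1 : ((C * Real.log N + 1) * ((XN N : ℝ) + 1) + (M + 5)) * (u ^ 50 * 2 ^ m) ^ 2 ≤
      u ^ 29 * (u ^ 50 * u ^ 4) ^ 2 :=
    (mul_le_mul_of_nonneg_right hF (by positivity)).trans
      (mul_le_mul_of_nonneg_left hA (by positivity))
  have hl2 : 4 * (m : ℝ) * (u ^ 75 * 2 ^ m) ^ 2 ≤ u ^ 4 * (u ^ 75 * u ^ 4) ^ 2 :=
    mul_le_mul h4m hB (by positivity) (by positivity)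
  have hr : u ^ 396 / 16 ≤ (N : ℝ) / (4 ^ yN N : ℕ) / 16 := by
    apply div_le_div_of_nonneg_right _ (by norm_num)
    have h4pos : (0 : ℝ) < ((4 ^ yN N : ℕ) : ℝ) := by positivity
    rw [le_div_iff₀ h4pos, AS2_self N hNpos', ← hu]
    calc u ^ 396 * ((4 ^ yN N : ℕ) : ℝ) ≤ u ^ 396 * u ^ 4 :=
          mul_le_mul_of_nonneg_left h4 (by positivity)
      _ = u ^ 400 := by ring
  have hfin : u ^ 29 * (u ^ 50 * u ^ 4) ^ 2 + u ^ 4 * (u ^ 75 * u ^ 4) ^ 2 < u ^ 396 / 16 := by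
    have e1 : u ^ 137 ≤ u ^ 162 := pow_le_pow_right₀ (by linarith) (by norm_num)
    have e2 : u ^ 396 = u ^ 162 * u ^ 234 := by ring
    have e3 : (64 : ℝ) ≤ u ^ 234 := by
      calc (64 : ℝ) = 2 ^ 6 := by norm_num
        _ ≤ u ^ 6 := pow_le_pow_left₀ (by norm_num) hu2 6
        _ ≤ u ^ 234 := pow_le_pow_right₀ (by linarith) (by norm_num)
    have e4 : 0 < u ^ 162 := by positivity
    have e5 : u ^ 29 * (u ^ 50 * u ^ 4) ^ 2 = u ^ 137 := by ring
    have e6 : u ^ 4 * (u ^ 75 * u ^ 4) ^ 2 = u ^ 162 := by ring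
    rw [e5, e6, e2]
    nlinarith
  linarith

end Pool.Agent.ACQ
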