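import Pool.Agent.ACQ.Targets

set_option autoImplicit false

/-!
# ACQ, BAD: the bad primes
-/

open Finset

namespace Pool.Agent.ACQ

namespace BAD_

/-- The odd prime factors. -/
def pf (n : ℕ) : Finset ℕ := n.primeFactors.filter fun q => 3 ≤ q

theorem card_pf {n N : ℕ} (hN : 2 ≤ N) (h : n ≤ N) : ((pf n).card : ℝ) ≤ Real.log N := by
  have hN' : (2 : ℝ) ≤ N := by exact_mod_cast hN
  rcases Nat.eq_zero_or_pos n with h0 | h0
  · have h1 : (pf n).card = 0 := by
      rw [h0]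
      simp [pf]
    rw [h1, Nat.cast_zero]
    exact Real.log_nonneg (by linarith)
  · have h1 : 3 ^ (pf n).card ≤ ∏ q ∈ pf n, q :=
      Finset.pow_card_le_prod _ _ _ fun q hq => (mem_filter.1 hq).2
    have h2 : ∏ q ∈ pf n, q ≤ ∏ q ∈ n.primeFactors, q := by
      refine prod_le_prod_of_subset_of_one_le' (filter_subset _ _) ?_
      intro q hq _
      exact (Nat.prime_of_mem_primeFactors hq).one_le
    have h3 : ∏ q ∈ n.primeFactors, q ≤ n := Nat.le_of_dvd h0 (Nat.prod_primeFactors_dvd n)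
    have h4 : 3 ^ (pf n).card ≤ N := h1.trans (h2.trans (h3.trans h))
    have h5 : (3 : ℝ) ^ (pf n).card ≤ N := by exact_mod_cast h4
    have h6 : (1 : ℝ) ≤ Real.log 3 := by
      rw [Real.le_log_iff_exp_le (by norm_num)]
      have := Real.exp_one_lt_d9
      linarith
    have h7 : Real.log ((3 : ℝ) ^ (pf n).card) ≤ Real.log N :=
      Real.log_le_log (by positivity) h5
    rw [Real.log_pow] at h7
    have h8 : (0 : ℝ) ≤ ((pf n).card : ℝ) := Nat.cast_nonneg _
    nlinarith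

theorem mem_pf {q m n : ℕ} (hq : q.Prime) (h3 : 3 ≤ q) (h : m < n) (hc : m ≡ n [MOD q]) :
    q ∈ pf (n - m) := by
  refine mem_filter.2 ⟨?_, h3⟩
  rw [Nat.mem_primeFactors]
  exact ⟨hq, (Nat.modEq_iff_dvd' h.le).1 hc, by omega⟩

end BAD_

open BAD_ in
theorem p_BAD : T_BAD := by
  intro S N z X hS hz hN
  refine ⟨(S ×ˢ S).biUnion fun p => pf (p.1 - p.2), ?_, ?_⟩
  · have h1 : (((S ×ˢ S).biUnion fun p => pf (p.1 - p.2)).card : ℝ) ≤
        ∑ p ∈ S ×ˢ S, ((pf (p.1 - p.2)).card : ℝ) := by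
      have h2 := card_biUnion_le (s := S ×ˢ S) (t := fun p => pf (p.1 - p.2))
      exact_mod_cast h2
    have h2 : ∑ p ∈ S ×ˢ S, ((pf (p.1 - p.2)).card : ℝ) ≤ ∑ _p ∈ S ×ˢ S, Real.log N := by
      refine sum_le_sum fun p hp => ?_
      have h3 := hS p.1 (mem_product.1 hp).1
      exact card_pf hN (by omega)
    rw [sum_const, nsmul_eq_mul, card_product] at h2
    push_cast at h2
    calc _ ≤ _ := h1
      _ ≤ _ := h2
      _ = _ := by ring
  · intro q hq hzq _ hB b hb b' hb' hne hc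
    apply hB
    rw [mem_biUnion]
    rcases Nat.lt_or_gt_of_ne hne with h | h
    · exact ⟨(b', b), mem_product.2 ⟨hb', hb⟩, mem_pf hq (by omega) h hc⟩
    · exact ⟨(b, b'), mem_product.2 ⟨hb, hb'⟩, mem_pf hq (by omega) h hc.symm⟩

end Pool.Agent.ACQ
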