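import Pool.Agent.ACQ.Targets

set_option autoImplicit false

open Finset

namespace Pool.Agent.ACQ

theorem p_CLS : T_CLS := by
  intro N q b hq
  have hIcc : (Icc 1 N) = Ioc 0 N := by
    ext n
    rw [Finset.mem_Icc, Finset.mem_Ioc]
    omega
  rw [hIcc]
  have h := Nat.Ioc_filter_modEq_card 0 N hq b
  have hq' : (0 : ℚ) < q := by exact_mod_cast hq
  have hmono : ⌊(((0 : ℕ) : ℚ) - b) / (q : ℚ)⌋ ≤ ⌊((N : ℚ) - b) / (q : ℚ)⌋ := by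
    apply Int.floor_le_floor
    apply div_le_div_of_nonneg_right _ hq'.le
    have : (0 : ℚ) ≤ N := Nat.cast_nonneg N
    push_cast
    linarith
  rw [max_eq_left (sub_nonneg.mpr hmono)] at h
  have h1 := Int.floor_le (((N : ℚ) - b) / (q : ℚ))
  have h2 := Int.lt_floor_add_one (((N : ℚ) - b) / (q : ℚ))
  have h3 := Int.floor_le ((((0 : ℕ) : ℚ) - b) / (q : ℚ))
  have h4 := Int.lt_floor_add_one ((((0 : ℕ) : ℚ) - b) / (q : ℚ))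
  have hdiff : ((N : ℚ) - b) / (q : ℚ) - (((0 : ℕ) : ℚ) - b) / (q : ℚ) = (N : ℚ) / q := by
    push_cast
    ring
  have hc : (((#{x ∈ Ioc 0 N | x ≡ b [MOD q]} : ℕ) : ℤ) : ℚ) =
      (⌊((N : ℚ) - b) / (q : ℚ)⌋ : ℚ) - (⌊(((0 : ℕ) : ℚ) - b) / (q : ℚ)⌋ : ℚ) := by
    rw [h]
    push_cast
    rfl
  have hQ : |((#{x ∈ Ioc 0 N | x ≡ b [MOD q]} : ℕ) : ℚ) - (N : ℚ) / q| ≤ 1 := by
    have hc' : ((#{x ∈ Ioc 0 N | x ≡ b [MOD q]} : ℕ) : ℚ) =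
      (⌊((N : ℚ) - b) / (q : ℚ)⌋ : ℚ) - (⌊(((0 : ℕ) : ℚ) - b) / (q : ℚ)⌋ : ℚ) := by
      rw [← hc]
      push_cast
      rfl
    rw [hc', abs_le]
    constructor <;> linarith
  have hR : ((|((#{x ∈ Ioc 0 N | x ≡ b [MOD q]} : ℕ) : ℚ) - (N : ℚ) / q| : ℚ) : ℝ) ≤
      ((1 : ℚ) : ℝ) := by
    exact_mod_cast hQ
  rw [Rat.cast_abs, Rat.cast_sub, Rat.cast_div, Rat.cast_natCast, Rat.cast_natCast,
    Rat.cast_natCast, Rat.cast_one] at hR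
  exact hR

end Pool.Agent.ACQ
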