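import Pool.Agent.ACQ.Targets

set_option autoImplicit false

/-!
# ACQ, target DIS: sets disjoint from `E`
-/

open Finset

namespace Pool.Agent.ACQ

namespace DIS_

theorem mm_nonneg {ι : Type} [Fintype ι] [DecidableEq ι] (p : ι → ℕ) (z : ℕ)
    (hp : ∀ i, z < p i) (D : Finset ι) : 0 ≤ mm p D := by
  unfold mm
  refine Finset.prod_nonneg fun i _ => ?_
  have h1 : 1 ≤ p i := by
    have := hp i
    omega
  have h2 : (1 : ℝ) ≤ (p i : ℝ) := by exact_mod_cast h1
  exact div_nonneg zero_le_one (by linarith)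

end DIS_

open DIS_ in
theorem p_DIS (h_INC : T_INC) : T_DIS := by
  intro ι _ _ p z x E hp hz hE
  have hm := mm_nonneg p z hp
  have hz0 : (0 : ℝ) < (z : ℝ) := by exact_mod_cast hz
  have hS0 : 0 ≤ Sg p x := by
    unfold Sg
    exact Finset.sum_nonneg fun D _ => hm D
  -- splitting
  have hsplit : Sg p x = SS p x E +
      ∑ D ∈ (univ : Finset (Finset ι)).filter (fun D => ¬ Disjoint D E ∧ pd p D ≤ x), mm p D := by
    unfold Sg SS
    rw [← Finset.sum_filter_add_sum_filter_not
      ((univ : Finset (Finset ι)).filter (fun D => pd p D ≤ x)) (fun D => Disjoint D E)]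
    rw [Finset.filter_filter, Finset.filter_filter]
    congr 1
    · refine Finset.sum_congr ?_ fun _ _ => rfl
      ext D
      simp only [Finset.mem_filter, Finset.mem_univ, true_and]
      exact and_comm
    · refine Finset.sum_congr ?_ fun _ _ => rfl
      ext D
      simp only [Finset.mem_filter, Finset.mem_univ, true_and]
      exact and_comm
  have hbad : ∑ D ∈ (univ : Finset (Finset ι)).filter
      (fun D => ¬ Disjoint D E ∧ pd p D ≤ x), mm p D ≤
      ∑ i ∈ E, ∑ D ∈ (univ : Finset (Finset ι)).filter (fun D => i ∈ D ∧ pd p D ≤ x), mm p D := by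
    have h1 : ∀ i ∈ E, ∑ D ∈ (univ : Finset (Finset ι)).filter
        (fun D => i ∈ D ∧ pd p D ≤ x), mm p D =
        ∑ D ∈ (univ : Finset (Finset ι)), if i ∈ D ∧ pd p D ≤ x then mm p D else 0 := by
      intro i _
      rw [Finset.sum_filter]
    rw [Finset.sum_congr rfl h1, Finset.sum_comm, Finset.sum_filter]
    refine Finset.sum_le_sum fun D _ => ?_
    by_cases h : ¬ Disjoint D E ∧ pd p D ≤ x
    · rw [if_pos h]
      obtain ⟨i, hiD, hiE⟩ := Finset.not_disjoint_iff.1 h.1
      have h2 : mm p D = if i ∈ D ∧ pd p D ≤ x then mm p D else 0 := by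
        rw [if_pos ⟨hiD, h.2⟩]
      calc mm p D = if i ∈ D ∧ pd p D ≤ x then mm p D else 0 := h2
        _ ≤ ∑ i ∈ E, if i ∈ D ∧ pd p D ≤ x then mm p D else 0 :=
          Finset.single_le_sum (f := fun i => if i ∈ D ∧ pd p D ≤ x then mm p D else 0)
            (fun j _ => by
              split_ifs
              · exact hm D
              · exact le_rfl) hiE
    · rw [if_neg h]
      refine Finset.sum_nonneg fun j _ => ?_
      split_ifs
      · exact hm D
      · exact le_rfl
  have hsum : ∑ i ∈ E, ∑ D ∈ (univ : Finset (Finset ι)).filter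
      (fun D => i ∈ D ∧ pd p D ≤ x), mm p D ≤ E.card * (Sg p x / z) := by
    calc _ ≤ ∑ _i ∈ E, Sg p x / z := Finset.sum_le_sum fun i _ => h_INC ι p z x hp hz i
      _ = E.card * (Sg p x / z) := by rw [Finset.sum_const, nsmul_eq_mul]
  have hEz : (E.card : ℝ) * (Sg p x / z) ≤ Sg p x / 2 := by
    have h2 : (2 : ℝ) * (E.card : ℝ) ≤ (z : ℝ) := by exact_mod_cast hE
    rw [← mul_div_assoc, div_le_div_iff₀ hz0 (by norm_num)]
    nlinarith
  linarith

end Pool.Agent.ACQ
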