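import Pool.Agent.ACQ.Targets

set_option autoImplicit false

/-!
# ACQ, job EQD: equidistribution of products of local functions in a progression

By induction on the set of moduli, for all progressions at once: the indicator of one more class
turns the progression modulo `W` into a progression modulo `W * p i`.
-/

open Finset

namespace Pool.Agent.ACQ

namespace EQD_

theorem filter_eq (N W w q r : ℕ) (h : W.Coprime q) :
    (Ar N W w).filter (fun n => n ≡ r [MOD q]) =
      Ar N (W * q) (Nat.chineseRemainder h w r : ℕ) := by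
  obtain ⟨h1, h2⟩ := (Nat.chineseRemainder h w r).2
  ext n
  simp only [Ar, mem_filter]
  constructor
  · rintro ⟨⟨h3, h4⟩, h5⟩
    exact ⟨h3, (Nat.modEq_and_modEq_iff_modEq_mul h).1 ⟨h4.trans h1.symm, h5.trans h2.symm⟩⟩
  · rintro ⟨h3, h4⟩
    obtain ⟨h5, h6⟩ := (Nat.modEq_and_modEq_iff_modEq_mul h).2 h4
    exact ⟨⟨h3, h5.trans h1⟩, h6.trans h2⟩

theorem key (h_CLS : T_CLS) {ι σ : Type} [DecidableEq ι] [Fintype σ] (p : ι → ℕ) (s : σ → ℕ)
    (N : ℕ) (α : ι → ℝ) (β : ι → σ → ℝ) (hp : ∀ i, 0 < p i)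
    (hpp : ∀ i j, i ≠ j → (p i).Coprime (p j)) (S : Finset ι) : ∀ W w : ℕ, 0 < W →
    (∀ i ∈ S, (p i).Coprime W) →
    |(∑ n ∈ Ar N W w, ∏ i ∈ S, (α i + ∑ b, β i b * (if n ≡ s b [MOD p i] then 1 else 0))) -
      (N : ℝ) / W * ∏ i ∈ S, (α i + ∑ b, β i b / p i)| ≤ ∏ i ∈ S, (|α i| + ∑ b, |β i b|) := by
  induction S using Finset.induction_on with
  | empty =>
    intro W w hW _
    simp only [prod_empty, mul_one, sum_const, nsmul_eq_mul]
    exact h_CLS N W w hW
  | insert i S hi ih =>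
    intro W w hW hc
    have hcW : ∀ j ∈ S, (p j).Coprime W := fun j hj => hc j (mem_insert_of_mem hj)
    have hcp : ∀ j ∈ S, (p j).Coprime (W * p i) := fun j hj =>
      Nat.Coprime.mul_right (hcW j hj) (hpp j i (fun h => hi (h ▸ hj)))
    have hiW : W.Coprime (p i) := (hc i (mem_insert_self i S)).symm
    set F : ℕ → ℝ := fun n => ∏ j ∈ S, (α j + ∑ b, β j b * (if n ≡ s b [MOD p j] then 1 else 0))
      with hF
    set M : ℝ := ∏ j ∈ S, (α j + ∑ b, β j b / p j) with hM
    set E : ℝ := ∏ j ∈ S, (|α j| + ∑ b, |β j b|) with hE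
    have h1 := ih W w hW hcW
    have h2 : ∀ b, |(∑ n ∈ Ar N (W * p i) (Nat.chineseRemainder hiW w (s b) : ℕ), F n) -
        (N : ℝ) / ((W * p i : ℕ) : ℝ) * M| ≤ E := fun b =>
      ih (W * p i) (Nat.chineseRemainder hiW w (s b) : ℕ) (Nat.mul_pos hW (hp i)) hcp
    have h3 : (∑ n ∈ Ar N W w, ∏ j ∈ insert i S,
        (α j + ∑ b, β j b * (if n ≡ s b [MOD p j] then 1 else 0))) =
        α i * (∑ n ∈ Ar N W w, F n) +
          ∑ b, β i b * ∑ n ∈ Ar N (W * p i) (Nat.chineseRemainder hiW w (s b) : ℕ), F n := by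
      have h4 : ∀ b, ∑ n ∈ Ar N (W * p i) (Nat.chineseRemainder hiW w (s b) : ℕ), F n =
          ∑ n ∈ Ar N W w, (if n ≡ s b [MOD p i] then F n else 0) := by
        intro b
        rw [← filter_eq N W w (p i) (s b) hiW, sum_filter]
      simp only [h4, mul_sum]
      rw [sum_comm, ← sum_add_distrib]
      apply sum_congr rfl
      intro n _
      rw [prod_insert hi, add_mul, sum_mul]
      congr 1
      apply sum_congr rfl
      intro b _
      by_cases hb : n ≡ s b [MOD p i]
      · rw [if_pos hb, if_pos hb, mul_one]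
      · rw [if_neg hb, if_neg hb, mul_zero, zero_mul]
    have hWR : (W : ℝ) ≠ 0 := by exact_mod_cast hW.ne'
    have hpR : (p i : ℝ) ≠ 0 := by exact_mod_cast (hp i).ne'
    rw [h3, prod_insert hi, prod_insert hi]
    have h5 : α i * (∑ n ∈ Ar N W w, F n) +
          (∑ b, β i b * ∑ n ∈ Ar N (W * p i) (Nat.chineseRemainder hiW w (s b) : ℕ), F n) -
        (N : ℝ) / W * ((α i + ∑ b, β i b / p i) * M) =
        α i * ((∑ n ∈ Ar N W w, F n) - (N : ℝ) / W * M) +
          ∑ b, β i b * ((∑ n ∈ Ar N (W * p i) (Nat.chineseRemainder hiW w (s b) : ℕ), F n) -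
            (N : ℝ) / ((W * p i : ℕ) : ℝ) * M) := by
      have h6 : ∑ b, β i b * ((∑ n ∈ Ar N (W * p i) (Nat.chineseRemainder hiW w (s b) : ℕ), F n) -
            (N : ℝ) / ((W * p i : ℕ) : ℝ) * M) =
          (∑ b, β i b * ∑ n ∈ Ar N (W * p i) (Nat.chineseRemainder hiW w (s b) : ℕ), F n) -
            (N : ℝ) / W * M * ∑ b, β i b / p i := by
        rw [mul_sum, ← sum_sub_distrib]
        apply sum_congr rfl
        intro b _
        push_cast
        field_simp
      rw [h6]
      ring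
    rw [h5]
    calc |α i * ((∑ n ∈ Ar N W w, F n) - (N : ℝ) / W * M) +
          ∑ b, β i b * ((∑ n ∈ Ar N (W * p i) (Nat.chineseRemainder hiW w (s b) : ℕ), F n) -
            (N : ℝ) / ((W * p i : ℕ) : ℝ) * M)| ≤
        |α i * ((∑ n ∈ Ar N W w, F n) - (N : ℝ) / W * M)| +
          |∑ b, β i b * ((∑ n ∈ Ar N (W * p i) (Nat.chineseRemainder hiW w (s b) : ℕ), F n) -
            (N : ℝ) / ((W * p i : ℕ) : ℝ) * M)| := abs_add_le _ _
      _ ≤ |α i| * E + ∑ b, |β i b| * E := by
          apply add_le_add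
          · rw [abs_mul]
            exact mul_le_mul_of_nonneg_left h1 (abs_nonneg _)
          · refine (abs_sum_le_sum_abs _ _).trans (sum_le_sum fun b _ => ?_)
            rw [abs_mul]
            exact mul_le_mul_of_nonneg_left (h2 b) (abs_nonneg _)
      _ = (|α i| + ∑ b, |β i b|) * E := by rw [add_mul, sum_mul]

end EQD_

theorem p_EQD (h_CLS : T_CLS) : T_EQD := by
  intro ι σ _ _ _ _ p s N W w α β hW hp hc hpp
  exact EQD_.key h_CLS p s N α β hp hpp univ W w hW (fun i _ => hc i)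

end Pool.Agent.ACQ
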