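import Pool.Agent.ACQ.Targets

/-!
# ACQ: exceptional integers
-/

set_option autoImplicit false

open Finset

namespace Pool.Agent.ACQ

/-- EXC. -/
theorem p_EXC : T_EXC := by
  intro A G X hG hcard
  by_contra hne
  push Not at hne
  have hsub : G ⊆ (A ×ˢ range (X + 1)).image fun x => x.2 + x.1 := by
    intro n hn
    obtain ⟨a, ha, r, hr, hnr⟩ := hne n hn
    obtain ⟨q, hq, hqX, hmod⟩ := hG n hn a ha
    have h1 : q ∣ r := by
      rw [hnr] at hmod
      have h2 : r + a ≡ 0 + a [MOD q] := by rwa [zero_add]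
      exact (Nat.modEq_zero_iff_dvd).1 (Nat.ModEq.add_right_cancel' a h2)
    have h2 : q = r := (Nat.prime_dvd_prime_iff_eq hq hr).1 h1
    rw [mem_image]
    refine ⟨(a, r), ?_, hnr.symm⟩
    rw [mem_product, mem_range]
    exact ⟨ha, by omega⟩
  have h3 := card_le_card hsub
  have h4 : ((A ×ˢ range (X + 1)).image fun x => x.2 + x.1).card ≤ A.card * (X + 1) := by
    refine card_image_le.trans ?_
    rw [card_product, card_range]
  omega

end Pool.Agent.ACQ
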