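import Pool.Agent.ACQ.Targets

set_option autoImplicit false

/-!
# ACQ: target FIN
-/

open Finset

namespace Pool.Agent.ACQ

namespace FIN_

lemma V_nonneg (y : ℕ) : 0 ≤ ACP.V y := by
  unfold ACP.V
  apply prod_nonneg
  intro p hp
  unfold ACP.pr at hp
  rw [mem_filter] at hp
  have h2 : (2 : ℝ) ≤ p := by exact_mod_cast hp.2.two_le
  have h3 : 1 / (p : ℝ) ≤ 1 := by
    rw [div_le_one (by linarith)]
    linarith
  linarith

lemma exI (C₁ c : ℝ) (hC₁ : 1 ≤ C₁) (hc : 0 < c) :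
    ∃ I : ℕ, 2 ≤ I ∧ 640 * C₁ ≤ c * I ∧ 51200 * C₁ ≤ c * (I : ℝ) ^ 2 := by
  refine ⟨⌈51200 * C₁ / c⌉₊ + 2, by omega, ?_, ?_⟩
  · have h1 := Nat.le_ceil (51200 * C₁ / c)
    rw [div_le_iff₀ hc] at h1
    push_cast
    nlinarith
  · have h1 := Nat.le_ceil (51200 * C₁ / c)
    rw [div_le_iff₀ hc] at h1
    push_cast
    set u : ℝ := (⌈51200 * C₁ / c⌉₊ : ℝ)
    have hu : 0 ≤ u := Nat.cast_nonneg _
    have h2 : u ≤ (u + 2) ^ 2 := by nlinarith
    calc 51200 * C₁ ≤ u * c := h1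
      _ = c * u := by ring
      _ ≤ c * (u + 2) ^ 2 := mul_le_mul_of_nonneg_left h2 hc.le

lemma card_GG {ι σ : Type} [Fintype ι] [Fintype σ] [DecidableEq ι] [DecidableEq σ]
    (p : ι → ℕ) (s : σ → ℕ) (N W w M : ℕ) :
    (GG p s N W w).card ≤ ((GG p s N W w).filter fun n => M ≤ n).card + M := by
  have h1 : GG p s N W w ⊆ ((GG p s N W w).filter fun n => M ≤ n) ∪ range M := by
    intro n hn
    rw [mem_union, mem_filter, mem_range]
    by_cases h : M ≤ n
    · exact Or.inl ⟨hn, h⟩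
    · exact Or.inr (by omega)
  calc _ ≤ _ := card_le_card h1
    _ ≤ _ := card_union_le _ _
    _ = _ := by rw [card_range]

end FIN_

theorem p_FIN (h_MAIN : T_MAIN) (h_WTS : T_WTS) (h_GRE : T_GRE) (h_BAD : T_BAD) (h_SZ : T_SZ)
    (h_AS1 : T_AS1) (h_AS2 : T_AS2) (h_EXC : T_EXC) (h_SMALL : T_SMALL) : T_FIN := by
  intro C M
  obtain ⟨C₁, hC₁, N1, hN1⟩ := h_SZ C
  obtain ⟨c, C', hc, hcC', hW⟩ := h_WTS
  obtain ⟨I, hI2, hIa, hIb⟩ := FIN_.exI C₁ c hC₁ hc
  obtain ⟨N2, hN2⟩ := hW I (by omega)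
  obtain ⟨N3, hN3⟩ := h_AS1 C₁ c C' I hC₁ hc hcC' (by omega)
  obtain ⟨N4, hN4⟩ := h_AS2 C C₁ M hC₁
  refine ⟨max (max N1 N2) (max N3 N4), ?_⟩
  intro N hN A hA hAc
  have hN1' : N1 ≤ N := le_trans (le_max_left _ _) (le_trans (le_max_left _ _) hN)
  have hN2'' : N2 ≤ N := le_trans (le_max_right _ _) (le_trans (le_max_left _ _) hN)
  have hN3' : N3 ≤ N := le_trans (le_max_left _ _) (le_trans (le_max_right _ _) hN)
  have hN4' : N4 ≤ N := le_trans (le_max_right _ _) (le_trans (le_max_right _ _) hN)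
  have hn1 := hN1 N hN1'
  obtain ⟨hN2', hll, hz2, hyz, hzX, hX1, hXN, hXr, hlz, hlz0, hlX, he4, h4L, hm⟩ := hN3 N hN3'
  obtain ⟨W, w, S, hSA, hW1, hW4, hWc, hSc, hSq⟩ := h_GRE A (yN N)
  have hlogN : 0 < Real.log N := Real.log_pos (by exact_mod_cast hN2')
  have hll0 : 0 < Real.log (Real.log N) := by linarith
  have hmS : (S.card : ℝ) ≤ C₁ * (Real.log N / Real.log (Real.log N)) :=
    hSc.trans ((mul_le_mul_of_nonneg_right hAc (FIN_.V_nonneg _)).trans hn1)
  obtain ⟨hm1, hm2⟩ := hm S.card (Nat.cast_nonneg _) hmS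
  obtain ⟨B, hBc, hB⟩ := h_BAD S N (zN N) (XN N) (fun a ha => hA a (hSA ha)) hz2 hN2'
  have h2B : 2 * B.card ≤ zN N := by
    have : ((2 * B.card : ℕ) : ℝ) ≤ zN N := by
      push_cast
      linarith
    exact_mod_cast this
  set P : Finset ℕ := (Icc 1 (XN N)).filter fun q => q.Prime ∧ zN N < q ∧ q ∉ B with hP
  have hPmem : ∀ q : ℕ, q ∈ P ↔ (q.Prime ∧ zN N < q ∧ q ≤ XN N ∧ q ∉ B) := by
    intro q
    rw [hP, mem_filter, mem_Icc]
    constructor
    · rintro ⟨⟨h1, h2⟩, h3, h4, h5⟩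
      exact ⟨h3, h4, h2, h5⟩
    · rintro ⟨h3, h4, h2, h5⟩
      exact ⟨⟨h3.one_lt.le, h2⟩, h3, h4, h5⟩
  have hGood : Good (fun q : {q // q ∈ P} => (q : ℕ)) (fun a : {a // a ∈ S} => (a : ℕ)) W
      (zN N) := by
    refine ⟨?_, ?_, ?_, hz2, hW1, ?_, ?_⟩
    · rintro ⟨q, hq⟩
      exact ((hPmem q).1 hq).1
    · exact Subtype.val_injective
    · rintro ⟨q, hq⟩
      exact ((hPmem q).1 hq).2.1
    · rintro ⟨q, hq⟩
      exact hWc q ((hPmem q).1 hq).1 (lt_of_le_of_lt hyz ((hPmem q).1 hq).2.1)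
    · rintro ⟨q, hq⟩ ⟨b, hb⟩ ⟨b', hb'⟩ hbb
      have h1 := (hPmem q).1 hq
      exact hB q h1.1 h1.2.1 h1.2.2.1 h1.2.2.2 b hb b' hb' (fun h => hbb (Subtype.ext h))
  have hRng : Rng (fun q : {q // q ∈ P} => (q : ℕ)) (zN N) (XN N) B := by
    refine ⟨Subtype.val_injective, ?_⟩
    intro q
    rw [← hPmem]
    constructor
    · rintro ⟨⟨q', hq'⟩, h⟩
      rw [← h]
      exact hq'
    · intro h
      exact ⟨⟨q, h⟩, rfl⟩
  obtain ⟨⟨y, hy⟩, hSS⟩ := hN2 N hN2'' {q // q ∈ P} (fun q => (q : ℕ)) B hRng h2B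
  have hcard : Fintype.card {a // a ∈ S} = S.card := Fintype.card_coe S
  have hI0 : (0 : ℝ) < I := by
    have : (2 : ℝ) ≤ I := by exact_mod_cast hI2
    linarith
  have hI2' : (2 : ℝ) ≤ I := by exact_mod_cast hI2
  -- the two inequalities on the size of `S`
  have hA1 : (S.card : ℝ) * (2 * Real.log (zN N) / (c * I * Real.log N)) ≤ 1 / 32 := by
    have h1 : (0 : ℝ) ≤ 2 * Real.log (zN N) / (c * I * Real.log N) := by positivity
    calc (S.card : ℝ) * (2 * Real.log (zN N) / (c * I * Real.log N))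
        ≤ (C₁ * (Real.log N / Real.log (Real.log N))) *
          (2 * (10 * Real.log (Real.log N)) / (c * I * Real.log N)) := by
          apply mul_le_mul hmS _ h1 (by positivity)
          apply div_le_div_of_nonneg_right _ (by positivity)
          linarith
      _ = 20 * C₁ / (c * I) := by
          field_simp
          ring
      _ ≤ 1 / 32 := by
          rw [div_le_div_iff₀ (by positivity) (by norm_num)]
          linarith
  have hA2 : 20 * (S.card : ℝ) * (2 / (I : ℝ)) ^ 2 ≤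
      c * Real.log N / (640 * Real.log (Real.log N)) := by
    have h1 : 20 * (S.card : ℝ) * (2 / (I : ℝ)) ^ 2 ≤
        20 * (C₁ * (Real.log N / Real.log (Real.log N))) * (2 / (I : ℝ)) ^ 2 := by
      apply mul_le_mul_of_nonneg_right _ (by positivity)
      linarith
    refine h1.trans ?_
    have h2 : 20 * (C₁ * (Real.log N / Real.log (Real.log N))) * (2 / (I : ℝ)) ^ 2 =
        (80 * C₁ / (I : ℝ) ^ 2) * (Real.log N / Real.log (Real.log N)) := by
      field_simp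
      ring
    have h3 : c * Real.log N / (640 * Real.log (Real.log N)) =
        (c / 640) * (Real.log N / Real.log (Real.log N)) := by
      field_simp
    rw [h2, h3]
    apply mul_le_mul_of_nonneg_right _ (by positivity)
    rw [div_le_div_iff₀ (by positivity) (by norm_num)]
    linarith
  have hs0 : 0 < c * Real.log N / (640 * Real.log (Real.log N)) := by positivity
  have hSS' : ∀ E : Finset {q // q ∈ P}, pd (fun q : {q // q ∈ P} => (q : ℕ)) E ≤ N →
      c * Real.log N / (640 * Real.log (Real.log N)) ≤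
        SS (fun q : {q // q ∈ P} => (q : ℕ)) (XN N) E := by
    intro E hE
    have h1 := (h_SMALL {q // q ∈ P} (fun q => (q : ℕ)) (zN N) N S.card E hGood.big hz2 hN2' hm1
      hE).2.2
    have h2 : 2 * E.card ≤ zN N := by
      have : ((2 * E.card : ℕ) : ℝ) ≤ zN N := by
        push_cast
        linarith
      exact_mod_cast this
    refine le_trans ?_ (hSS E h2)
    have h3 : c * Real.log N / (640 * Real.log (Real.log N)) =
        c * (Real.log N / 32) / (2 * (10 * Real.log (Real.log N))) := by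
      field_simp
      norm_num
    rw [h3]
    apply div_le_div₀ _ _ (by positivity) _
    · exact mul_nonneg hc.le (by linarith)
    · exact mul_le_mul_of_nonneg_left hlX hc.le
    · linarith
  have hI8 : 8 * (1 / (8 * (I : ℝ))) = 1 / (I : ℝ) := by field_simp
  have hI1 : 1 / (I : ℝ) + 1 / (I : ℝ) = 2 / (I : ℝ) := by ring
  have hI3 : 0 < 1 / (I : ℝ) := by positivity
  have hIle : 2 / (I : ℝ) ≤ 1 := by
    rw [div_le_one hI0]
    exact hI2'
  have hmain := h_MAIN {q // q ∈ P} {a // a ∈ S} (fun q => (q : ℕ)) (fun a => (a : ℕ)) N W w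
    (zN N) (XN N) y _ _ _ (2 / (I : ℝ)) (c * Real.log N / (640 * Real.log (Real.log N))) hGood hy
    hN2' (by rw [hcard]; exact hm1) hX1 hXr (by rw [hcard]; exact hA1)
    (by rw [hI8]; linarith) (by rw [hI8]; linarith) hIle hs0 hSS' (by rw [hcard]; exact hA2)
  by_contra hcon
  push Not at hcon
  have hGGc : (GG (fun q : {q // q ∈ P} => (q : ℕ)) (fun a : {a // a ∈ S} => (a : ℕ)) N W w).card
      ≤ A.card * (XN N + 1) + M := by
    by_contra hlt
    push Not at hlt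
    have h1 := FIN_.card_GG (fun q : {q // q ∈ P} => (q : ℕ)) (fun a : {a // a ∈ S} => (a : ℕ))
      N W w M
    obtain ⟨n, hnG, hn⟩ := h_EXC A ((GG (fun q : {q // q ∈ P} => (q : ℕ))
      (fun a : {a // a ∈ S} => (a : ℕ)) N W w).filter fun n => M ≤ n) (XN N) (by
        intro n hn a ha
        rw [mem_filter] at hn
        have hn1 := hn.1
        unfold GG Ar at hn1
        rw [mem_filter, mem_filter] at hn1
        by_cases haS : a ∈ S
        · obtain ⟨⟨q, hq⟩, hq2⟩ := hn1.2 ⟨a, haS⟩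
          have h3 := (hPmem q).1 hq
          exact ⟨q, h3.1, h3.2.2.1, hq2⟩
        · obtain ⟨q, hq1, hq2, hq3⟩ := hSq a ha haS n hn1.1.2
          exact ⟨q, hq1, le_trans hq2 (le_trans hyz hzX), hq3⟩) (by omega)
    rw [mem_filter] at hnG
    have hn1 := hnG.1
    unfold GG Ar at hn1
    rw [mem_filter, mem_filter, mem_Icc] at hn1
    obtain ⟨a, ha, r, hr, hnr⟩ := hcon n hnG.2 hn1.1.1.2
    exact hn a ha r hr hnr
  have has2 := hN4 N hN4' S.card hmS
  rw [hcard] at hmain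
  have hNW : (N : ℝ) / (4 ^ yN N : ℕ) / 16 ≤ (N : ℝ) / W / 16 := by
    apply div_le_div_of_nonneg_right _ (by norm_num)
    apply div_le_div_of_nonneg_left (Nat.cast_nonneg _) (by exact_mod_cast hW1)
    exact_mod_cast hW4
  have hGGr : ((GG (fun q : {q // q ∈ P} => (q : ℕ)) (fun a : {a // a ∈ S} => (a : ℕ)) N W w).card
      : ℝ) + 4 ≤ (C * Real.log N + 1) * ((XN N : ℝ) + 1) + (M + 5) := by
    have h1 : ((GG (fun q : {q // q ∈ P} => (q : ℕ)) (fun a : {a // a ∈ S} => (a : ℕ)) N W w).card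
      : ℝ) ≤ (A.card : ℝ) * ((XN N : ℝ) + 1) + M := by exact_mod_cast hGGc
    have h2 : (A.card : ℝ) * ((XN N : ℝ) + 1) ≤ (C * Real.log N + 1) * ((XN N : ℝ) + 1) :=
      mul_le_mul_of_nonneg_right hAc (by positivity)
    linarith
  have h9 := mul_le_mul_of_nonneg_right hGGr
    (sq_nonneg ((N : ℝ) ^ ((1 : ℝ) / 8) * 2 ^ S.card))
  linarith

end Pool.Agent.ACQ
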