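import Pool.Agent.ACQ.Targets
import Pool.Agent.ACP.P_GR1

set_option autoImplicit false

/-!
# ACQ: GRE, greedy classes modulo the small primes (MP_512c7d_nt)
-/

open Finset

namespace Pool.Agent.ACQ

theorem p_GRE : T_GRE := by
  intro A y
  obtain ⟨r, hr⟩ := ACP.p_GR1 A y
  have hprime : ∀ q ∈ ACP.pr y, q.Prime ∧ q ≤ y := by
    intro q hq
    rw [ACP.pr, mem_filter, mem_Icc] at hq
    exact ⟨hq.2, hq.1.2⟩
  have hpw : Set.Pairwise (ACP.pr y : Set ℕ) (Function.onFun Nat.Coprime fun q => q) := by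
    intro q hq q' hq' hne
    exact (Nat.coprime_primes (hprime q (by simpa using hq)).1
      (hprime q' (by simpa using hq')).1).2 hne
  obtain ⟨w, hw⟩ := Nat.chineseRemainderOfFinset r (fun q => q) (ACP.pr y)
    (fun q hq => (hprime q hq).1.ne_zero) hpw
  refine ⟨∏ q ∈ ACP.pr y, q, w, A.filter fun a => ∀ p ∈ ACP.pr y, ¬ a ≡ r p [MOD p],
    filter_subset _ _, ?_, ?_, ?_, hr, ?_⟩
  · exact Nat.one_le_iff_ne_zero.2 (prod_ne_zero_iff.2 fun q hq => (hprime q hq).1.ne_zero)
  · have h := primorial_le_four_pow y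
    have heq : ACP.pr y = (range (y + 1)).filter Nat.Prime := by
      ext q
      rw [ACP.pr, mem_filter, mem_filter, mem_Icc, mem_range]
      constructor
      · rintro ⟨⟨_, h2⟩, h3⟩
        exact ⟨by omega, h3⟩
      · rintro ⟨h2, h3⟩
        exact ⟨⟨h3.one_lt.le, by omega⟩, h3⟩
    rw [heq]
    exact h
  · intro q hq hyq
    apply Nat.Coprime.prod_right
    intro q' hq'
    have h' := hprime q' hq'
    exact (Nat.coprime_primes hq h'.1).2 (by omega)
  · intro a ha haS n hn
    rw [mem_filter, not_and] at haS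
    have h := haS ha
    push Not at h
    obtain ⟨q, hq, haq⟩ := h
    refine ⟨q, (hprime q hq).1, (hprime q hq).2, ?_⟩
    have h1 : n ≡ w [MOD q] := hn.of_dvd (dvd_prod_of_mem (fun q => q) hq)
    exact (h1.trans (hw q hq)).trans haq.symm

end Pool.Agent.ACQ
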