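import Pool.Agent.ACQ.Targets

set_option autoImplicit false

/-!
# ACQ, target GRM: the Gram lemma, assembled
-/

open Finset

namespace Pool.Agent.ACQ

/-- GRM. -/
theorem p_GRM (h_GRAM : T_GRAM) (h_SMALL : T_SMALL) : T_GRM := by
  intro ι σ _ _ _ _ p s N W w z hG hN hz Y hY
  have hS : ∀ ψ, Y ψ ≠ 0 → _ := fun ψ hψ =>
    h_SMALL ι p z N (Fintype.card σ) (spp ψ) hG.big hG.z2 hN hz (hY ψ hψ)
  exact h_GRAM ι σ p s N W w z hG Y (fun ψ hψ => (hS ψ hψ).1) (fun ψ hψ => (hS ψ hψ).2.1)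

end Pool.Agent.ACQ
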