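import Pool.Agent.ACQ.Targets

set_option autoImplicit false

/-!
# ACQ: the target T_INC (sets containing a given index)
-/

open Finset

namespace Pool.Agent.ACQ

namespace INC_

lemma mm_nonneg {ι : Type} (p : ι → ℕ) (z : ℕ) (hz : ∀ i, z < p i) (D : Finset ι) :
    0 ≤ mm p D := by
  unfold mm
  refine Finset.prod_nonneg fun j _ => ?_
  have h1 : (1 : ℝ) ≤ p j := by
    have := hz j
    exact_mod_cast (by omega : 1 ≤ p j)
  exact div_nonneg zero_le_one (by linarith)

end INC_

/-- INC. Sets containing a given index. -/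
theorem p_INC : T_INC := by
  intro ι _ _ p z x hz h1 i
  have hzr : (1 : ℝ) ≤ z := by exact_mod_cast h1
  have hz0 : (0 : ℝ) < z := by linarith
  have hpi : (z : ℝ) ≤ (p i : ℝ) - 1 := by
    have h2 : z + 1 ≤ p i := hz i
    have h3 : ((z + 1 : ℕ) : ℝ) ≤ p i := by exact_mod_cast h2
    push_cast at h3
    linarith
  have hfac : 1 / ((p i : ℝ) - 1) ≤ 1 / z := one_div_le_one_div_of_le hz0 hpi
  have hstep : ∀ D ∈ (univ : Finset (Finset ι)).filter (fun D => i ∈ D ∧ pd p D ≤ x),
      mm p D ≤ mm p (D.erase i) * (1 / z) := by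
    intro D hD
    have hi : i ∈ D := (Finset.mem_filter.1 hD).2.1
    have h4 : mm p D = (1 / ((p i : ℝ) - 1)) * mm p (D.erase i) := by
      unfold mm
      rw [Finset.mul_prod_erase D (fun j => 1 / ((p j : ℝ) - 1)) hi]
    rw [h4, mul_comm]
    exact mul_le_mul_of_nonneg_left hfac (INC_.mm_nonneg p z hz _)
  have hinj : Set.InjOn (fun D : Finset ι => D.erase i)
      ((univ : Finset (Finset ι)).filter (fun D => i ∈ D ∧ pd p D ≤ x) : Set (Finset ι)) := by
    intro D hD E hE h
    have hD' : i ∈ D := (Finset.mem_filter.1 (Finset.mem_coe.1 hD)).2.1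
    have hE' : i ∈ E := (Finset.mem_filter.1 (Finset.mem_coe.1 hE)).2.1
    have h5 : D.erase i = E.erase i := h
    rw [← Finset.insert_erase hD', ← Finset.insert_erase hE', h5]
  have hsum : ∑ D ∈ (univ : Finset (Finset ι)).filter (fun D => i ∈ D ∧ pd p D ≤ x),
      mm p (D.erase i) ≤ Sg p x := by
    rw [← Finset.sum_image (f := fun D => mm p D) hinj]
    unfold Sg
    refine Finset.sum_le_sum_of_subset_of_nonneg ?_ fun D _ _ => INC_.mm_nonneg p z hz D
    intro D hD
    obtain ⟨E, hE, rfl⟩ := Finset.mem_image.1 hD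
    have hE' := (Finset.mem_filter.1 hE).2
    refine Finset.mem_filter.2 ⟨Finset.mem_univ _, le_trans ?_ hE'.2⟩
    unfold pd
    refine Finset.prod_le_prod_of_subset_of_one_le' (Finset.erase_subset _ _) fun j _ _ => ?_
    have := hz j
    omega
  calc ∑ D ∈ (univ : Finset (Finset ι)).filter (fun D => i ∈ D ∧ pd p D ≤ x), mm p D
      ≤ ∑ D ∈ (univ : Finset (Finset ι)).filter (fun D => i ∈ D ∧ pd p D ≤ x),
          mm p (D.erase i) * (1 / z) := Finset.sum_le_sum hstep
    _ = (∑ D ∈ (univ : Finset (Finset ι)).filter (fun D => i ∈ D ∧ pd p D ≤ x),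
          mm p (D.erase i)) * (1 / z) := by rw [Finset.sum_mul]
    _ ≤ Sg p x * (1 / z) := mul_le_mul_of_nonneg_right hsum (by positivity)
    _ = Sg p x / z := by rw [mul_one_div]

end Pool.Agent.ACQ
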