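import Pool.Agent.ACQ.Targets

set_option autoImplicit false

/-!
# ACQ: local functions (target `T_LOC`)
-/

open Finset

namespace Pool.Agent.ACQ

theorem LOC_sum {σ : Type} [Fintype σ] [DecidableEq σ] (b : σ) (v : ℝ) (f : σ → ℝ) :
    ∑ c, (if c = b then v else 0) * f c = v * f b := by
  rw [Finset.sum_eq_single b]
  · simp
  · intro c _ hc
    simp [hc]
  · intro h
    exact absurd (Finset.mem_univ b) h

theorem LOC_div {σ : Type} [Fintype σ] [DecidableEq σ] (b : σ) (v q : ℝ) :
    ∑ c, (if c = b then v else 0) / q = v / q := by
  simp [div_eq_mul_inv]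

theorem LOC_abs {σ : Type} [Fintype σ] [DecidableEq σ] (b : σ) (v : ℝ) :
    ∑ c, |if c = b then v else 0| = |v| := by
  rw [Finset.sum_eq_single b]
  · simp
  · intro c _ hc
    simp [hc]
  · intro h
    exact absurd (Finset.mem_univ b) h

/-- One label. -/
theorem LOC_one {ι σ : Type} [Fintype σ] [DecidableEq σ]
    (p : ι → ℕ) (s : σ → ℕ) (i : ι) (hq : (3 : ℝ) ≤ (p i : ℝ)) (b : σ) :
    ∃ (α : ℝ) (β : σ → ℝ),
      (∀ n : ℕ, chi p s i (some b) n =
        α + ∑ b, β b * (if n ≡ s b [MOD p i] then 1 else 0)) ∧
      α + ∑ b, β b / (p i : ℝ) = 0 ∧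
      |α| + ∑ b, |β b| ≤ ((p i : ℝ) + 1) / ((p i : ℝ) - 1) := by
  set q : ℝ := (p i : ℝ) with hqd
  have h1 : 0 < q - 1 := by linarith
  have h0 : 0 < q := by linarith
  refine ⟨1 / (q - 1), fun c => if c = b then -(q / (q - 1)) else 0, ?_, ?_, ?_⟩
  · intro n
    rw [LOC_sum b (-(q / (q - 1))) (fun b => if n ≡ s b [MOD p i] then (1 : ℝ) else 0)]
    simp only [chi]
    by_cases h : n ≡ s b [MOD p i]
    · simp only [h, if_true]
      field_simp
      ring
    · simp only [h, if_false]
      simp [hqd]
  · simp only [LOC_div]
    field_simp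
    ring
  · simp only [LOC_abs]
    rw [abs_neg, abs_of_pos (by positivity : (0 : ℝ) < 1 / (q - 1)),
      abs_of_pos (by positivity : (0 : ℝ) < q / (q - 1)), ← add_div]
    rw [add_comm]

theorem p_LOC : T_LOC := by
  intro ι σ _ _ _ _ p s W z hG i o o'
  have hq : (3 : ℝ) ≤ (p i : ℝ) := by
    have h1 := hG.big i
    have h2 := hG.z2
    have : 3 ≤ p i := by omega
    exact_mod_cast this
  rcases o with _ | b
  · rcases o' with _ | b'
    · refine ⟨1, fun _ => 0, ?_, ?_, ?_⟩
      · intro n
        simp [chi]
      · simp [EE]
      · simp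
    · obtain ⟨α, β, h1, h2, h3⟩ := LOC_one p s i hq b'
      refine ⟨α, β, ?_, ?_, ?_⟩
      · intro n
        rw [← h1 n]
        simp [chi]
      · rw [h2]
        simp [EE]
      · simpa using h3
  · rcases o' with _ | b'
    · obtain ⟨α, β, h1, h2, h3⟩ := LOC_one p s i hq b
      refine ⟨α, β, ?_, ?_, ?_⟩
      · intro n
        rw [← h1 n]
        simp [chi]
      · rw [h2]
        simp [EE]
      · simpa using h3
    · set q : ℝ := (p i : ℝ) with hqd
      have h1 : 0 < q - 1 := by linarith
      have h0 : 0 < q := by linarith
      have hle : 1 / (q - 1) ^ 2 ≤ 1 := by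
        rw [div_le_one (by positivity)]
        nlinarith
      by_cases hb : b = b'
      · subst hb
        refine ⟨1 / (q - 1) ^ 2, fun c => if c = b then 1 - 1 / (q - 1) ^ 2 else 0, ?_, ?_, ?_⟩
        · intro n
          rw [LOC_sum b (1 - 1 / (q - 1) ^ 2)
            (fun b => if n ≡ s b [MOD p i] then (1 : ℝ) else 0)]
          simp only [chi]
          by_cases h : n ≡ s b [MOD p i]
          · simp only [h, if_true]
            ring
          · simp only [h, if_false, ← hqd]
            field_simp
            ring
        · simp only [LOC_div, EE, if_true, ← hqd]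
          field_simp
          ring
        · simp only [LOC_abs]
          rw [abs_of_pos (by positivity : (0 : ℝ) < 1 / (q - 1) ^ 2),
            abs_of_nonneg (by linarith : (0 : ℝ) ≤ 1 - 1 / (q - 1) ^ 2)]
          have h5 : 1 ≤ (q + 1) / (q - 1) := by
            rw [le_div_iff₀ h1]
            linarith
          have h6 : (1 : ℝ) ≤ (q + 1) / (q - 1) * ((q + 1) / (q - 1)) := by nlinarith
          simpa using h6
      · refine ⟨1 / (q - 1) ^ 2, fun c => (if c = b then -(q / (q - 1) ^ 2) else 0) +
          (if c = b' then -(q / (q - 1) ^ 2) else 0), ?_, ?_, ?_⟩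
        · intro n
          simp only [add_mul, Finset.sum_add_distrib]
          rw [LOC_sum b (-(q / (q - 1) ^ 2))
              (fun b => if n ≡ s b [MOD p i] then (1 : ℝ) else 0),
            LOC_sum b' (-(q / (q - 1) ^ 2))
              (fun b => if n ≡ s b [MOD p i] then (1 : ℝ) else 0)]
          simp only [chi, ← hqd]
          by_cases h : n ≡ s b [MOD p i]
          · have h' : ¬ n ≡ s b' [MOD p i] := by
              intro h'
              exact hG.dif i b b' hb (h.symm.trans h')
            simp only [h, h', if_true, if_false]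
            field_simp
            ring
          · by_cases h' : n ≡ s b' [MOD p i]
            · simp only [h, h', if_true, if_false]
              field_simp
              ring
            · simp only [h, h', if_false]
              field_simp
              ring
        · simp only [add_div, Finset.sum_add_distrib, LOC_div, EE, if_neg hb, ← hqd]
          field_simp
          ring
        · have h7 : ∑ c, |(if c = b then -(q / (q - 1) ^ 2) else 0) +
              (if c = b' then -(q / (q - 1) ^ 2) else 0)| ≤
              q / (q - 1) ^ 2 + q / (q - 1) ^ 2 := by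
            have e1 : ∑ c, |(if c = b then -(q / (q - 1) ^ 2) else 0) +
                (if c = b' then -(q / (q - 1) ^ 2) else 0)| ≤
                ∑ c, (|if c = b then -(q / (q - 1) ^ 2) else 0| +
                  |if c = b' then -(q / (q - 1) ^ 2) else 0|) :=
              Finset.sum_le_sum fun c _ => abs_add_le _ _
            rw [Finset.sum_add_distrib, LOC_abs, LOC_abs, abs_neg,
              abs_of_pos (by positivity : (0 : ℝ) < q / (q - 1) ^ 2)] at e1
            exact e1
          have h8 : |1 / (q - 1) ^ 2| = 1 / (q - 1) ^ 2 :=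
            abs_of_pos (by positivity)
          have h9 : 1 / (q - 1) ^ 2 + (q / (q - 1) ^ 2 + q / (q - 1) ^ 2) ≤
              (q + 1) / (q - 1) * ((q + 1) / (q - 1)) := by
            have e1 : 1 / (q - 1) ^ 2 + (q / (q - 1) ^ 2 + q / (q - 1) ^ 2) =
                (1 + 2 * q) / (q - 1) ^ 2 := by
              field_simp
              ring
            have e2 : (q + 1) / (q - 1) * ((q + 1) / (q - 1)) = (q + 1) ^ 2 / (q - 1) ^ 2 := by
              field_simp
            rw [e1, e2]
            apply div_le_div_of_nonneg_right _ (by positivity)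
            nlinarith
          rw [h8]
          simp only [reduceCtorEq, if_false]
          linarith

end Pool.Agent.ACQ
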