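import Pool.Agent.ACQ.Targets

set_option autoImplicit false

open Finset

namespace Pool.Agent.ACQ

namespace MAIN_

variable {ι σ : Type} [Fintype ι] [Fintype σ] [DecidableEq ι] [DecidableEq σ]

lemma mm_nonneg (p : ι → ℕ) (hp : ∀ i, 2 ≤ p i) (D : Finset ι) : 0 ≤ mm p D := by
  unfold mm
  refine Finset.prod_nonneg fun i _ => ?_
  have h : (2 : ℝ) ≤ (p i : ℝ) := by exact_mod_cast hp i
  apply div_nonneg zero_le_one
  linarith

lemma lowY (p : ι → ℕ) (hp : ∀ i, 2 ≤ p i) (N : ℕ) (T : ℝ) (hT : 0 < T)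
    (y : Finset ι → ℝ) :
    1 / 4 * ZZ σ p N y (T / 2) ≤
      ∑ ψ : ι → Option σ, YY p N T y ψ ^ 2 * mm p (spp ψ) := by
  classical
  unfold ZZ
  rw [Finset.mul_sum]
  have h1 : ∀ ψ ∈ (univ : Finset (ι → Option σ)).filter
      (fun ψ => tt p N (spp ψ) ≤ T / 2),
      1 / 4 * ((∏ b, vv y (cls ψ b) ^ 2) * mm p (spp ψ)) ≤
        YY p N T y ψ ^ 2 * mm p (spp ψ) := by
    intro ψ hψ
    have hle : tt p N (spp ψ) ≤ T / 2 := (Finset.mem_filter.mp hψ).2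
    have hm := mm_nonneg p hp (spp ψ)
    have hg : (1 / 2 : ℝ) ≤ gg T (tt p N (spp ψ)) := by
      unfold gg
      apply le_max_of_le_right
      have : tt p N (spp ψ) / T ≤ 1 / 2 := by
        rw [div_le_iff₀ hT]; linarith
      linarith
    unfold YY
    rw [mul_pow, ← Finset.prod_pow, ← mul_assoc]
    apply mul_le_mul_of_nonneg_right _ hm
    apply mul_le_mul_of_nonneg_right
    · nlinarith
    · exact Finset.prod_nonneg fun b _ => sq_nonneg _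
  refine (Finset.sum_le_sum h1).trans ?_
  apply Finset.sum_le_sum_of_subset_of_nonneg (Finset.filter_subset _ _)
  intro ψ _ _
  exact mul_nonneg (sq_nonneg _) (mm_nonneg p hp _)

lemma cover (p : ι → ℕ) (s : σ → ℕ) (N W w : ℕ) (f : ℕ → ℝ) (hf : ∀ n, 0 ≤ f n) :
    ∑ n ∈ Ar N W w, f n ≤
      ∑ n ∈ GG p s N W w, f n + ∑ a, ∑ n ∈ FF p s N W w a, f n := by
  classical
  unfold GG FF
  simp only [Finset.sum_filter]
  rw [Finset.sum_comm, ← Finset.sum_add_distrib]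
  apply Finset.sum_le_sum
  intro n _
  have h0 : ∀ a ∈ (univ : Finset σ),
      0 ≤ (if ∀ i, ¬ n ≡ s a [MOD p i] then f n else 0) := by
    intro a _
    split_ifs
    · exact hf n
    · exact le_refl 0
  by_cases h : ∀ b, ∃ i, n ≡ s b [MOD p i]
  · rw [if_pos h]
    have := Finset.sum_nonneg h0
    linarith
  · rw [if_neg h, zero_add]
    push Not at h
    obtain ⟨b, hb⟩ := h
    have h1 := Finset.single_le_sum h0 (Finset.mem_univ b)
    rw [if_pos hb] at h1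
    exact h1

end MAIN_

open MAIN_ in
theorem p_MAIN (h_GRM : T_GRM) (h_PSI : T_PSI) (h_UPP : T_UPP) (h_ZZ : T_ZZ) (h_QF : T_QF)
    (h_SUY : T_SUY) (h_ABS : T_ABS) : T_MAIN := by
  intro ι σ _ _ _ _ p s N W w z R y e2 e3 e4 δ s0 hG hW hN hz hR1 hR he3 he2 he4 hδ1 hs0
    hSS hm
  classical
  have hp : ∀ i, 2 ≤ p i := fun i => (hG.pr i).two_le
  have hT : (0 : ℝ) < 1 / 8 := by norm_num
  set m : ℝ := (Fintype.card σ : ℝ) with hmdef
  have hm0 : 0 ≤ m := Nat.cast_nonneg _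
  set Y : (ι → Option σ) → ℝ := YY p N (1 / 8) y with hY
  set A : ℝ := (N : ℝ) ^ ((1 : ℝ) / 8) * 2 ^ Fintype.card σ with hA
  set B : ℝ := (N : ℝ) ^ ((3 : ℝ) / 16) * 2 ^ Fintype.card σ with hB
  have hN1 : (1 : ℝ) ≤ (N : ℝ) := by
    have : (2 : ℝ) ≤ (N : ℝ) := by exact_mod_cast hN
    linarith
  have hN0 : (0 : ℝ) < (N : ℝ) := by linarith
  have hA0 : 0 ≤ A := by positivity
  -- ZZ
  have hZZ := h_ZZ ι σ p N y (1 / 8) hp hN hT (by
    have h1 := mul_le_mul_of_nonneg_left hW.Y3 hm0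
    have : (1 : ℝ) / 8 / 4 = 1 / 32 := by norm_num
    rw [this]
    linarith)
  obtain ⟨hZ2, hZ1⟩ := hZZ
  set Z : ℝ := ZZ σ p N y (1 / 8 / 2) with hZ
  -- SUY
  obtain ⟨hSY, hYsup, hPs⟩ := h_SUY ι σ p N (1 / 8) y e2 e3 e4 hp hN hW hT
  have hrp : (N : ℝ) ^ ((1 : ℝ) / 8) ≤ (N : ℝ) := by
    calc (N : ℝ) ^ ((1 : ℝ) / 8) ≤ (N : ℝ) ^ (1 : ℝ) :=
          Real.rpow_le_rpow_of_exponent_le hN1 (by norm_num)
      _ = N := Real.rpow_one _
  have hrp3 : (N : ℝ) ^ ((3 : ℝ) / 16) ≤ (N : ℝ) := by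
    calc (N : ℝ) ^ ((3 : ℝ) / 16) ≤ (N : ℝ) ^ (1 : ℝ) :=
          Real.rpow_le_rpow_of_exponent_le hN1 (by norm_num)
      _ = N := Real.rpow_one _
  have hmulrp : (N : ℝ) ^ ((1 : ℝ) / 8) * (N : ℝ) ^ ((1 : ℝ) / 16) =
      (N : ℝ) ^ ((3 : ℝ) / 16) := by
    rw [← Real.rpow_add hN0]; norm_num
  -- GRM
  have hGRM := h_GRM ι σ p s N W w z hG hN hz Y (fun ψ hψ => by
    have h1 := hYsup ψ hψ
    have h2 : ((pd p (spp ψ) : ℕ) : ℝ) ≤ (N : ℝ) := h1.trans hrp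
    exact_mod_cast h2)
  set Q : ℝ := ∑ ψ, Y ψ ^ 2 * mm p (spp ψ) with hQ
  have hQZ : 1 / 4 * Z ≤ Q := lowY p hp N (1 / 8) hT y
  set V : ℝ := ∑ n ∈ Ar N W w, VV p s Y n ^ 2 with hV
  have hlow : 3 / 4 * ((N : ℝ) / W * Q) - 4 * A ^ 2 ≤ V := by
    have h1 := (abs_le.mp hGRM).1
    have h2 : (∑ ψ, |Y ψ|) ^ 2 ≤ A ^ 2 := by
      apply pow_le_pow_left₀ (Finset.sum_nonneg fun _ _ => abs_nonneg _) hSY
    linarith
  -- GG
  have hGG : ∑ n ∈ GG p s N W w, VV p s Y n ^ 2 ≤ (GG p s N W w).card * A ^ 2 := by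
    rw [← nsmul_eq_mul]
    apply Finset.sum_le_card_nsmul
    intro n _
    have h1 := (h_ABS ι σ p s Y n hp).trans hSY
    calc VV p s Y n ^ 2 = |VV p s Y n| ^ 2 := (sq_abs _).symm
      _ ≤ A ^ 2 := pow_le_pow_left₀ (abs_nonneg _) h1 2
  -- FF
  have hWpos : (0 : ℝ) < (W : ℝ) := by
    have := hG.W1
    exact_mod_cast this
  have hNW : 0 < (N : ℝ) / W := div_pos hN0 hWpos
  have hZpos : 0 < Z := by linarith
  have hFF : ∀ a : σ, ∑ n ∈ FF p s N W w a, VV p s Y n ^ 2 ≤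
      5 / 4 * ((N : ℝ) / W * (δ ^ 2 * (2 * Z) / s0)) + 4 * B ^ 2 := by
    intro a
    obtain ⟨_, hq2, hq3⟩ := h_QF ι σ p N (1 / 8) y e2 e3 e4 δ a hp hN hW hT
      (by norm_num) (by
        have : e2 / (1 / 8 : ℝ) = 8 * e2 := by ring
        have h4 : 0 ≤ 0 := le_refl 0
        rw [this]
        exact he2) (by
        have : e2 / (1 / 8 : ℝ) = 8 * e2 := by ring
        rw [this]
        exact he4)
    have hPb : ∀ ψ : ι → Option σ,
        |Psi p (YY p N (1 / 8) y) a ψ| ≤ ∏ b, |vv y (cls ψ b)| := by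
      intro ψ
      refine (hq3 ψ).trans ?_
      have h0 : 0 ≤ ∏ b, |vv y (cls ψ b)| := Finset.prod_nonneg fun _ _ => abs_nonneg _
      nlinarith
    obtain ⟨hP1, hP2⟩ := hPs a hPb
    set F : (ι → Option σ) → ℝ := Psi p Y a with hF
    have hpdN : ∀ ψ, F ψ ≠ 0 → pd p (spp ψ) * R ≤ N := by
      intro ψ hψ
      have h1 := (hP2 ψ hψ).2
      have h2 : ((pd p (spp ψ) * R : ℕ) : ℝ) ≤ (N : ℝ) := by
        push_cast
        calc (pd p (spp ψ) : ℝ) * R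
            ≤ (N : ℝ) ^ ((1 : ℝ) / 8) * (N : ℝ) ^ ((1 : ℝ) / 16) :=
              mul_le_mul h1 hR (Nat.cast_nonneg _) (by positivity)
          _ = (N : ℝ) ^ ((3 : ℝ) / 16) := hmulrp
          _ ≤ N := hrp3
      exact_mod_cast h2
    have hU := h_UPP ι σ p s N W w z R hG hN hz hR1 a F s0 hs0
      (fun ψ hψ => hSS _ (by
        have h1 := (hP2 ψ hψ).2
        have h2 : ((pd p (spp ψ) : ℕ) : ℝ) ≤ (N : ℝ) := h1.trans hrp
        exact_mod_cast h2))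
      (fun ψ hψ => (hP2 ψ hψ).1) hpdN
    have hEq : ∑ n ∈ FF p s N W w a, VV p s Y n ^ 2 =
        ∑ n ∈ FF p s N W w a, VV p s F n ^ 2 := by
      apply Finset.sum_congr rfl
      intro n hn
      have h1 : ∀ i, ¬ n ≡ s a [MOD p i] := (Finset.mem_filter.mp hn).2
      rw [h_PSI ι σ p s Y a n h1]
    rw [hEq]
    refine hU.trans ?_
    have hb1 : (∑ ψ, F ψ ^ 2 * mm p (spp ψ)) / s0 ≤ δ ^ 2 * (2 * Z) / s0 := by
      apply div_le_div_of_nonneg_right _ hs0.le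
      refine hq2.trans ?_
      exact mul_le_mul_of_nonneg_left hZ2 (sq_nonneg _)
    have hb2 : (R : ℝ) * ∑ ψ, |F ψ| ≤ B := by
      calc (R : ℝ) * ∑ ψ, |F ψ|
          ≤ (N : ℝ) ^ ((1 : ℝ) / 16) * ((N : ℝ) ^ ((1 : ℝ) / 8) * 2 ^ Fintype.card σ) :=
            mul_le_mul hR hP1 (Finset.sum_nonneg fun _ _ => abs_nonneg _) (by positivity)
        _ = ((N : ℝ) ^ ((1 : ℝ) / 8) * (N : ℝ) ^ ((1 : ℝ) / 16)) *
              2 ^ Fintype.card σ := by ring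
        _ = B := by rw [hmulrp]
    have hb3 : ((R : ℝ) * ∑ ψ, |F ψ|) ^ 2 ≤ B ^ 2 := by
      apply pow_le_pow_left₀ _ hb2
      exact mul_nonneg (Nat.cast_nonneg _) (Finset.sum_nonneg fun _ _ => abs_nonneg _)
    have hb4 := mul_le_mul_of_nonneg_left hb1 hNW.le
    linarith
  have hcov := cover p s N W w (fun n => VV p s Y n ^ 2) (fun n => sq_nonneg _)
  have hsumF : ∑ a : σ, ∑ n ∈ FF p s N W w a, VV p s Y n ^ 2 ≤
      m * (5 / 4 * ((N : ℝ) / W * (δ ^ 2 * (2 * Z) / s0)) + 4 * B ^ 2) := by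
    calc ∑ a : σ, ∑ n ∈ FF p s N W w a, VV p s Y n ^ 2
        ≤ ∑ _a : σ, (5 / 4 * ((N : ℝ) / W * (δ ^ 2 * (2 * Z) / s0)) + 4 * B ^ 2) :=
          Finset.sum_le_sum fun a _ => hFF a
      _ = m * (5 / 4 * ((N : ℝ) / W * (δ ^ 2 * (2 * Z) / s0)) + 4 * B ^ 2) := by
          rw [Finset.sum_const, Finset.card_univ, nsmul_eq_mul]
  have hkey : m * (5 / 4 * ((N : ℝ) / W * (δ ^ 2 * (2 * Z) / s0))) ≤
      (N : ℝ) / W * Z / 8 := by
    have e1 : m * (5 / 4 * ((N : ℝ) / W * (δ ^ 2 * (2 * Z) / s0))) =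
        ((N : ℝ) / W * Z / 8) * ((20 * m * δ ^ 2) / s0) := by
      field_simp
      ring
    rw [e1]
    have h1 : (20 * m * δ ^ 2) / s0 ≤ 1 := by
      rw [div_le_one hs0]
      exact hm
    have h2 : 0 ≤ (N : ℝ) / W * Z / 8 := by positivity
    calc ((N : ℝ) / W * Z / 8) * ((20 * m * δ ^ 2) / s0)
        ≤ ((N : ℝ) / W * Z / 8) * 1 := mul_le_mul_of_nonneg_left h1 h2
      _ = _ := mul_one _
  have hQ2 : (N : ℝ) / W * (1 / 4 * Z) ≤ (N : ℝ) / W * Q :=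
    mul_le_mul_of_nonneg_left hQZ hNW.le
  have hZfin : (N : ℝ) / W * 1 ≤ (N : ℝ) / W * Z := mul_le_mul_of_nonneg_left hZ1 hNW.le
  have hfinal : (N : ℝ) / W / 16 ≤ ((GG p s N W w).card + 4) * A ^ 2 + 4 * m * B ^ 2 := by
    have h5 : V ≤ (GG p s N W w).card * A ^ 2 +
        m * (5 / 4 * ((N : ℝ) / W * (δ ^ 2 * (2 * Z) / s0)) + 4 * B ^ 2) := by
      refine hcov.trans ?_
      linarith
    have h6 : m * (5 / 4 * ((N : ℝ) / W * (δ ^ 2 * (2 * Z) / s0)) + 4 * B ^ 2) =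
        m * (5 / 4 * ((N : ℝ) / W * (δ ^ 2 * (2 * Z) / s0))) + 4 * m * B ^ 2 := by ring
    rw [h6] at h5
    have h7 : ((GG p s N W w).card + 4) * A ^ 2 =
        (GG p s N W w).card * A ^ 2 + 4 * A ^ 2 := by ring
    rw [h7]
    linarith
  exact hfinal

end Pool.Agent.ACQ
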