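import Pool.Agent.ACQ.Targets

/-!
# ACQ: MK, the mass of a block
-/

set_option autoImplicit false

open Finset

namespace Pool.Agent.ACQ

namespace MK_

/-- The mass of a block as a difference. -/
theorem mk_eq {ι : Type} [Fintype ι] [DecidableEq ι] (p : ι → ℕ) (x : ℕ → ℕ) (k : ℕ)
    (h : x (k + 1) ≤ x k) : Sg p (x k) = Sg p (x (k + 1)) + Mk p x k := by
  unfold Sg Mk
  rw [← sum_filter_add_sum_filter_not
    ((univ : Finset (Finset ι)).filter fun D => pd p D ≤ x k) (fun D => pd p D ≤ x (k + 1)),
    filter_filter, filter_filter]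
  congr 1
  · refine sum_congr (filter_congr fun D _ => ?_) fun _ _ => rfl
    exact ⟨fun h => h.2, fun h' => ⟨h'.trans h, h'⟩⟩
  · refine sum_congr (filter_congr fun D _ => ?_) fun _ _ => rfl
    rw [not_le]
    exact and_comm

end MK_

open MK_ in
theorem p_MK : T_MK := by
  intro ι _ _ p N z I x c C h k hk
  have hz : (2 : ℝ) ≤ z := by exact_mod_cast h.z2
  have hlz : 0 < Real.log z := Real.log_pos (by linarith)
  have hzx : (z : ℝ) ≤ x k := by exact_mod_cast h.zx k hk.le
  have hxpos : (0 : ℝ) < x k := by linarith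
  have hlx : 0 < Real.log (x k) := Real.log_pos (by linarith)
  have hC : 0 < C := lt_of_lt_of_le h.c0 h.cC
  have hcC : c / (2 * C) ≤ 1 / 2 := by
    rw [div_le_iff₀ (by linarith)]
    linarith [h.cC]
  have hdec := h.dec k hk
  have hlt : x (k + 1) < x k := by
    by_contra hc
    rw [not_lt] at hc
    have h1 : Real.log (x k) ≤ Real.log (x (k + 1)) :=
      Real.log_le_log hxpos (by exact_mod_cast hc)
    have h2 : c / (2 * C) * Real.log (x k) ≤ 1 / 2 * Real.log (x k) :=
      mul_le_mul_of_nonneg_right hcC hlx.le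
    linarith
  refine ⟨hlx, hlt, ?_⟩
  have h1 := mk_eq p x k hlt.le
  have h2 := h.lo k hk
  have h3 := h.up (k + 1) hk
  have h4 : C * Real.log (x (k + 1)) / Real.log z ≤
      C * (c / (2 * C) * Real.log (x k)) / Real.log z :=
    div_le_div_of_nonneg_right (mul_le_mul_of_nonneg_left hdec hC.le) hlz.le
  have h5 : C * (c / (2 * C) * Real.log (x k)) / Real.log z =
      c * Real.log (x k) / (2 * Real.log z) := by
    field_simp
  have h6 : c * Real.log (x k) / Real.log z = 2 * (c * Real.log (x k) / (2 * Real.log z)) := by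
    field_simp
  linarith

end Pool.Agent.ACQ
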