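import Pool.Agent.ACQ.Targets

set_option autoImplicit false

/-!
# ACQ, target OFF: row sums of the matrix of mean values
-/

open Finset

namespace Pool.Agent.ACQ

namespace OFF_

/-- The row sum at one prime. -/
theorem row {ι σ : Type} [Fintype ι] [DecidableEq ι] [Fintype σ] [DecidableEq σ]
    (p : ι → ℕ) (i : ι) (hp : 2 ≤ p i) (o : Option σ) :
    ∑ o' : Option σ, |EE p i o o'| ≤ if o ≠ none then
      1 / ((p i : ℝ) - 1) * (1 + (Fintype.card σ : ℝ) / ((p i : ℝ) - 1)) else 1 := by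
  have h2 : (2 : ℝ) ≤ (p i : ℝ) := by exact_mod_cast hp
  have hq : (0 : ℝ) < (p i : ℝ) - 1 := by linarith
  rw [Fintype.sum_option]
  cases o with
  | none =>
    simp [EE]
  | some b =>
    rw [if_pos (by simp)]
    have h0 : |EE p i (some b) (none : Option σ)| = 0 := by simp [EE]
    rw [h0, zero_add]
    have h1 : ∀ b' : σ, |EE p i (some b) (some b')| ≤
        (if b = b' then 1 / ((p i : ℝ) - 1) else 0) + 1 / ((p i : ℝ) - 1) ^ 2 := by
      intro b'
      have hnn : (0 : ℝ) ≤ 1 / ((p i : ℝ) - 1) ^ 2 := by positivity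
      have hnn2 : (0 : ℝ) ≤ 1 / ((p i : ℝ) - 1) := by positivity
      by_cases hb : b = b'
      · simp only [EE, hb, if_true]
        rw [abs_of_nonneg hnn2]
        linarith
      · simp only [EE, hb, if_false]
        rw [abs_neg, abs_of_nonneg hnn, zero_add]
    calc ∑ b' : σ, |EE p i (some b) (some b')|
        ≤ ∑ b' : σ, ((if b = b' then 1 / ((p i : ℝ) - 1) else 0) + 1 / ((p i : ℝ) - 1) ^ 2) :=
          Finset.sum_le_sum fun b' _ => h1 b'
      _ = 1 / ((p i : ℝ) - 1) * (1 + (Fintype.card σ : ℝ) / ((p i : ℝ) - 1)) := by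
          rw [Finset.sum_add_distrib, Finset.sum_ite_eq, if_pos (Finset.mem_univ _),
            Finset.sum_const, Finset.card_univ, nsmul_eq_mul]
          field_simp

end OFF_

/-- OFF. -/
theorem p_OFF : T_OFF := by
  intro ι σ _ _ _ _ p hp ψ
  have h1 : ∑ ψ' : ι → Option σ, ∏ i, |EE p i (ψ i) (ψ' i)| =
      ∏ i, ∑ o' : Option σ, |EE p i (ψ i) o'| := by
    rw [Finset.prod_univ_sum, Fintype.piFinset_univ]
  rw [h1]
  calc ∏ i, ∑ o' : Option σ, |EE p i (ψ i) o'|
      ≤ ∏ i, (if ψ i ≠ none then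
          1 / ((p i : ℝ) - 1) * (1 + (Fintype.card σ : ℝ) / ((p i : ℝ) - 1)) else 1) := by
        apply Finset.prod_le_prod
        · intro i _
          exact Finset.sum_nonneg fun _ _ => abs_nonneg _
        · intro i _
          exact OFF_.row p i (hp i) (ψ i)
    _ = mm p (spp ψ) * ∏ i ∈ spp ψ, (1 + (Fintype.card σ : ℝ) / ((p i : ℝ) - 1)) := by
        rw [mm, ← Finset.prod_mul_distrib, spp, Finset.prod_filter]

end Pool.Agent.ACQ
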