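import Pool.Agent.ACQ.Targets

set_option autoImplicit false

open Finset

namespace Pool.Agent.ACQ

theorem PAIR_.prod_spp {ι σ : Type} [Fintype ι] [DecidableEq ι] [Fintype σ] [DecidableEq σ]
    (ψ : ι → Option σ) (f : ι → ℝ) :
    ∏ i, (if ψ i = none then 1 else f i) = ∏ i ∈ spp ψ, f i := by
  unfold spp
  rw [Finset.prod_filter]
  refine Finset.prod_congr rfl (fun i _ => ?_)
  by_cases h : ψ i = none
  · rw [if_pos h, if_neg (not_not.2 h)]
  · rw [if_neg h, if_pos h]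

theorem p_PAIR (h_LOC : T_LOC) (h_EQD : T_EQD) : T_PAIR := by
  intro ι σ _ _ _ _ p s N W w z hG ψ ψ'
  have h1 := fun i => h_LOC ι σ p s W z hG i (ψ i) (ψ' i)
  choose α β hpt hmean habs using h1
  have hcop : ∀ i j, i ≠ j → (p i).Coprime (p j) := fun i j hij =>
    (Nat.coprime_primes (hG.pr i) (hG.pr j)).2 (fun h => hij (hG.inj h))
  have h2 := h_EQD ι σ p s N W w α β (lt_of_lt_of_le one_pos hG.W1)
    (fun i => (hG.pr i).pos) hG.cop hcop
  have h3 : ∀ n : ℕ, (∏ i, chi p s i (ψ i) n) * ∏ i, chi p s i (ψ' i) n =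
      ∏ i, (α i + ∑ b, β i b * (if n ≡ s b [MOD p i] then 1 else 0)) := by
    intro n
    rw [← Finset.prod_mul_distrib]
    exact Finset.prod_congr rfl (fun i _ => hpt i n)
  have h4 : ∏ i, (α i + ∑ b, β i b / (p i : ℝ)) = ∏ i, EE p i (ψ i) (ψ' i) :=
    Finset.prod_congr rfl (fun i _ => hmean i)
  rw [Finset.sum_congr rfl (fun n _ => h3 n), ← h4]
  refine h2.trans ?_
  rw [← PAIR_.prod_spp ψ (fun i => ((p i : ℝ) + 1) / ((p i : ℝ) - 1)),
    ← PAIR_.prod_spp ψ' (fun i => ((p i : ℝ) + 1) / ((p i : ℝ) - 1)),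
    ← Finset.prod_mul_distrib]
  exact Finset.prod_le_prod
    (fun i _ => add_nonneg (abs_nonneg _) (Finset.sum_nonneg (fun b _ => abs_nonneg _)))
    (fun i _ => habs i)

end Pool.Agent.ACQ
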