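import Pool.Agent.ACQ.Targets

set_option autoImplicit false

/-!
# ACQ: T_PS1, formula for Psi
-/

open Finset

namespace Pool.Agent.ACQ

namespace PS1_

lemma vv_empty {ι : Type} [DecidableEq ι] (y : Finset ι → ℝ) : vv y ∅ = 1 := by
  simp [vv]

lemma vv_eq {ι : Type} [DecidableEq ι] (y : Finset ι → ℝ) (hy : y ∅ = 0) (D : Finset ι) :
    vv y D = (if D = ∅ then 1 else 0) - y D := by
  unfold vv
  split_ifs with h
  · rw [h, hy]
    ring
  · ring

end PS1_

open PS1_ in
theorem p_PS1 (h_UPD : T_UPD) : T_PS1 := by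
  intro ι σ _ _ _ _ p N T y a ψ hy hcls
  have hterm : ∀ D ∈ (spp ψ)ᶜ.powerset, YY p N T y (upd ψ D a) * mm p D =
      (∏ b, vv y (cls ψ b)) * ((if D = ∅ then gg T (tt p N (spp ψ)) else 0) -
        gg T (tt p N (spp ψ) + tt p N D) * (y D * mm p D)) := by
    intro D hD
    obtain ⟨-, -, -, -, -, -, -, h8, -, h10⟩ :=
      h_UPD ι σ p (fun _ => 0) N a ψ D hcls (Finset.mem_powerset.1 hD)
    unfold YY
    rw [h8, h10 (vv y) (vv_empty y), vv_eq y hy D]
    by_cases hD0 : D = ∅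
    · subst hD0
      have e1 : mm p (∅ : Finset ι) = 1 := by simp [mm]
      have e2 : tt p N (∅ : Finset ι) = 0 := by simp [tt]
      rw [if_pos rfl, if_pos rfl, e1, e2, hy, add_zero]
      ring
    · rw [if_neg hD0, if_neg hD0]
      ring
  unfold Psi
  rw [if_pos hcls, Finset.sum_congr rfl hterm, ← Finset.mul_sum, Finset.sum_sub_distrib,
    Finset.sum_ite_eq' (spp ψ)ᶜ.powerset (∅ : Finset ι) (fun _ => gg T (tt p N (spp ψ))),
    if_pos (Finset.empty_mem_powerset _)]

end Pool.Agent.ACQ
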