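import Pool.Agent.ACQ.Targets

set_option autoImplicit false

/-!
# ACQ, PS2: bound for the bracket
-/

open Finset

namespace Pool.Agent.ACQ

namespace PS2_

theorem gg_nonneg (T x : ℝ) : 0 ≤ gg T x := le_max_left _ _

theorem gg_le_one {T x : ℝ} (hT : 0 < T) (hx : 0 ≤ x) : gg T x ≤ 1 := by
  unfold gg
  have : 0 ≤ x / T := div_nonneg hx hT.le
  exact max_le (by norm_num) (by linarith)

theorem gg_anti {T x s : ℝ} (hT : 0 < T) (hs : 0 ≤ s) : gg T (x + s) ≤ gg T x := by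
  unfold gg
  have : x / T ≤ (x + s) / T := div_le_div_of_nonneg_right (by linarith) hT.le
  exact max_le_max le_rfl (by linarith)

theorem gg_lip {T x s : ℝ} (hT : 0 < T) (hs : 0 ≤ s) : gg T x - gg T (x + s) ≤ s / T := by
  unfold gg
  have h0 : 0 ≤ s / T := div_nonneg hs hT.le
  have h1 : (x + s) / T = x / T + s / T := add_div _ _ _
  rw [h1]
  rcases le_total 0 (1 - x / T) with h | h
  · rw [max_eq_right h]
    have := le_max_right 0 (1 - (x / T + s / T))
    linarith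
  · rw [max_eq_left h]
    have := le_max_left 0 (1 - (x / T + s / T))
    linarith

theorem mm_nonneg {ι : Type} (p : ι → ℕ) (hp : ∀ i, 2 ≤ p i) (D : Finset ι) : 0 ≤ mm p D := by
  unfold mm
  apply Finset.prod_nonneg
  intro i _
  have : (2 : ℝ) ≤ (p i : ℝ) := by exact_mod_cast hp i
  exact div_nonneg (by norm_num) (by linarith)

theorem tt_nonneg {ι : Type} (p : ι → ℕ) (N : ℕ) (D : Finset ι) :
    0 ≤ tt p N D := by
  unfold tt
  apply div_nonneg
  · exact Finset.sum_nonneg fun i _ => Real.log_natCast_nonneg _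
  · exact Real.log_natCast_nonneg _

end PS2_

/-- PS2: bound for the bracket. -/
theorem p_PS2 : T_PS2 := by
  intro ι _ _ p N T t y e2 e3 e4 E hp _ hW hT ht
  set a : Finset ι → ℝ := fun D => y D * mm p D with ha
  have ha0 : ∀ D, 0 ≤ a D := fun D => mul_nonneg (hW.nn D) (PS2_.mm_nonneg p hp D)
  have htt : ∀ D, 0 ≤ tt p N D := PS2_.tt_nonneg p N
  set P : Finset (Finset ι) := Eᶜ.powerset with hP
  have hsplit : gg T t - ∑ D ∈ P, gg T (t + tt p N D) * a D =
      ∑ D ∈ P, (gg T t - gg T (t + tt p N D)) * a D + gg T t * ∑ D ∈ Pᶜ, a D := by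
    have h1 : ∑ D ∈ P, a D + ∑ D ∈ Pᶜ, a D = 1 := by
      rw [Finset.sum_add_sum_compl]
      exact hW.Y1
    have h2 : gg T t = gg T t * (∑ D ∈ P, a D + ∑ D ∈ Pᶜ, a D) := by rw [h1, mul_one]
    have h3 : ∑ D ∈ P, (gg T t - gg T (t + tt p N D)) * a D =
        gg T t * ∑ D ∈ P, a D - ∑ D ∈ P, gg T (t + tt p N D) * a D := by
      rw [Finset.mul_sum, ← Finset.sum_sub_distrib]
      exact Finset.sum_congr rfl fun D _ => by ring
    rw [h3]
    linear_combination h2
  have hf0 : 0 ≤ ∑ D ∈ P, (gg T t - gg T (t + tt p N D)) * a D :=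
    Finset.sum_nonneg fun D _ =>
      mul_nonneg (sub_nonneg.2 (PS2_.gg_anti hT (htt D))) (ha0 D)
  have hf1 : ∑ D ∈ P, (gg T t - gg T (t + tt p N D)) * a D ≤ e2 / T := by
    have h1 : ∑ D ∈ P, (gg T t - gg T (t + tt p N D)) * a D ≤
        ∑ D ∈ P, (a D * tt p N D) / T := by
      apply Finset.sum_le_sum
      intro D _
      have := mul_le_mul_of_nonneg_right (PS2_.gg_lip (x := t) hT (htt D)) (ha0 D)
      calc (gg T t - gg T (t + tt p N D)) * a D ≤ tt p N D / T * a D := this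
        _ = (a D * tt p N D) / T := by ring
    have h2 : ∑ D ∈ P, (a D * tt p N D) / T ≤ ∑ D, (a D * tt p N D) / T :=
      Finset.sum_le_sum_of_subset_of_nonneg (Finset.subset_univ _) fun D _ _ =>
        div_nonneg (mul_nonneg (ha0 D) (htt D)) hT.le
    have h3 : ∑ D, (a D * tt p N D) / T ≤ e2 / T := by
      rw [← Finset.sum_div]
      exact div_le_div_of_nonneg_right hW.Y2 hT.le
    linarith
  have hs0 : 0 ≤ ∑ D ∈ Pᶜ, a D := Finset.sum_nonneg fun D _ => ha0 D
  have hs1 : ∑ D ∈ Pᶜ, a D ≤ E.card * e4 := by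
    have h1 : ∑ D ∈ Pᶜ, a D ≤ ∑ D ∈ Pᶜ, ∑ i ∈ E, if i ∈ D then a D else 0 := by
      apply Finset.sum_le_sum
      intro D hD
      have h2 : ∃ i ∈ E, i ∈ D := by
        by_contra h
        push Not at h
        rw [Finset.mem_compl, hP, Finset.mem_powerset] at hD
        apply hD
        intro i hi
        rw [Finset.mem_compl]
        exact fun hE => h i hE hi
      obtain ⟨i, hi, hiD⟩ := h2
      have h3 : (if i ∈ D then a D else 0) ≤ ∑ i ∈ E, if i ∈ D then a D else 0 :=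
        Finset.single_le_sum (f := fun i => if i ∈ D then a D else 0)
          (fun j _ => by split_ifs; exacts [ha0 D, le_rfl]) hi
      rwa [if_pos hiD] at h3
    have h2 : ∑ D ∈ Pᶜ, (∑ i ∈ E, if i ∈ D then a D else 0) ≤
        ∑ D, ∑ i ∈ E, if i ∈ D then a D else 0 :=
      Finset.sum_le_sum_of_subset_of_nonneg (Finset.subset_univ _) fun D _ _ =>
        Finset.sum_nonneg fun j _ => by split_ifs; exacts [ha0 D, le_rfl]
    have h3 : ∑ D, (∑ i ∈ E, if i ∈ D then a D else 0) =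
        ∑ i ∈ E, ∑ D ∈ (univ : Finset (Finset ι)).filter (fun D => i ∈ D), a D := by
      rw [Finset.sum_comm]
      exact Finset.sum_congr rfl fun i _ => by rw [Finset.sum_filter]
    have h4 : ∑ i ∈ E, ∑ D ∈ (univ : Finset (Finset ι)).filter (fun D => i ∈ D), a D ≤
        ∑ _i ∈ E, e4 := Finset.sum_le_sum fun i _ => hW.Y4 i
    rw [Finset.sum_const, nsmul_eq_mul] at h4
    linarith
  have hg0 := PS2_.gg_nonneg T t
  have hg1 := PS2_.gg_le_one hT ht
  have hm0 : 0 ≤ gg T t * ∑ D ∈ Pᶜ, a D := mul_nonneg hg0 hs0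
  have hm1 : gg T t * ∑ D ∈ Pᶜ, a D ≤ ∑ D ∈ Pᶜ, a D := by
    calc gg T t * ∑ D ∈ Pᶜ, a D ≤ 1 * ∑ D ∈ Pᶜ, a D := mul_le_mul_of_nonneg_right hg1 hs0
      _ = ∑ D ∈ Pᶜ, a D := one_mul _
  show |gg T t - ∑ D ∈ P, gg T (t + tt p N D) * a D| ≤ e2 / T + E.card * e4
  rw [hsplit, abs_of_nonneg (add_nonneg hf0 hm0)]
  linarith

end Pool.Agent.ACQ
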