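import Pool.Agent.ACQ.Targets

/-!
# ACQ: target PSB
-/

set_option autoImplicit false

open Finset

namespace Pool.Agent.ACQ

theorem PSB_.tt_nonneg {ι : Type} (p : ι → ℕ) (N : ℕ) (D : Finset ι) : 0 ≤ tt p N D := by
  unfold tt
  exact div_nonneg (sum_nonneg fun i _ => Real.log_natCast_nonneg _) (Real.log_natCast_nonneg _)

theorem PSB_.gg_zero {T x : ℝ} (hT : 0 < T) (h : T ≤ x) : gg T x = 0 := by
  unfold gg
  refine max_eq_left ?_
  have : 1 ≤ x / T := by
    rw [le_div_iff₀ hT, one_mul]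
    exact h
  linarith

/-- Target PSB. -/
theorem p_PSB (h_PS1 : T_PS1) (h_PS2 : T_PS2) : T_PSB := by
  intro ι σ _ _ _ _ p N T y e2 e3 e4 a ψ hp hN hW hT
  have ht := PSB_.tt_nonneg p N (spp ψ)
  have h2 := h_PS2 ι p N T (tt p N (spp ψ)) y e2 e3 e4 (spp ψ) hp hN hW hT ht
  by_cases hc : cls ψ a = ∅
  · have h1 := h_PS1 ι σ p N T y a ψ hW.em hc
    constructor
    · rw [h1, abs_mul, abs_prod, mul_comm]
      exact mul_le_mul_of_nonneg_right h2 (prod_nonneg fun b _ => abs_nonneg _)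
    · intro hTt
      rw [h1, PSB_.gg_zero hT hTt, sum_eq_zero, sub_zero, mul_zero]
      intro D _
      have h3 := PSB_.tt_nonneg p N D
      rw [PSB_.gg_zero hT (by linarith), zero_mul]
  · have h1 : Psi p (YY p N T y) a ψ = 0 := by
      unfold Psi
      rw [if_neg hc]
    refine ⟨?_, fun _ => h1⟩
    rw [h1, abs_zero]
    exact mul_nonneg ((abs_nonneg _).trans h2) (prod_nonneg fun b _ => abs_nonneg _)

end Pool.Agent.ACQ
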