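import Pool.Agent.ACQ.Targets

set_option autoImplicit false

/-!
# ACQ: summing out a label (T_PSI)
-/

open Finset

namespace Pool.Agent.ACQ

theorem p_PSI (h_SPL : T_SPL) (h_UPD : T_UPD) : T_PSI := by
  intro ι σ _ _ _ _ p s Y a n hn
  have hchi : ∀ i, chi p s i (some a) n = 1 / ((p i : ℝ) - 1) := by
    intro i
    show (if n ≡ s a [MOD p i] then (-1 : ℝ) else 1 / ((p i : ℝ) - 1)) = 1 / ((p i : ℝ) - 1)
    rw [if_neg (hn i)]
  have h1 := h_SPL ι σ a fun φ => Y φ * ∏ i, chi p s i (φ i) n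
  have h2 : VV p s Y n = ∑ φ, Y φ * ∏ i, chi p s i (φ i) n := rfl
  have h3 : VV p s (Psi p Y a) n =
      ∑ ψ ∈ (univ : Finset (ι → Option σ)).filter (fun ψ => cls ψ a = ∅),
        Psi p Y a ψ * ∏ i, chi p s i (ψ i) n := by
    unfold VV
    symm
    apply Finset.sum_subset (Finset.filter_subset _ _)
    intro ψ _ hψ
    have hψ' : ¬ cls ψ a = ∅ := fun h => hψ (Finset.mem_filter.2 ⟨Finset.mem_univ _, h⟩)
    have h4 : Psi p Y a ψ = 0 := by
      unfold Psi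
      rw [if_neg hψ']
    rw [h4, zero_mul]
  rw [h2, h1, h3]
  apply Finset.sum_congr rfl
  intro ψ hψ
  have hψ' : cls ψ a = ∅ := (Finset.mem_filter.1 hψ).2
  have h4 : Psi p Y a ψ = ∑ D ∈ (spp ψ)ᶜ.powerset, Y (upd ψ D a) * mm p D := by
    unfold Psi
    rw [if_pos hψ']
  rw [h4, Finset.sum_mul]
  apply Finset.sum_congr rfl
  intro D hD
  have hD' : D ⊆ (spp ψ)ᶜ := Finset.mem_powerset.1 hD
  obtain ⟨-, -, -, -, -, -, -, -, h9, -⟩ := h_UPD ι σ p s 0 a ψ D hψ' hD'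
  have h5 : ∏ i ∈ D, chi p s i (some a) n = mm p D := by
    unfold mm
    exact Finset.prod_congr rfl fun i _ => hchi i
  rw [h9 n, h5]
  ring

end Pool.Agent.ACQ
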