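import Pool.Agent.ACQ.Targets

set_option autoImplicit false

/-!
# ACQ, target QF: the quadratic forms of YY and Psi
-/

open Finset

namespace Pool.Agent.ACQ

namespace QF_

section

variable {ι σ : Type} [Fintype ι] [DecidableEq ι] [Fintype σ] [DecidableEq σ]

theorem mm_nonneg {p : ι → ℕ} (hp : ∀ i, 2 ≤ p i) (D : Finset ι) : 0 ≤ mm p D := by
  unfold mm
  refine Finset.prod_nonneg fun i _ => ?_
  have h : (2 : ℝ) ≤ p i := by exact_mod_cast hp i
  exact div_nonneg zero_le_one (by linarith)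

theorem logN_pos {N : ℕ} (hN : 2 ≤ N) : 0 < Real.log N :=
  Real.log_pos (by exact_mod_cast (by omega : 1 < N))

theorem tt_nonneg {p : ι → ℕ} {N : ℕ} (hp : ∀ i, 2 ≤ p i) (hN : 2 ≤ N) (D : Finset ι) :
    0 ≤ tt p N D := by
  unfold tt
  refine div_nonneg (Finset.sum_nonneg fun i _ => ?_) (logN_pos hN).le
  exact Real.log_nonneg (by exact_mod_cast (by have := hp i; omega : 1 ≤ p i))

/-- Few labelled primes. -/
theorem card_le {p : ι → ℕ} {N : ℕ} (hp : ∀ i, 2 ≤ p i) (hN : 2 ≤ N) {D : Finset ι}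
    (h : tt p N D ≤ 1) : (D.card : ℝ) ≤ 2 * Real.log N := by
  have hL := logN_pos hN
  unfold tt at h
  rw [div_le_one hL] at h
  have h1 : (D.card : ℝ) * (1 / 2) ≤ ∑ i ∈ D, Real.log (p i) := by
    rw [← nsmul_eq_mul, ← Finset.sum_const]
    refine Finset.sum_le_sum fun i _ => ?_
    have h2 : Real.log 2 ≤ Real.log (p i) :=
      Real.log_le_log (by norm_num) (by exact_mod_cast hp i)
    have := Real.log_two_gt_d9
    linarith
  linarith

theorem e4_nonneg {p : ι → ℕ} {N : ℕ} {y : Finset ι → ℝ} {e2 e3 e4 : ℝ} (hp : ∀ i, 2 ≤ p i)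
    (hW : Wt p N y e2 e3 e4) (i : ι) : 0 ≤ e4 :=
  (Finset.sum_nonneg fun D _ => mul_nonneg (hW.nn D) (mm_nonneg hp D)).trans (hW.Y4 i)

theorem e2_nonneg {p : ι → ℕ} {N : ℕ} {y : Finset ι → ℝ} {e2 e3 e4 : ℝ} (hp : ∀ i, 2 ≤ p i)
    (hN : 2 ≤ N) (hW : Wt p N y e2 e3 e4) : 0 ≤ e2 :=
  (Finset.sum_nonneg fun D _ => mul_nonneg (mul_nonneg (hW.nn D) (mm_nonneg hp D))
    (tt_nonneg hp hN D)).trans hW.Y2

end

end QF_

open QF_ in
theorem p_QF (h_PSB : T_PSB) : T_QF := by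
  intro ι σ _ _ _ _ p N T y e2 e3 e4 δ a hp hN hW hT hT1 hd1 hd2
  have he2 := e2_nonneg hp hN hW
  have hδ : 0 ≤ δ := (div_nonneg he2 hT.le).trans hd1
  have hL := logN_pos hN
  have hB : ∀ ψ : ι → Option σ,
      |Psi p (YY p N T y) a ψ| ≤ δ * ∏ b, |vv y (cls ψ b)| := by
    intro ψ
    obtain ⟨h1, h2⟩ := h_PSB ι σ p N T y e2 e3 e4 a ψ hp hN hW hT
    have hP : 0 ≤ ∏ b, |vv y (cls ψ b)| := Finset.prod_nonneg fun b _ => abs_nonneg _
    rcases le_or_gt T (tt p N (spp ψ)) with h | h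
    · rw [h2 h, abs_zero]
      exact mul_nonneg hδ hP
    · refine h1.trans (mul_le_mul_of_nonneg_right ?_ hP)
      rcases Finset.eq_empty_or_nonempty (spp ψ) with he | ⟨i, hi⟩
      · rw [he, Finset.card_empty]
        simpa using hd1
      · have h4 := e4_nonneg hp hW i
        have hc := card_le hp hN (h.le.trans hT1)
        have := mul_le_mul_of_nonneg_right hc h4
        linarith
  refine ⟨?_, ?_, hB⟩
  · unfold ZZ
    rw [Finset.mul_sum]
    refine le_trans ?_ (Finset.sum_le_univ_sum_of_nonneg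
      (s := (univ : Finset (ι → Option σ)).filter (fun ψ => tt p N (spp ψ) ≤ T / 2))
      fun ψ => mul_nonneg (sq_nonneg _) (mm_nonneg hp _))
    refine Finset.sum_le_sum fun ψ hψ => ?_
    have ht : tt p N (spp ψ) ≤ T / 2 := (Finset.mem_filter.mp hψ).2
    rw [← mul_assoc]
    refine mul_le_mul_of_nonneg_right ?_ (mm_nonneg hp _)
    unfold YY
    rw [mul_pow, ← Finset.prod_pow]
    refine mul_le_mul_of_nonneg_right ?_ (Finset.prod_nonneg fun b _ => sq_nonneg _)
    have hg : 1 / 2 ≤ gg T (tt p N (spp ψ)) := by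
      unfold gg
      refine le_trans ?_ (le_max_right _ _)
      have : tt p N (spp ψ) / T ≤ 1 / 2 := by
        rw [div_le_iff₀ hT]
        linarith
      linarith
    nlinarith
  · unfold ZZ
    rw [Finset.mul_sum]
    have hz : ∀ ψ : ι → Option σ, ψ ∉ (univ : Finset (ι → Option σ)).filter
        (fun ψ => tt p N (spp ψ) ≤ T) →
        Psi p (YY p N T y) a ψ ^ 2 * mm p (spp ψ) = 0 := by
      intro ψ hψ
      have h : T ≤ tt p N (spp ψ) := by
        by_contra hc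
        exact hψ (Finset.mem_filter.mpr ⟨Finset.mem_univ _, (not_le.mp hc).le⟩)
      rw [(h_PSB ι σ p N T y e2 e3 e4 a ψ hp hN hW hT).2 h]
      simp
    rw [← Finset.sum_subset (Finset.subset_univ ((univ : Finset (ι → Option σ)).filter
        (fun ψ => tt p N (spp ψ) ≤ T))) fun ψ _ h => hz ψ h]
    refine Finset.sum_le_sum fun ψ _ => ?_
    rw [← mul_assoc]
    refine mul_le_mul_of_nonneg_right ?_ (mm_nonneg hp _)
    have h := hB ψ
    have h2 : Psi p (YY p N T y) a ψ ^ 2 ≤ (δ * ∏ b, |vv y (cls ψ b)|) ^ 2 := by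
      rw [← sq_abs (Psi p (YY p N T y) a ψ)]
      exact pow_le_pow_left₀ (abs_nonneg _) h 2
    rw [mul_pow, ← Finset.prod_pow] at h2
    simpa only [sq_abs] using h2

end Pool.Agent.ACQ
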