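import Pool.Agent.ACQ.Targets

set_option autoImplicit false

/-!
# ACQ, target SL1
-/

open Finset

namespace Pool.Agent.ACQ

namespace SL1_

variable {ι : Type} [Fintype ι] [DecidableEq ι]

/-- The indices of the primes which divide `m`. -/
def Dm (p : ι → ℕ) (m : ℕ) : Finset ι := univ.filter fun i => p i ∣ m

theorem image_Dm (p : ι → ℕ) (z X x : ℕ) (B : Finset ℕ) (hR : Rng p z X B) (hx : x ≤ X)
    (m : ℕ) (h1 : 1 ≤ m) (hmx : m ≤ x) (hc : m.Coprime (MB z B)) :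
    (Dm p m).image p = m.primeFactors := by
  ext q
  rw [mem_image, Nat.mem_primeFactors]
  constructor
  · rintro ⟨i, hi, rfl⟩
    unfold Dm at hi
    rw [mem_filter] at hi
    exact ⟨((hR.2 (p i)).mp ⟨i, rfl⟩).1, hi.2, by omega⟩
  · rintro ⟨hq, hqm, _⟩
    have hqM : ¬ q ∣ MB z B := by
      intro h
      have h2 : q ∣ 1 := by
        have := Nat.dvd_gcd hqm h
        rwa [hc] at this
      exact hq.one_lt.ne' (Nat.dvd_one.mp h2)
    have hz : z < q := by
      by_contra hz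
      apply hqM
      unfold MB
      apply Dvd.dvd.mul_right
      apply dvd_prod_of_mem (fun q => q)
      unfold ACP.pr
      rw [mem_filter, mem_Icc]
      exact ⟨⟨hq.one_lt.le, by omega⟩, hq⟩
    have hB : q ∉ B := by
      intro hB
      apply hqM
      unfold MB
      apply Dvd.dvd.mul_left
      apply dvd_prod_of_mem (fun q => q)
      rw [mem_filter]
      exact ⟨hB, hq, hz⟩
    have hqX : q ≤ X := le_trans (Nat.le_of_dvd (by omega) hqm) (le_trans hmx hx)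
    obtain ⟨i, hi⟩ := (hR.2 q).mpr ⟨hq, hz, hqX, hB⟩
    refine ⟨i, ?_, hi⟩
    unfold Dm
    rw [mem_filter, hi]
    exact ⟨mem_univ _, hqm⟩

theorem pd_Dm (p : ι → ℕ) (z X x : ℕ) (B : Finset ℕ) (hR : Rng p z X B) (hx : x ≤ X)
    (m : ℕ) (h1 : 1 ≤ m) (hmx : m ≤ x) (hc : m.Coprime (MB z B)) (hs : Squarefree m) :
    pd p (Dm p m) = m := by
  have h := image_Dm p z X x B hR hx m h1 hmx hc
  have h2 := Nat.prod_primeFactors_of_squarefree hs
  rw [← h, prod_image (fun i _ j _ hij => hR.1 hij)] at h2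
  exact h2

theorem mm_Dm (p : ι → ℕ) (z X x : ℕ) (B : Finset ℕ) (hR : Rng p z X B) (hx : x ≤ X)
    (m : ℕ) (h1 : 1 ≤ m) (hmx : m ≤ x) (hc : m.Coprime (MB z B)) (hs : Squarefree m) :
    1 / (Nat.totient m : ℝ) = mm p (Dm p m) := by
  have h := image_Dm p z X x B hR hx m h1 hmx hc
  have h2 := Nat.prod_primeFactors_of_squarefree hs
  have h3 := Nat.totient_mul_prod_primeFactors m
  rw [h2] at h3
  have h4 : Nat.totient m = ∏ q ∈ m.primeFactors, (q - 1) := by
    have h5 : m * Nat.totient m = m * ∏ q ∈ m.primeFactors, (q - 1) := by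
      rw [← h3, mul_comm]
    exact Nat.eq_of_mul_eq_mul_left (by omega) h5
  rw [← h, prod_image (fun i _ j _ hij => hR.1 hij)] at h4
  rw [h4]
  unfold mm
  rw [prod_div_distrib, prod_const_one]
  push_cast
  congr 1
  apply prod_congr rfl
  intro i _
  have : 1 ≤ p i := ((hR.2 (p i)).mp ⟨i, rfl⟩).1.one_lt.le
  push_cast [this]
  rfl

end SL1_

open SL1_

theorem p_SL1 : T_SL1 := by
  intro ι _ _ p z X x B hR hz hx
  have hpos : ∀ D : Finset ι, 0 ≤ mm p D := by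
    intro D
    unfold mm
    apply prod_nonneg
    intro i _
    have h1 : 2 ≤ p i := ((hR.2 (p i)).mp ⟨i, rfl⟩).1.two_le
    have h2 : (2 : ℝ) ≤ (p i : ℝ) := by exact_mod_cast h1
    have h3 : 0 < (p i : ℝ) - 1 := by linarith
    positivity
  classical
  obtain ⟨A, hA⟩ : ∃ A : Finset ℕ,
      A = ((Icc 1 x).filter (fun m => m.Coprime (MB z B))).filter (fun m => Squarefree m) :=
    ⟨_, rfl⟩
  have hmem : ∀ m ∈ A, 1 ≤ m ∧ m ≤ x ∧ m.Coprime (MB z B) ∧ Squarefree m := by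
    intro m hm
    rw [hA, mem_filter, mem_filter, mem_Icc] at hm
    exact ⟨hm.1.1.1, hm.1.1.2, hm.1.2, hm.2⟩
  have h1 : ACP.LQ (MB z B) x = ∑ m ∈ A, 1 / (Nat.totient m : ℝ) := by
    unfold ACP.LQ ACP.f2
    rw [hA, sum_filter (fun m => Squarefree m)]
  have h2 : ∑ m ∈ A, 1 / (Nat.totient m : ℝ) = ∑ m ∈ A, mm p (Dm p m) := by
    apply sum_congr rfl
    intro m hm
    obtain ⟨a1, a2, a3, a4⟩ := hmem m hm
    exact mm_Dm p z X x B hR hx m a1 a2 a3 a4
  have h3 : ∑ m ∈ A, mm p (Dm p m) = ∑ D ∈ A.image (Dm p), mm p D := by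
    rw [sum_image]
    intro m hm m' hm' hmm
    obtain ⟨a1, a2, a3, a4⟩ := hmem m hm
    obtain ⟨b1, b2, b3, b4⟩ := hmem m' hm'
    rw [← pd_Dm p z X x B hR hx m a1 a2 a3 a4, ← pd_Dm p z X x B hR hx m' b1 b2 b3 b4]
    exact congrArg (pd p) hmm
  rw [h1, h2, h3]
  unfold Sg
  apply sum_le_sum_of_subset_of_nonneg
  · intro D hD
    rw [mem_image] at hD
    obtain ⟨m, hm, rfl⟩ := hD
    obtain ⟨a1, a2, a3, a4⟩ := hmem m hm
    rw [mem_filter, pd_Dm p z X x B hR hx m a1 a2 a3 a4]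
    exact ⟨mem_univ _, a2⟩
  · intro D _ _
    exact hpos D

end Pool.Agent.ACQ
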