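import Pool.Agent.ACQ.Targets
import Pool.Agent.ACP.Targets

set_option autoImplicit false

/-!
# ACQ, target SLO
-/

open Finset

namespace Pool.Agent.ACQ

namespace SLO_

theorem MB_pos (z : ℕ) (B : Finset ℕ) : 1 ≤ MB z B := by
  have h1 : 0 < ∏ q ∈ ACP.pr z, q := by
    apply prod_pos
    intro q hq
    unfold ACP.pr at hq
    rw [mem_filter] at hq
    exact hq.2.pos
  have h2 : 0 < ∏ q ∈ B.filter (fun q => q.Prime ∧ z < q), q := by
    apply prod_pos
    intro q hq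
    rw [mem_filter] at hq
    exact hq.2.1.pos
  exact Nat.mul_pos h1 h2

end SLO_

open SLO_

theorem p_SLO (h_SL1 : T_SL1) (h_SL2 : T_SL2) (h_LS : ACP.T_LS) (h_LQ : ACP.T_LQ) :
    T_SLO := by
  intro ι _ _ p z X x B hR hz hB hx1 hxX
  have a1 := h_SL1 ι p z X x B hR hz hxX
  have a2 := h_SL2 z B hz hB
  have a3 := h_LS x hx1
  have hM := MB_pos z B
  have a4 := h_LQ (MB z B) x hM
  have hM' : (0 : ℝ) < (MB z B : ℝ) := by exact_mod_cast hM
  have hφ : (0 : ℝ) < (Nat.totient (MB z B) : ℝ) := by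
    exact_mod_cast Nat.totient_pos.mpr hM
  have hlog : 0 ≤ Real.log x := Real.log_nonneg (by exact_mod_cast hx1)
  have h5 : Real.log x ≤ (MB z B : ℝ) / (Nat.totient (MB z B) : ℝ) * ACP.LQ (MB z B) x :=
    le_trans a3 a4
  calc ACP.V z * Real.log x / 2 = (ACP.V z / 2) * Real.log x := by ring
    _ ≤ ((Nat.totient (MB z B) : ℝ) / (MB z B : ℝ)) * Real.log x :=
        mul_le_mul_of_nonneg_right a2 hlog
    _ ≤ ((Nat.totient (MB z B) : ℝ) / (MB z B : ℝ)) *
        ((MB z B : ℝ) / (Nat.totient (MB z B) : ℝ) * ACP.LQ (MB z B) x) := by gcongr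
    _ = ACP.LQ (MB z B) x := by field_simp
    _ ≤ Sg p x := a1

end Pool.Agent.ACQ
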