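import Pool.Agent.ACQ.Targets

set_option autoImplicit false

/-!
# ACQ, target SMALL
-/

open Finset

namespace Pool.Agent.ACQ

namespace SMALL_

theorem prod_bound {ι : Type} (f : ι → ℝ) (D : Finset ι) (c : ℝ) (hf : ∀ i ∈ D, 0 ≤ f i)
    (hc : ∀ i ∈ D, f i ≤ 1 + c) : ∏ i ∈ D, f i ≤ Real.exp (c * D.card) := by
  calc ∏ i ∈ D, f i ≤ ∏ _i ∈ D, Real.exp c := by
        apply prod_le_prod hf
        intro i hi
        have := Real.add_one_le_exp c
        linarith [hc i hi]
    _ = Real.exp (c * D.card) := by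
        rw [prod_const, ← Real.exp_nat_mul, mul_comm]

theorem exp_tenth (x : ℝ) (hx : x ≤ 1 / 10) : Real.exp x ≤ 5 / 4 := by
  have h1 : Real.exp x ≤ Real.exp (1 / 10) := Real.exp_le_exp.mpr hx
  have h2 : Real.exp (1 / 10) ≤ 5 / 4 := by
    have h3 := Real.add_one_le_exp (-(1 / 10 : ℝ))
    have h4 : Real.exp (-(1 / 10 : ℝ)) * Real.exp (1 / 10) = 1 := by
      rw [← Real.exp_add]
      norm_num
    have h5 : 0 < Real.exp (1 / 10 : ℝ) := Real.exp_pos _
    nlinarith
  linarith

end SMALL_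

open SMALL_

theorem p_SMALL : T_SMALL := by
  intro ι _ _ p z N m D hp hz hN hzN hpd
  have hN' : (2 : ℝ) ≤ (N : ℝ) := by exact_mod_cast hN
  have hlog : 0 < Real.log N := Real.log_pos (by linarith)
  have hz' : (0 : ℝ) < (z : ℝ) := by
    have : (2 : ℝ) ≤ (z : ℝ) := by exact_mod_cast hz
    linarith
  have hpz : ∀ i, (z : ℝ) ≤ (p i : ℝ) - 1 := by
    intro i
    have h1 : z + 1 ≤ p i := hp i
    have h2 : (z : ℝ) + 1 ≤ (p i : ℝ) := by exact_mod_cast h1
    linarith
  have hcard : (D.card : ℝ) ≤ Real.log N := by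
    rw [Real.le_log_iff_exp_le (by linarith)]
    have h1 : (3 : ℝ) ^ D.card ≤ (N : ℝ) := by
      have h2 : 3 ^ D.card ≤ pd p D := by
        unfold pd
        rw [← prod_const]
        apply prod_le_prod'
        intro i _
        have := hp i
        omega
      exact_mod_cast le_trans h2 hpd
    have h3 : Real.exp (D.card : ℝ) = Real.exp 1 ^ D.card := by
      rw [← Real.exp_nat_mul, mul_one]
    rw [h3]
    refine le_trans ?_ h1
    apply pow_le_pow_left₀ (Real.exp_pos 1).le
    have := Real.exp_one_lt_d9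
    linarith
  have hm0 : (0 : ℝ) ≤ (m : ℝ) := Nat.cast_nonneg m
  refine ⟨?_, ?_, by linarith⟩
  · refine le_trans (prod_bound _ D ((m : ℝ) / z) ?_ ?_) (exp_tenth _ ?_)
    · intro i _
      have h1 := hpz i
      have h2 : 0 < (p i : ℝ) - 1 := by linarith
      positivity
    · intro i _
      have h1 := hpz i
      have h2 : (m : ℝ) / ((p i : ℝ) - 1) ≤ (m : ℝ) / z := by gcongr
      linarith
    · rw [div_mul_eq_mul_div, div_le_iff₀ hz']
      calc (m : ℝ) * D.card ≤ (m : ℝ) * Real.log N := by gcongr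
        _ ≤ 1 / 10 * z := by nlinarith
  · refine le_trans (prod_bound _ D ((2 : ℝ) / z) ?_ ?_) (le_trans (exp_tenth _ ?_)
      (by norm_num))
    · intro i _
      have h1 := hpz i
      have h2 : 0 < (p i : ℝ) - 1 := by linarith
      positivity
    · intro i _
      have h1 := hpz i
      have h2 : 0 < (p i : ℝ) - 1 := by linarith
      have h3 : (2 : ℝ) / ((p i : ℝ) - 1) ≤ (2 : ℝ) / z := by gcongr
      have h4 : ((p i : ℝ) + 1) / ((p i : ℝ) - 1) = 1 + (2 : ℝ) / ((p i : ℝ) - 1) := by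
        field_simp
        ring
      linarith
    · rw [div_mul_eq_mul_div, div_le_iff₀ hz']
      calc (2 : ℝ) * D.card ≤ (2 : ℝ) * Real.log N := by gcongr
        _ ≤ 1 / 10 * z := by nlinarith

end Pool.Agent.ACQ
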