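import Pool.Agent.ACQ.Targets

set_option autoImplicit false

/-!
# ACQ, SPL: splitting off the label `a`
-/

open Finset

namespace Pool.Agent.ACQ

namespace SPL_

variable {ι σ : Type} [Fintype ι] [DecidableEq ι] [Fintype σ] [DecidableEq σ]

theorem mem_cls {ψ : ι → Option σ} {a : σ} {i : ι} : i ∈ cls ψ a ↔ ψ i = some a := by
  unfold cls
  rw [Finset.mem_filter]
  exact ⟨fun h => h.2, fun h => ⟨Finset.mem_univ _, h⟩⟩

theorem mem_spp {ψ : ι → Option σ} {i : ι} : i ∈ spp ψ ↔ ψ i ≠ none := by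
  unfold spp
  rw [Finset.mem_filter]
  exact ⟨fun h => h.2, fun h => ⟨Finset.mem_univ _, h⟩⟩

theorem cls_era (a : σ) (φ : ι → Option σ) : cls (era φ a) a = ∅ := by
  apply Finset.eq_empty_of_forall_notMem
  intro i
  rw [mem_cls]
  unfold era
  split_ifs with h
  · simp
  · exact h

theorem sub_compl (a : σ) (φ : ι → Option σ) : cls φ a ⊆ (spp (era φ a))ᶜ := by
  intro i hi
  rw [mem_cls] at hi
  rw [Finset.mem_compl, mem_spp]
  intro h2
  apply h2
  unfold era
  rw [if_pos hi]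

theorem upd_era (a : σ) (φ : ι → Option σ) : upd (era φ a) (cls φ a) a = φ := by
  funext i
  unfold upd
  by_cases h : φ i = some a
  · rw [if_pos (mem_cls.mpr h), h]
  · rw [if_neg (fun h1 => h (mem_cls.mp h1))]
    unfold era
    rw [if_neg h]

theorem none_of {ψ : ι → Option σ} {D : Finset ι} (hD : D ⊆ (spp ψ)ᶜ) {i : ι} (hi : i ∈ D) :
    ψ i = none := by
  have h1 := hD hi
  rw [Finset.mem_compl, mem_spp, not_not] at h1
  exact h1

theorem era_upd {a : σ} {ψ : ι → Option σ} {D : Finset ι} (hψ : cls ψ a = ∅)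
    (hD : D ⊆ (spp ψ)ᶜ) : era (upd ψ D a) a = ψ := by
  funext i
  unfold era upd
  by_cases hi : i ∈ D
  · rw [if_pos hi, if_pos rfl, none_of hD hi]
  · rw [if_neg hi]
    have h1 : ¬ ψ i = some a := by
      intro h
      have h2 : i ∈ cls ψ a := mem_cls.mpr h
      rw [hψ] at h2
      exact absurd h2 (Finset.notMem_empty _)
    rw [if_neg h1]

theorem cls_upd {a : σ} {ψ : ι → Option σ} {D : Finset ι} (hψ : cls ψ a = ∅) :
    cls (upd ψ D a) a = D := by
  ext i
  rw [mem_cls]
  unfold upd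
  constructor
  · intro h
    by_contra hi
    rw [if_neg hi] at h
    have h2 : i ∈ cls ψ a := mem_cls.mpr h
    rw [hψ] at h2
    exact absurd h2 (Finset.notMem_empty _)
  · intro hi
    rw [if_pos hi]

end SPL_

open SPL_ in
theorem p_SPL : T_SPL := by
  intro ι σ _ _ _ _ a F
  rw [Finset.sum_sigma']
  refine Finset.sum_bij' (fun φ _ => (⟨era φ a, cls φ a⟩ : Sigma fun _ : ι → Option σ => Finset ι))
    (fun x _ => upd x.1 x.2 a) ?_ ?_ ?_ ?_ ?_
  · intro φ _
    rw [Finset.mem_sigma, Finset.mem_filter, Finset.mem_powerset]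
    exact ⟨⟨Finset.mem_univ _, cls_era a φ⟩, sub_compl a φ⟩
  · intro x _
    exact Finset.mem_univ _
  · intro φ _
    exact upd_era a φ
  · intro x hx
    rw [Finset.mem_sigma, Finset.mem_filter, Finset.mem_powerset] at hx
    obtain ⟨ψ, D⟩ := x
    have h1 := era_upd hx.1.2 hx.2
    have h2 := cls_upd (D := D) hx.1.2
    simp only at h1 h2 ⊢
    rw [h1, h2]
  · intro φ _
    rw [upd_era a φ]

end Pool.Agent.ACQ
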