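import Pool.Agent.ACQ.Targets

set_option autoImplicit false

/-!
# ACQ, target SUM: absolute sums
-/

open Finset

namespace Pool.Agent.ACQ

namespace SUM_

section

variable {ι σ : Type} [Fintype ι] [Fintype σ] [DecidableEq ι] [DecidableEq σ]

theorem pd_spp (p : ι → ℕ) (ψ : ι → Option σ) : pd p (spp ψ) = ∏ b, pd p (cls ψ b) := by
  unfold pd
  rw [← Finset.prod_biUnion]
  · apply Finset.prod_congr _ fun _ _ => rfl
    ext i
    simp only [spp, cls, Finset.mem_filter, Finset.mem_univ, true_and, Finset.mem_biUnion]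
    cases ψ i with
    | none => simp
    | some b => simp
  · intro b _ b' _ hbb
    rw [Function.onFun, Finset.disjoint_left]
    intro i hi hi'
    simp only [cls, Finset.mem_filter, Finset.mem_univ, true_and] at hi hi'
    rw [hi] at hi'
    exact hbb (Option.some.inj hi')

theorem cls_inj : Function.Injective (fun (ψ : ι → Option σ) (b : σ) => cls ψ b) := by
  intro ψ ψ' h
  funext i
  have h1 : ∀ b, ψ i = some b ↔ ψ' i = some b := by
    intro b
    have h2 := congrFun h b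
    have h3 : i ∈ cls ψ b ↔ i ∈ cls ψ' b := by
      simp only at h2
      rw [h2]
    simpa [cls] using h3
  cases hψ : ψ i with
  | none =>
    cases hψ' : ψ' i with
    | none => rfl
    | some b =>
      have := (h1 b).2 hψ'
      rw [hψ] at this
      exact absurd this (by simp)
  | some b => exact ((h1 b).1 hψ).symm

theorem pd_pos (p : ι → ℕ) (hp : ∀ i, 2 ≤ p i) (D : Finset ι) : (0 : ℝ) < (pd p D : ℝ) := by
  have : 0 < pd p D := Finset.prod_pos fun i _ => by have := hp i; omega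
  exact_mod_cast this

/-- `pd (spp ψ) ≤ N ^ T`. -/
theorem pd_le (p : ι → ℕ) (N : ℕ) (T : ℝ) (hp : ∀ i, 2 ≤ p i) (hN : 2 ≤ N) (D : Finset ι)
    (h : tt p N D ≤ T) : (pd p D : ℝ) ≤ (N : ℝ) ^ T := by
  have hN' : (2 : ℝ) ≤ (N : ℝ) := by exact_mod_cast hN
  have hl : 0 < Real.log N := Real.log_pos (by linarith)
  have hN0 : (0 : ℝ) < (N : ℝ) := by linarith
  unfold tt at h
  rw [div_le_iff₀ hl] at h
  have h1 : Real.log (pd p D : ℝ) = ∑ i ∈ D, Real.log (p i) := by
    unfold pd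
    rw [Nat.cast_prod, Real.log_prod]
    intro i _
    have : (2 : ℝ) ≤ (p i : ℝ) := by exact_mod_cast hp i
    linarith
  have h2 : Real.log (pd p D : ℝ) ≤ Real.log ((N : ℝ) ^ T) := by
    rw [h1, Real.log_rpow hN0]
    exact h
  exact (Real.log_le_log_iff (pd_pos p hp D) (Real.rpow_pos_of_pos hN0 T)).1 h2

/-- `∑_D |vv D| / pd D ≤ 2`. -/
theorem sum_h (p : ι → ℕ) (N : ℕ) (y : Finset ι → ℝ) (e2 e3 e4 : ℝ) (hp : ∀ i, 2 ≤ p i)
    (hW : Wt p N y e2 e3 e4) : ∑ D, |vv y D| / (pd p D : ℝ) ≤ 2 := by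
  have h1 : ∀ D : Finset ι, |vv y D| / (pd p D : ℝ) ≤
      (if D = ∅ then 1 else 0) + y D * mm p D := by
    intro D
    by_cases hD : D = ∅
    · subst hD
      simp [vv, pd, hW.em]
    · rw [if_neg hD, zero_add, vv, if_neg hD, abs_neg, abs_of_nonneg (hW.nn D), div_eq_mul_one_div]
      apply mul_le_mul_of_nonneg_left _ (hW.nn D)
      unfold mm pd
      rw [Nat.cast_prod, one_div, ← Finset.prod_inv_distrib]
      apply Finset.prod_le_prod
      · intro i _
        positivity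
      · intro i _
        have : (2 : ℝ) ≤ (p i : ℝ) := by exact_mod_cast hp i
        rw [← one_div]
        apply one_div_le_one_div_of_le
        · linarith
        · linarith
  calc ∑ D, |vv y D| / (pd p D : ℝ)
      ≤ ∑ D : Finset ι, ((if D = ∅ then 1 else 0) + y D * mm p D) :=
        Finset.sum_le_sum fun D _ => h1 D
    _ = 2 := by
        rw [Finset.sum_add_distrib, hW.Y1, Finset.sum_ite_eq', if_pos (Finset.mem_univ _)]
        norm_num

end

end SUM_

/-- SUM. -/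
theorem p_SUM : T_SUM := by
  intro ι σ _ _ _ _ p N T y e2 e3 e4 hp hN hW
  classical
  have hN0 : (0 : ℝ) < (N : ℝ) := by
    have : (2 : ℝ) ≤ (N : ℝ) := by exact_mod_cast hN
    linarith
  have hNT : 0 ≤ (N : ℝ) ^ T := (Real.rpow_pos_of_pos hN0 T).le
  have hh0 : ∀ D : Finset ι, 0 ≤ |vv y D| / (pd p D : ℝ) := fun D =>
    div_nonneg (abs_nonneg _) (SUM_.pd_pos p hp D).le
  have hterm0 : ∀ ψ : ι → Option σ, 0 ≤ ∏ b, (|vv y (cls ψ b)| / (pd p (cls ψ b) : ℝ)) :=
    fun ψ => Finset.prod_nonneg fun b _ => hh0 _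
  have h1 : ∀ ψ ∈ (univ : Finset (ι → Option σ)).filter (fun ψ => tt p N (spp ψ) ≤ T),
      ∏ b, |vv y (cls ψ b)| ≤
        (N : ℝ) ^ T * ∏ b, (|vv y (cls ψ b)| / (pd p (cls ψ b) : ℝ)) := by
    intro ψ hψ
    have hle := SUM_.pd_le p N T hp hN (spp ψ) (Finset.mem_filter.1 hψ).2
    have hpos : ∀ b, (0 : ℝ) < (pd p (cls ψ b) : ℝ) := fun b => SUM_.pd_pos p hp _
    have h2 : ∏ b, |vv y (cls ψ b)| =
        (pd p (spp ψ) : ℝ) * ∏ b, (|vv y (cls ψ b)| / (pd p (cls ψ b) : ℝ)) := by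
      rw [SUM_.pd_spp, Nat.cast_prod, ← Finset.prod_mul_distrib]
      apply Finset.prod_congr rfl
      intro b _
      rw [mul_div_cancel₀]
      exact (hpos b).ne'
    rw [h2]
    exact mul_le_mul_of_nonneg_right hle (hterm0 ψ)
  calc ∑ ψ ∈ (univ : Finset (ι → Option σ)).filter (fun ψ => tt p N (spp ψ) ≤ T),
      ∏ b, |vv y (cls ψ b)|
      ≤ ∑ ψ ∈ (univ : Finset (ι → Option σ)).filter (fun ψ => tt p N (spp ψ) ≤ T),
        (N : ℝ) ^ T * ∏ b, (|vv y (cls ψ b)| / (pd p (cls ψ b) : ℝ)) := Finset.sum_le_sum h1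
    _ ≤ ∑ ψ : ι → Option σ,
        (N : ℝ) ^ T * ∏ b, (|vv y (cls ψ b)| / (pd p (cls ψ b) : ℝ)) := by
        apply Finset.sum_le_sum_of_subset_of_nonneg (Finset.filter_subset _ _)
        intro ψ _ _
        exact mul_nonneg hNT (hterm0 ψ)
    _ = (N : ℝ) ^ T * ∑ ψ : ι → Option σ,
        ∏ b, (|vv y (cls ψ b)| / (pd p (cls ψ b) : ℝ)) := by
        rw [Finset.mul_sum]
    _ ≤ (N : ℝ) ^ T * ∑ f : σ → Finset ι, ∏ b, (|vv y (f b)| / (pd p (f b) : ℝ)) := by
        apply mul_le_mul_of_nonneg_left _ hNT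
        have hinj := SUM_.cls_inj (ι := ι) (σ := σ)
        rw [← Finset.sum_image (f := fun f : σ → Finset ι =>
          ∏ b, (|vv y (f b)| / (pd p (f b) : ℝ))) (g := fun (ψ : ι → Option σ) (b : σ) =>
            cls ψ b) (hinj.injOn)]
        apply Finset.sum_le_sum_of_subset_of_nonneg (Finset.subset_univ _)
        intro f _ _
        exact Finset.prod_nonneg fun b _ => hh0 _
    _ = (N : ℝ) ^ T * (∑ D, |vv y D| / (pd p D : ℝ)) ^ Fintype.card σ := by
        congr 1
        have h3 := Finset.prod_univ_sum (fun _ : σ => (Finset.univ : Finset (Finset ι)))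
          (fun _ D => |vv y D| / (pd p D : ℝ))
        rw [Fintype.piFinset_univ, Finset.prod_const, Finset.card_univ] at h3
        exact h3.symm
    _ ≤ (N : ℝ) ^ T * 2 ^ Fintype.card σ := by
        apply mul_le_mul_of_nonneg_left _ hNT
        exact pow_le_pow_left₀ (Finset.sum_nonneg fun D _ => hh0 D)
          (SUM_.sum_h p N y e2 e3 e4 hp hW) _

end Pool.Agent.ACQ
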