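import Pool.Agent.ACQ.Targets

set_option autoImplicit false

open Finset

namespace Pool.Agent.ACQ

namespace SUP_

lemma fac (q : ℕ) (hq : 2 ≤ q) : 1 + 1 / ((q : ℝ) - 1) = (1 - 1 / (q : ℝ))⁻¹ := by
  have h : (2 : ℝ) ≤ q := by exact_mod_cast hq
  have h1 : (q : ℝ) - 1 ≠ 0 := by linarith
  have h0 : (q : ℝ) ≠ 0 := by linarith
  have h2 : 1 - 1 / (q : ℝ) = ((q : ℝ) - 1) / q := by field_simp
  rw [h2, inv_div]
  field_simp
  ring

lemma one_le (q : ℕ) (hq : 2 ≤ q) : 1 ≤ (1 - 1 / (q : ℝ))⁻¹ := by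
  rw [← fac q hq]
  have h : (2 : ℝ) ≤ q := by exact_mod_cast hq
  have : 0 ≤ 1 / ((q : ℝ) - 1) := by
    apply div_nonneg zero_le_one
    linarith
  linarith

lemma pos (q : ℕ) (hq : 2 ≤ q) : 0 < 1 - 1 / (q : ℝ) := by
  have h : (2 : ℝ) ≤ q := by exact_mod_cast hq
  have : 1 / (q : ℝ) ≤ 1 / 2 := one_div_le_one_div_of_le (by norm_num) h
  linarith

end SUP_

theorem p_SUP : T_SUP := by
  intro ι _ _ p z x hp hinj hzx
  have hge : ∀ i, 2 ≤ p i := fun i => (hp i).1.two_le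
  set J : Finset ι := univ.filter (fun i => p i ≤ x) with hJ
  have hmm : ∀ D : Finset ι, 0 ≤ mm p D := by
    intro D
    unfold mm
    apply Finset.prod_nonneg
    intro i _
    have : (2 : ℝ) ≤ p i := by exact_mod_cast hge i
    apply div_nonneg zero_le_one
    linarith
  have h1 : Sg p x ≤ ∑ D ∈ J.powerset, mm p D := by
    unfold Sg
    apply Finset.sum_le_sum_of_subset_of_nonneg
    · intro D hD
      rw [Finset.mem_filter] at hD
      rw [Finset.mem_powerset]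
      intro i hi
      rw [hJ, Finset.mem_filter]
      refine ⟨Finset.mem_univ _, le_trans (Nat.le_of_dvd ?_ ?_) hD.2⟩
      · unfold pd
        exact Finset.prod_pos (fun j _ => (hp j).1.pos)
      · exact Finset.dvd_prod_of_mem p hi
    · intro D _ _
      exact hmm D
  have h2 : ∑ D ∈ J.powerset, mm p D = ∏ i ∈ J, (1 + 1 / ((p i : ℝ) - 1)) := by
    unfold mm
    rw [Finset.prod_one_add]
  have h3 : ∏ i ∈ J, (1 + 1 / ((p i : ℝ) - 1)) = ∏ q ∈ J.image p, (1 - 1 / (q : ℝ))⁻¹ := by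
    rw [Finset.prod_image (fun a _ b _ h => hinj h)]
    exact Finset.prod_congr rfl (fun i _ => SUP_.fac (p i) (hge i))
  have hsub : J.image p ⊆ ACP.pr x \ ACP.pr z := by
    intro q hq
    rw [Finset.mem_image] at hq
    obtain ⟨i, hi, rfl⟩ := hq
    rw [hJ, Finset.mem_filter] at hi
    rw [Finset.mem_sdiff]
    unfold ACP.pr
    rw [Finset.mem_filter, Finset.mem_filter, Finset.mem_Icc, Finset.mem_Icc]
    have := (hp i).1.pos
    have h' := (hp i).2
    refine ⟨⟨⟨this, hi.2⟩, (hp i).1⟩, ?_⟩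
    rintro ⟨⟨_, h⟩, _⟩
    omega
  have hpr : ∀ y : ℕ, ∀ q ∈ ACP.pr y, 2 ≤ q := by
    intro y q hq
    unfold ACP.pr at hq
    rw [Finset.mem_filter] at hq
    exact hq.2.two_le
  have h4 : ∏ q ∈ J.image p, (1 - 1 / (q : ℝ))⁻¹ ≤
      ∏ q ∈ ACP.pr x \ ACP.pr z, (1 - 1 / (q : ℝ))⁻¹ := by
    rw [← Finset.prod_sdiff hsub]
    have hA : 1 ≤ ∏ q ∈ (ACP.pr x \ ACP.pr z) \ J.image p, (1 - 1 / (q : ℝ))⁻¹ := by
      have : ∀ S : Finset ℕ, (∀ q ∈ S, 2 ≤ q) → 1 ≤ ∏ q ∈ S, (1 - 1 / (q : ℝ))⁻¹ := by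
        intro S
        refine Finset.induction_on S ?_ ?_
        · intro _
          simp
        · intro a S ha ih h
          rw [Finset.prod_insert ha]
          have e1 := SUP_.one_le a (h a (Finset.mem_insert_self _ _))
          have e2 := ih (fun q hq => h q (Finset.mem_insert_of_mem hq))
          nlinarith
      apply this
      intro q hq
      rw [Finset.mem_sdiff, Finset.mem_sdiff] at hq
      exact hpr x q hq.1.1
    have hB : 0 ≤ ∏ q ∈ J.image p, (1 - 1 / (q : ℝ))⁻¹ := by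
      apply Finset.prod_nonneg
      intro q hq
      have hq' := hsub hq
      rw [Finset.mem_sdiff] at hq'
      exact le_trans zero_le_one (SUP_.one_le q (hpr x q hq'.1))
    nlinarith
  have hzx' : ACP.pr z ⊆ ACP.pr x := by
    intro q hq
    unfold ACP.pr at hq ⊢
    rw [Finset.mem_filter, Finset.mem_Icc] at hq ⊢
    exact ⟨⟨hq.1.1, le_trans hq.1.2 hzx⟩, hq.2⟩
  have h5 : ∏ q ∈ ACP.pr x \ ACP.pr z, (1 - 1 / (q : ℝ))⁻¹ = ACP.V z / ACP.V x := by
    have hVx : ACP.V x = (∏ q ∈ ACP.pr x \ ACP.pr z, (1 - 1 / (q : ℝ))) * ACP.V z := by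
      unfold ACP.V
      rw [Finset.prod_sdiff hzx']
    have hVz : 0 < ACP.V z := by
      unfold ACP.V
      exact Finset.prod_pos (fun q hq => SUP_.pos q (hpr z q hq))
    have hP : 0 < ∏ q ∈ ACP.pr x \ ACP.pr z, (1 - 1 / (q : ℝ)) := by
      apply Finset.prod_pos
      intro q hq
      rw [Finset.mem_sdiff] at hq
      exact SUP_.pos q (hpr x q hq.1)
    rw [hVx, Finset.prod_inv_distrib]
    field_simp
  calc Sg p x ≤ _ := h1
    _ = _ := h2
    _ = _ := h3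
    _ ≤ _ := h4
    _ = _ := h5

end Pool.Agent.ACQ
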