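import Pool.Agent.ACQ.Targets

set_option autoImplicit false

/-! ACQ, target SUY: absolute sums and supports of the coefficients. -/

open Finset

namespace Pool.Agent.ACQ

namespace SUY_

variable {ι σ : Type} [Fintype ι] [DecidableEq ι] [Fintype σ] [DecidableEq σ]

theorem tt_nonneg (p : ι → ℕ) (N : ℕ) (hp : ∀ i, 2 ≤ p i) (hN : 2 ≤ N) (D : Finset ι) :
    0 ≤ tt p N D := by
  unfold tt
  have h1 : 0 ≤ Real.log N := Real.log_nonneg (by exact_mod_cast (by omega : 1 ≤ N))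
  refine div_nonneg (Finset.sum_nonneg fun i _ => ?_) h1
  exact Real.log_nonneg (by exact_mod_cast (by have := hp i; omega : 1 ≤ p i))

theorem pd_le (p : ι → ℕ) (N : ℕ) (T : ℝ) (hp : ∀ i, 2 ≤ p i) (hN : 2 ≤ N) (D : Finset ι)
    (h : tt p N D ≤ T) : (pd p D : ℝ) ≤ (N : ℝ) ^ T := by
  have hlN : 0 < Real.log N := Real.log_pos (by exact_mod_cast (by omega : 1 < N))
  have hN0 : (0 : ℝ) < N := by exact_mod_cast (by omega : 0 < N)
  have h1 : ∑ i ∈ D, Real.log (p i) ≤ T * Real.log N := by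
    unfold tt at h
    rwa [div_le_iff₀ hlN] at h
  have hpi : ∀ i, (0 : ℝ) < p i := fun i => by exact_mod_cast (by have := hp i; omega : 0 < p i)
  have h2 : Real.log (pd p D : ℝ) = ∑ i ∈ D, Real.log (p i) := by
    unfold pd
    rw [Nat.cast_prod, Real.log_prod fun i _ => (hpi i).ne']
  have h3 : (0 : ℝ) < (pd p D : ℝ) := by
    unfold pd
    rw [Nat.cast_prod]
    exact Finset.prod_pos fun i _ => hpi i
  rw [← Real.exp_log h3, Real.rpow_def_of_pos hN0, h2]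
  apply Real.exp_le_exp.2
  linarith [mul_comm T (Real.log (N : ℝ))]

theorem gen (h_SUM : T_SUM) (p : ι → ℕ) (N : ℕ) (T : ℝ) (y : Finset ι → ℝ) (e2 e3 e4 : ℝ)
    (hp : ∀ i, 2 ≤ p i) (hN : 2 ≤ N) (hW : Wt p N y e2 e3 e4) (F : (ι → Option σ) → ℝ)
    (h1 : ∀ ψ, |F ψ| ≤ ∏ b, |vv y (cls ψ b)|) (h2 : ∀ ψ, T ≤ tt p N (spp ψ) → F ψ = 0) :
    (∑ ψ : ι → Option σ, |F ψ| ≤ (N : ℝ) ^ T * 2 ^ Fintype.card σ) ∧
    (∀ ψ : ι → Option σ, F ψ ≠ 0 → (pd p (spp ψ) : ℝ) ≤ (N : ℝ) ^ T) := by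
  classical
  have hle : ∀ ψ, F ψ ≠ 0 → tt p N (spp ψ) ≤ T := by
    intro ψ hψ
    by_contra hcon
    exact hψ (h2 ψ (not_le.1 hcon).le)
  constructor
  · have hS := h_SUM ι σ p N T y e2 e3 e4 hp hN hW
    have e1 : ∑ ψ : ι → Option σ, |F ψ| =
        ∑ ψ ∈ (univ : Finset (ι → Option σ)).filter (fun ψ => tt p N (spp ψ) ≤ T), |F ψ| := by
      symm
      apply Finset.sum_filter_of_ne
      intro ψ _ hψ
      exact hle ψ (fun h => hψ (by rw [h, abs_zero]))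
    rw [e1]
    calc ∑ ψ ∈ (univ : Finset (ι → Option σ)).filter (fun ψ => tt p N (spp ψ) ≤ T), |F ψ|
        ≤ ∑ ψ ∈ (univ : Finset (ι → Option σ)).filter (fun ψ => tt p N (spp ψ) ≤ T),
            ∏ b, |vv y (cls ψ b)| := Finset.sum_le_sum fun ψ _ => h1 ψ
      _ ≤ _ := by
        convert hS
  · intro ψ hψ
    exact pd_le p N T hp hN _ (hle ψ hψ)

end SUY_

open SUY_ in
/-- Target SUY. -/
theorem p_SUY (h_SUM : T_SUM) (h_PSB : T_PSB) : T_SUY := by
  intro ι σ _ _ _ _ p N T y e2 e3 e4 hp hN hW hT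
  have hY := gen (σ := σ) h_SUM p N T y e2 e3 e4 hp hN hW (YY p N T y) (fun ψ => by
      have h0 := tt_nonneg p N hp hN (spp ψ)
      unfold YY
      rw [abs_mul, Finset.abs_prod]
      have hg0 : 0 ≤ gg T (tt p N (spp ψ)) := le_max_left _ _
      have hg1 : gg T (tt p N (spp ψ)) ≤ 1 := by
        unfold gg
        apply max_le zero_le_one
        have : 0 ≤ tt p N (spp ψ) / T := div_nonneg h0 hT.le
        linarith
      rw [abs_of_nonneg hg0]
      exact mul_le_of_le_one_left (Finset.prod_nonneg fun b _ => abs_nonneg _) hg1)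
    (fun ψ hψ => by
      unfold YY
      have : gg T (tt p N (spp ψ)) = 0 := by
        unfold gg
        apply max_eq_left
        have h1 : 1 ≤ tt p N (spp ψ) / T := by rwa [le_div_iff₀ hT, one_mul]
        linarith
      rw [this, zero_mul])
  refine ⟨hY.1, hY.2, fun a ha => ?_⟩
  have hP := gen (σ := σ) h_SUM p N T y e2 e3 e4 hp hN hW (Psi p (YY p N T y) a) ha
    (fun ψ hψ => (h_PSB ι σ p N T y e2 e3 e4 a ψ hp hN hW hT).2 hψ)
  refine ⟨hP.1, fun ψ hψ => ⟨?_, hP.2 ψ hψ⟩⟩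
  by_contra hne
  apply hψ
  unfold Psi
  rw [if_neg hne]

end Pool.Agent.ACQ
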