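import Pool.Agent.ACQ.Targets

set_option autoImplicit false

/-! ACQ, target SZ: the number of survivors. -/

open Finset

namespace Pool.Agent.ACQ

/-- Target SZ. -/
theorem p_SZ (h_VB : T_VB) : T_SZ := by
  intro C
  obtain ⟨c, Cv, hc, hcC, hV⟩ := h_VB
  have hCv : 0 < Cv := lt_of_lt_of_le hc hcC
  refine ⟨max 1 (4 * Cv * (|C| + 1)), le_max_left _ _, ⌈Real.exp 16⌉₊, fun N hN => ?_⟩
  have hN1 : Real.exp 16 ≤ (N : ℝ) := le_trans (Nat.le_ceil _) (by exact_mod_cast hN)
  have hN0 : (0 : ℝ) < N := lt_of_lt_of_le (Real.exp_pos _) hN1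
  set L : ℝ := Real.log N with hL
  have hL16 : 16 ≤ L := by
    rw [hL, Real.le_log_iff_exp_le hN0]
    exact hN1
  have hL0 : 0 < L := by linarith
  have hsq4 : 4 ≤ Real.sqrt L := by
    apply Real.le_sqrt_of_sq_le
    linarith
  have hlt : Real.sqrt L < (yN N : ℝ) + 1 := by
    have := Nat.lt_floor_add_one (Real.sqrt L)
    simpa [yN, hL] using this
  have hy2 : Real.sqrt L / 2 ≤ (yN N : ℝ) := by linarith
  have hy3 : (2 : ℝ) ≤ (yN N : ℝ) := by linarith
  have hy3' : 2 ≤ yN N := by exact_mod_cast hy3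
  have hlog2 : 0 < Real.log 2 := Real.log_pos (by norm_num)
  have hlogL : 4 * Real.log 2 ≤ Real.log L := by
    have h1 : Real.log ((2 : ℝ) ^ 4) = 4 * Real.log 2 := by
      rw [Real.log_pow]; norm_num
    rw [← h1]
    apply Real.log_le_log (by norm_num)
    norm_num
    exact hL16
  have hlogL0 : 0 < Real.log L := by linarith
  have hlogy : Real.log L / 4 ≤ Real.log (yN N : ℝ) := by
    have h1 : Real.log (Real.sqrt L / 2) ≤ Real.log (yN N : ℝ) :=
      Real.log_le_log (by linarith) hy2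
    have hs0 : Real.sqrt L ≠ 0 := by
      have : 0 < Real.sqrt L := by linarith
      exact this.ne'
    rw [Real.log_div hs0 (by norm_num), Real.log_sqrt hL0.le] at h1
    linarith
  have hlogy0 : 0 < Real.log (yN N : ℝ) := by linarith
  obtain ⟨hVl, hVu⟩ := hV (yN N) hy3'
  have hV0 : 0 ≤ ACP.V (yN N) := le_trans (div_nonneg hc.le hlogy0.le) hVl
  have hVu2 : ACP.V (yN N) ≤ 4 * Cv / Real.log L := by
    refine le_trans hVu ?_
    rw [div_le_div_iff₀ hlogy0 hlogL0]
    nlinarith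
  have hCL : C * L + 1 ≤ (|C| + 1) * L := by
    have := le_abs_self C
    nlinarith
  calc (C * L + 1) * ACP.V (yN N) ≤ ((|C| + 1) * L) * ACP.V (yN N) :=
        mul_le_mul_of_nonneg_right hCL hV0
    _ ≤ ((|C| + 1) * L) * (4 * Cv / Real.log L) :=
        mul_le_mul_of_nonneg_left hVu2 (mul_nonneg (by positivity) hL0.le)
    _ = (4 * Cv * (|C| + 1)) * (L / Real.log L) := by ring
    _ ≤ max 1 (4 * Cv * (|C| + 1)) * (L / Real.log L) :=
        mul_le_mul_of_nonneg_right (le_max_right _ _) (div_nonneg hL0.le hlogL0.le)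

end Pool.Agent.ACQ
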