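import Pool.Agent.ACQ.Targets

set_option autoImplicit false

/-!
# ACQ: facts about `upd`
-/

open Finset

namespace Pool.Agent.ACQ

namespace UPD_

variable {ι σ : Type} [Fintype ι] [DecidableEq ι] [Fintype σ] [DecidableEq σ]

theorem mem_spp {ψ : ι → Option σ} {i : ι} : i ∈ spp ψ ↔ ψ i ≠ none := by
  simp [spp]

theorem mem_cls {ψ : ι → Option σ} {b : σ} {i : ι} : i ∈ cls ψ b ↔ ψ i = some b := by
  simp [cls]

end UPD_

open UPD_ in
/-- UPD. Facts about `upd`. -/
theorem p_UPD : T_UPD := by
  intro ι σ _ _ _ _ p s N a ψ D hc hD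
  have h1 : ∀ i ∈ D, ψ i = none := by
    intro i hi
    have h := hD hi
    rw [Finset.mem_compl, mem_spp, not_not] at h
    exact h
  have h2 : ∀ i, ψ i ≠ some a := by
    intro i h
    have h3 : i ∈ cls ψ a := mem_cls.mpr h
    rw [hc] at h3
    exact absurd h3 (Finset.notMem_empty i)
  have hin : ∀ i ∈ D, upd ψ D a i = some a := by
    intro i hi
    simp [upd, hi]
  have hout : ∀ i, i ∉ D → upd ψ D a i = ψ i := by
    intro i hi
    simp [upd, hi]
  have g1 : spp (upd ψ D a) = spp ψ ∪ D := by
    ext i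
    rw [Finset.mem_union, mem_spp, mem_spp]
    by_cases hi : i ∈ D
    · rw [hin i hi]
      simp [hi]
    · rw [hout i hi]
      simp [hi]
  have g2 : Disjoint (spp ψ) D := by
    rw [Finset.disjoint_left]
    intro i hi hi'
    exact mem_spp.mp hi (h1 i hi')
  have g3 : cls (upd ψ D a) a = D := by
    ext i
    rw [mem_cls]
    by_cases hi : i ∈ D
    · rw [hin i hi]
      simp [hi]
    · rw [hout i hi]
      simp [hi, h2 i]
  have g4 : ∀ b, b ≠ a → cls (upd ψ D a) b = cls ψ b := by
    intro b hb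
    ext i
    rw [mem_cls, mem_cls]
    by_cases hi : i ∈ D
    · rw [hin i hi, h1 i hi]
      simp [Ne.symm hb]
    · rw [hout i hi]
  refine ⟨g1, g2, g3, g4, ?_, ?_, ?_, ?_, ?_, ?_⟩
  · funext i
    unfold era
    by_cases hi : i ∈ D
    · rw [hin i hi, h1 i hi]
      simp
    · rw [hout i hi]
      simp [h2 i]
  · rw [g1]
    unfold mm
    exact Finset.prod_union g2
  · rw [g1]
    unfold pd
    exact Finset.prod_union g2
  · rw [g1]
    unfold tt
    rw [Finset.sum_union g2, add_div]
  · intro n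
    have h3 : ∏ i ∈ D, chi p s i (some a) n =
        ∏ i, if i ∈ D then chi p s i (some a) n else 1 := by
      rw [Finset.prod_ite_mem, Finset.univ_inter]
    rw [h3, ← Finset.prod_mul_distrib]
    refine Finset.prod_congr rfl fun i _ => ?_
    by_cases hi : i ∈ D
    · rw [hin i hi, h1 i hi, if_pos hi]
      simp [chi]
    · rw [hout i hi, if_neg hi, mul_one]
  · intro v hv
    rw [← Finset.mul_prod_erase Finset.univ _ (Finset.mem_univ a),
      ← Finset.mul_prod_erase Finset.univ (fun b => v (cls ψ b)) (Finset.mem_univ a),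
      g3, hc, hv, one_mul]
    congr 1
    refine Finset.prod_congr rfl fun b hb => ?_
    rw [g4 b (Finset.ne_of_mem_erase hb)]

end Pool.Agent.ACQ
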