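import Pool.Agent.ACQ.Targets

set_option autoImplicit false

/-!
# ACQ: Selberg's upper bound (target `T_UPP`)
-/

open Finset

namespace Pool.Agent.ACQ

theorem UPP_mm_nonneg {ι : Type} (p : ι → ℕ) (h : ∀ i, 2 ≤ p i) (D : Finset ι) : 0 ≤ mm p D := by
  unfold mm
  refine Finset.prod_nonneg fun i _ => ?_
  have h1 : (2 : ℝ) ≤ (p i : ℝ) := by exact_mod_cast h i
  have h2 : (0 : ℝ) ≤ (p i : ℝ) - 1 := by linarith
  exact one_div_nonneg.mpr h2

theorem p_UPP (h_UU1 : T_UU1) (h_UU2 : T_UU2) (h_UU3 : T_UU3) (h_GRM : T_GRM) : T_UPP := by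
  intro ι σ _ _ _ _ p s N W w z R hG hN hz hR a F s0 hs0 hSS hcls hpd
  have hp2 : ∀ i, 2 ≤ p i := fun i => (hG.pr i).two_le
  have h3 := h_UU3 ι σ p N R a F hG.pr hG.inj hR hcls
  have h2 := h_UU2 ι σ p R a F hp2 hR hcls
  have hgrm := h_GRM ι σ p s N W w z hG hN hz (UU p R a F) (h3.2 hpd)
  have hFF : ∑ n ∈ FF p s N W w a, VV p s F n ^ 2 ≤
      ∑ n ∈ Ar N W w, VV p s (UU p R a F) n ^ 2 := by
    have e1 : ∑ n ∈ FF p s N W w a, VV p s F n ^ 2 =
        ∑ n ∈ FF p s N W w a, VV p s (UU p R a F) n ^ 2 := by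
      refine Finset.sum_congr rfl fun n hn => ?_
      have hn' : ∀ i, ¬ n ≡ s a [MOD p i] := by
        unfold FF at hn
        exact (Finset.mem_filter.mp hn).2
      rw [h_UU1 ι σ p s R a F n hp2 hR hcls hn']
    rw [e1]
    refine Finset.sum_le_sum_of_subset_of_nonneg ?_ ?_
    · unfold FF
      exact Finset.filter_subset _ _
    · intro n _ _
      exact sq_nonneg _
  have hM : (N : ℝ) / W * ∑ φ, UU p R a F φ ^ 2 * mm p (spp φ) ≤
      (N : ℝ) / W * ((∑ ψ, F ψ ^ 2 * mm p (spp ψ)) / s0) := by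
    refine mul_le_mul_of_nonneg_left ?_ (by positivity)
    rw [h2, Finset.sum_div]
    refine Finset.sum_le_sum fun ψ _ => ?_
    by_cases hF : F ψ = 0
    · simp [hF]
    · have h4 := hSS ψ hF
      have h5 : 0 ≤ F ψ ^ 2 * mm p (spp ψ) :=
        mul_nonneg (sq_nonneg _) (UPP_mm_nonneg p hp2 _)
      exact div_le_div_of_nonneg_left h5 hs0 h4
  have hA : (∑ φ, |UU p R a F φ|) ^ 2 ≤ ((R : ℝ) * ∑ ψ, |F ψ|) ^ 2 := by
    refine pow_le_pow_left₀ (Finset.sum_nonneg fun φ _ => abs_nonneg _) h3.1 2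
  have h6 := (abs_le.mp hgrm).2
  nlinarith [hFF, hM, hA, h6]

end Pool.Agent.ACQ
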