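import Pool.Agent.ACQ.Targets

set_option autoImplicit false

/-!
# ACQ: target UU1
-/

open Finset

namespace Pool.Agent.ACQ

namespace UU1_

variable {ι : Type}

lemma mm_nonneg (p : ι → ℕ) (h : ∀ i, 2 ≤ p i) (D : Finset ι) : 0 ≤ mm p D := by
  apply prod_nonneg
  intro i _
  have h1 : (2 : ℝ) ≤ p i := by exact_mod_cast h i
  have h2 : (0 : ℝ) < (p i : ℝ) - 1 := by linarith
  positivity

lemma SS_pos [Fintype ι] [DecidableEq ι] (p : ι → ℕ) (h : ∀ i, 2 ≤ p i) (R : ℕ)
    (hR : 1 ≤ R) (E : Finset ι) :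
    0 < SS p R E := by
  have h1 : mm p ∅ ≤ SS p R E := by
    apply Finset.single_le_sum (f := fun D => mm p D) (fun D _ => mm_nonneg p h D)
    rw [mem_filter]
    refine ⟨mem_univ _, Finset.disjoint_empty_left E, ?_⟩
    simp only [pd, prod_empty]
    exact hR
  have h2 : mm p (∅ : Finset ι) = 1 := by simp [mm]
  linarith

end UU1_

open UU1_ in
/-- UU1. -/
theorem p_UU1 (hSPL : T_SPL) (hUPD : T_UPD) : T_UU1 := by
  intro ι σ _ _ _ _ p s R a F n hp hR hF hn
  unfold VV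
  rw [hSPL ι σ a (fun φ => UU p R a F φ * ∏ i, chi p s i (φ i) n)]
  have h1 : ∑ ψ, F ψ * ∏ i, chi p s i (ψ i) n =
      ∑ ψ ∈ (univ : Finset (ι → Option σ)).filter (fun ψ => cls ψ a = ∅),
        F ψ * ∏ i, chi p s i (ψ i) n := by
    symm
    apply Finset.sum_subset (filter_subset _ _)
    intro ψ _ hψ
    have h2 : F ψ = 0 := by
      by_contra h3
      exact hψ (mem_filter.2 ⟨mem_univ _, hF ψ h3⟩)
    rw [h2, zero_mul]
  rw [h1]
  apply Finset.sum_congr rfl
  intro ψ hψ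
  have hcls : cls ψ a = ∅ := (mem_filter.1 hψ).2
  have hterm : ∀ D ∈ ((spp ψ)ᶜ).powerset,
      UU p R a F (upd ψ D a) * ∏ i, chi p s i (upd ψ D a i) n =
        (F ψ / SS p R (spp ψ) * ∏ i, chi p s i (ψ i) n) *
          (if pd p D ≤ R then mm p D else 0) := by
    intro D hD
    obtain ⟨-, -, h3, -, h5, -, -, -, h9, -⟩ := hUPD ι σ p s 0 a ψ D hcls (mem_powerset.1 hD)
    have h10 : ∏ i ∈ D, chi p s i (some a) n = mm p D := by
      apply Finset.prod_congr rfl
      intro i _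
      simp only [chi, if_neg (hn i)]
    rw [h9 n, h10]
    unfold UU
    rw [h3, h5]
    split_ifs
    · ring
    · ring
  rw [Finset.sum_congr rfl hterm, ← Finset.mul_sum]
  have h2 : ∑ D ∈ ((spp ψ)ᶜ).powerset, (if pd p D ≤ R then mm p D else 0) = SS p R (spp ψ) := by
    rw [← Finset.sum_filter]
    unfold SS
    apply Finset.sum_congr _ fun _ _ => rfl
    ext D
    rw [mem_filter, mem_filter, mem_powerset]
    constructor
    · rintro ⟨h3, h4⟩
      exact ⟨mem_univ _, Finset.disjoint_left.2 fun i hi => mem_compl.1 (h3 hi), h4⟩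
    · rintro ⟨-, h3, h4⟩
      exact ⟨fun i hi => mem_compl.2 (Finset.disjoint_left.1 h3 hi), h4⟩
  rw [h2]
  have h3 := (SS_pos p hp R hR (spp ψ)).ne'
  field_simp

end Pool.Agent.ACQ
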