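import Pool.Agent.ACQ.Targets

set_option autoImplicit false

/-!
# ACQ, UU2: the quadratic form of the coefficients of the majorant
-/

open Finset

namespace Pool.Agent.ACQ

namespace UU2_

theorem mm_nonneg {ι : Type} (p : ι → ℕ) (hp : ∀ i, 2 ≤ p i) (D : Finset ι) : 0 ≤ mm p D := by
  unfold mm
  apply Finset.prod_nonneg
  intro i _
  have h1 : (2 : ℝ) ≤ p i := by exact_mod_cast hp i
  apply div_nonneg zero_le_one
  linarith

theorem SS_ge {ι : Type} [Fintype ι] [DecidableEq ι] (p : ι → ℕ) (hp : ∀ i, 2 ≤ p i)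
    (R : ℕ) (hR : 1 ≤ R) (E : Finset ι) : 1 ≤ SS p R E := by
  unfold SS
  have h1 : mm p (∅ : Finset ι) = 1 := by simp [mm]
  rw [← h1]
  apply Finset.single_le_sum (f := fun D => mm p D) (fun D _ => mm_nonneg p hp D)
  rw [Finset.mem_filter]
  refine ⟨Finset.mem_univ _, Finset.disjoint_empty_left _, ?_⟩
  simpa [pd] using hR

theorem SS_eq {ι : Type} [Fintype ι] [DecidableEq ι] (p : ι → ℕ) (R : ℕ) (E : Finset ι) :
    ∑ D ∈ Eᶜ.powerset, (if pd p D ≤ R then mm p D else 0) = SS p R E := by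
  unfold SS
  rw [← Finset.sum_filter]
  apply Finset.sum_congr _ fun _ _ => rfl
  ext D
  rw [Finset.mem_filter, Finset.mem_filter, Finset.mem_powerset]
  have h : D ⊆ Eᶜ ↔ Disjoint D E := by
    rw [Finset.disjoint_left]
    constructor
    · intro h i hi hE
      exact Finset.mem_compl.mp (h hi) hE
    · intro h i hi
      exact Finset.mem_compl.mpr (h hi)
  rw [h]
  simp

end UU2_

open UU2_ in
theorem p_UU2 (h_SPL : T_SPL) (h_UPD : T_UPD) : T_UU2 := by
  intro ι σ _ _ _ _ p R a F hp hR hF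
  rw [h_SPL ι σ a (fun φ => UU p R a F φ ^ 2 * mm p (spp φ))]
  have key : ∀ ψ ∈ (univ : Finset (ι → Option σ)).filter (fun ψ => cls ψ a = ∅),
      ∑ D ∈ (spp ψ)ᶜ.powerset, UU p R a F (upd ψ D a) ^ 2 * mm p (spp (upd ψ D a)) =
        F ψ ^ 2 * mm p (spp ψ) / SS p R (spp ψ) := by
    intro ψ hψ
    have hψ' := (Finset.mem_filter.mp hψ).2
    have hS : 0 < SS p R (spp ψ) := lt_of_lt_of_le one_pos (SS_ge p hp R hR (spp ψ))
    have h1 : ∀ D ∈ (spp ψ)ᶜ.powerset,
        UU p R a F (upd ψ D a) ^ 2 * mm p (spp (upd ψ D a)) =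
          (F ψ / SS p R (spp ψ)) ^ 2 * mm p (spp ψ) * (if pd p D ≤ R then mm p D else 0) := by
      intro D hD
      have hD' := Finset.mem_powerset.mp hD
      obtain ⟨-, -, e1, -, e2, e3, -⟩ := h_UPD ι σ p (fun _ => 0) 0 a ψ D hψ' hD'
      unfold UU
      rw [e1, e2, e3]
      split_ifs with h2
      · ring
      · ring
    rw [Finset.sum_congr rfl h1, ← Finset.mul_sum, SS_eq]
    field_simp
  rw [Finset.sum_congr rfl key]
  apply Finset.sum_subset (Finset.filter_subset _ _)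
  intro ψ _ hψ
  have h0 : F ψ = 0 := by
    by_contra hne
    exact hψ (Finset.mem_filter.mpr ⟨Finset.mem_univ _, hF ψ hne⟩)
  rw [h0]
  simp

end Pool.Agent.ACQ
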