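import Pool.Agent.ACQ.Targets

set_option autoImplicit false

/-!
# ACQ, UU3: absolute sum and support of the coefficients of the majorant
-/

open Finset

namespace Pool.Agent.ACQ

namespace UU3_

theorem pd_inj {ι : Type} [DecidableEq ι] (p : ι → ℕ) (hp : ∀ i, (p i).Prime)
    (hinj : Function.Injective p) (D D' : Finset ι) (h : pd p D = pd p D') : D ⊆ D' := by
  intro i hi
  have h1 : p i ∣ pd p D := Finset.dvd_prod_of_mem p hi
  rw [h] at h1
  unfold pd at h1
  rw [(hp i).prime.dvd_finsetProd_iff] at h1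
  obtain ⟨j, hj, hij⟩ := h1
  have h2 : p i = p j := (Nat.prime_dvd_prime_iff_eq (hp i) (hp j)).mp hij
  rw [hinj h2]
  exact hj

theorem card_le {ι : Type} [DecidableEq ι] (p : ι → ℕ) (hp : ∀ i, (p i).Prime)
    (hinj : Function.Injective p) (R : ℕ) (A : Finset (Finset ι)) :
    (A.filter (fun D => pd p D ≤ R)).card ≤ R := by
  have h1 : (A.filter (fun D => pd p D ≤ R)).card ≤ (Finset.Icc 1 R).card := by
    apply Finset.card_le_card_of_injOn (pd p)
    · intro D hD
      have h2 := (Finset.mem_filter.mp (Finset.mem_coe.mp hD)).2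
      rw [Finset.mem_coe, Finset.mem_Icc]
      exact ⟨Finset.prod_pos fun i _ => (hp i).pos, h2⟩
    · intro D _ D' _ h
      exact Finset.Subset.antisymm (pd_inj p hp hinj D D' h) (pd_inj p hp hinj D' D h.symm)
  rwa [Nat.card_Icc, Nat.add_sub_cancel] at h1

theorem mm_nonneg {ι : Type} (p : ι → ℕ) (hp : ∀ i, (p i).Prime) (D : Finset ι) :
    0 ≤ mm p D := by
  unfold mm
  apply Finset.prod_nonneg
  intro i _
  have h1 : (2 : ℝ) ≤ p i := by exact_mod_cast (hp i).two_le
  apply div_nonneg zero_le_one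
  linarith

theorem SS_ge {ι : Type} [Fintype ι] [DecidableEq ι] (p : ι → ℕ) (hp : ∀ i, (p i).Prime)
    (R : ℕ) (hR : 1 ≤ R) (E : Finset ι) : 1 ≤ SS p R E := by
  unfold SS
  have h1 : mm p (∅ : Finset ι) = 1 := by simp [mm]
  rw [← h1]
  apply Finset.single_le_sum (f := fun D => mm p D) (fun D _ => mm_nonneg p hp D)
  rw [Finset.mem_filter]
  refine ⟨Finset.mem_univ _, Finset.disjoint_empty_left _, ?_⟩
  simpa [pd] using hR

theorem cls_era {ι σ : Type} [Fintype ι] [DecidableEq ι] [Fintype σ] [DecidableEq σ] (a : σ)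
    (φ : ι → Option σ) : cls (era φ a) a = ∅ := by
  apply Finset.filter_eq_empty_iff.mpr
  intro i _
  unfold era
  split_ifs with h
  · simp
  · exact h

theorem sub_compl {ι σ : Type} [Fintype ι] [DecidableEq ι] [Fintype σ] [DecidableEq σ] (a : σ)
    (φ : ι → Option σ) : cls φ a ⊆ (spp (era φ a))ᶜ := by
  intro i hi
  have h1 : φ i = some a := (Finset.mem_filter.mp hi).2
  rw [Finset.mem_compl]
  intro h2
  have h3 := (Finset.mem_filter.mp h2).2
  apply h3
  unfold era
  rw [if_pos h1]

theorem upd_era {ι σ : Type} [Fintype ι] [DecidableEq ι] [Fintype σ] [DecidableEq σ] (a : σ)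
    (φ : ι → Option σ) : upd (era φ a) (cls φ a) a = φ := by
  funext i
  unfold upd
  by_cases h : φ i = some a
  · have h1 : i ∈ cls φ a := Finset.mem_filter.mpr ⟨Finset.mem_univ _, h⟩
    rw [if_pos h1, h]
  · have h1 : i ∉ cls φ a := fun h1 => h (Finset.mem_filter.mp h1).2
    rw [if_neg h1]
    unfold era
    rw [if_neg h]

end UU3_

open UU3_ in
theorem p_UU3 (h_SPL : T_SPL) (h_UPD : T_UPD) : T_UU3 := by
  intro ι σ _ _ _ _ p N R a F hp hinj hR hF
  constructor
  · rw [h_SPL ι σ a (fun φ => |UU p R a F φ|)]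
    have key : ∀ ψ ∈ (univ : Finset (ι → Option σ)).filter (fun ψ => cls ψ a = ∅),
        ∑ D ∈ (spp ψ)ᶜ.powerset, |UU p R a F (upd ψ D a)| ≤ (R : ℝ) * |F ψ| := by
      intro ψ hψ
      have hψ' := (Finset.mem_filter.mp hψ).2
      have h1 : ∀ D ∈ (spp ψ)ᶜ.powerset, |UU p R a F (upd ψ D a)| ≤
          if pd p D ≤ R then |F ψ| else 0 := by
        intro D hD
        have hD' := Finset.mem_powerset.mp hD
        obtain ⟨-, -, e1, -, e2, -⟩ := h_UPD ι σ p (fun _ => 0) 0 a ψ D hψ' hD'
        unfold UU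
        rw [e1, e2]
        split_ifs with h2
        · rw [abs_div]
          have h3 := SS_ge p hp R hR (spp ψ)
          rw [abs_of_pos (lt_of_lt_of_le one_pos h3)]
          exact div_le_self (abs_nonneg _) h3
        · rw [abs_zero]
      refine le_trans (Finset.sum_le_sum h1) ?_
      rw [← Finset.sum_filter, Finset.sum_const, nsmul_eq_mul]
      apply mul_le_mul_of_nonneg_right _ (abs_nonneg _)
      exact_mod_cast card_le p hp hinj R _
    refine le_trans (Finset.sum_le_sum key) ?_
    rw [← Finset.mul_sum]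
    apply mul_le_mul_of_nonneg_left _ (Nat.cast_nonneg _)
    exact Finset.sum_le_sum_of_subset_of_nonneg (Finset.filter_subset _ _)
      (fun _ _ _ => abs_nonneg _)
  · intro hN φ hφ
    unfold UU at hφ
    split_ifs at hφ with h1
    · have h2 : F (era φ a) ≠ 0 := by
        intro h3
        rw [h3, zero_div] at hφ
        exact hφ rfl
      have h4 := (h_UPD ι σ p (fun _ => 0) 0 a (era φ a) (cls φ a) (cls_era a φ)
        (sub_compl a φ)).2.2.2.2.2.2.1
      rw [upd_era] at h4
      rw [h4]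
      exact le_trans (Nat.mul_le_mul_left _ h1) (hN _ h2)
    · exact absurd rfl hφ

end Pool.Agent.ACQ
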