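import Pool.Agent.ACQ.Targets
import Pool.Agent.ACP.Targets

set_option autoImplicit false

/-!
# ACQ: the target T_VB (Mertens bounds)
-/

open Finset

namespace Pool.Agent.ACQ

namespace VB_

lemma gp_nonneg {q : ℕ} (hq : q.Prime) : 0 ≤ ACP.gp q := by
  unfold ACP.gp
  have h2 : (2 : ℝ) ≤ q := by exact_mod_cast hq.two_le
  have h3 : 0 < 1 / (q : ℝ) := by positivity
  have h4 : 1 / (q : ℝ) ≤ 1 / 2 := one_div_le_one_div_of_le (by norm_num) h2
  have h5 : Real.log (1 - 1 / (q : ℝ)) ≤ 0 := Real.log_nonpos (by linarith) (by linarith)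
  linarith

lemma G_nonneg (y : ℕ) : 0 ≤ ACP.G y := by
  unfold ACP.G
  exact Finset.sum_nonneg fun q hq => gp_nonneg (Finset.mem_filter.1 hq).2

lemma G_mono {y x : ℕ} (h : y ≤ x) : ACP.G y ≤ ACP.G x := by
  unfold ACP.G
  refine Finset.sum_le_sum_of_subset_of_nonneg ?_
    fun q hq _ => gp_nonneg (Finset.mem_filter.1 hq).2
  intro q hq
  unfold ACP.pr at hq ⊢
  rw [Finset.mem_filter, Finset.mem_Icc] at hq ⊢
  exact ⟨⟨hq.1.1, hq.1.2.trans h⟩, hq.2⟩

lemma V_eq (x : ℕ) : ACP.V x = Real.exp (-(ACP.G x)) := by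
  unfold ACP.V ACP.G ACP.gp
  rw [← Finset.sum_neg_distrib, Real.exp_sum]
  refine Finset.prod_congr rfl fun p hp => ?_
  have h2 : p.Prime := (Finset.mem_filter.1 hp).2
  have h3 : (2 : ℝ) ≤ p := by exact_mod_cast h2.two_le
  have h4 : 1 / (p : ℝ) ≤ 1 / 2 := one_div_le_one_div_of_le (by norm_num) h3
  rw [neg_neg, Real.exp_log (by linarith)]

end VB_

/-- VB. Mertens bounds. -/
theorem p_VB (h_M3 : ACP.T_M3) : T_VB := by
  obtain ⟨x₀, hx₀, hM⟩ := h_M3 1 one_pos
  have hx₀' : (2 : ℝ) ≤ x₀ := by exact_mod_cast hx₀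
  have hl0 : 0 < Real.log x₀ := Real.log_pos (by linarith)
  have hl2 : 0 < Real.log 2 := Real.log_pos (by norm_num)
  set B := ACP.G x₀ - Real.log (Real.log x₀) with hB
  refine ⟨min (Real.exp (-(ACP.G x₀)) * Real.log 2) (Real.exp (-(B + 1))),
    max (Real.log x₀) (Real.exp (-(B - 1))), ?_, ?_, ?_⟩
  · exact lt_min (mul_pos (Real.exp_pos _) hl2) (Real.exp_pos _)
  · refine (min_le_right _ _).trans (le_trans ?_ (le_max_right _ _))
    exact Real.exp_le_exp.2 (by linarith)
  intro y hy
  have hy' : (2 : ℝ) ≤ y := by exact_mod_cast hy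
  have hly : 0 < Real.log y := Real.log_pos (by linarith)
  rw [VB_.V_eq]
  rcases le_total x₀ y with h | h
  · have h1 := abs_le.1 (hM x₀ y le_rfl h)
    have hexp : Real.exp (-(Real.log (Real.log y))) = 1 / Real.log y := by
      rw [Real.exp_neg, Real.exp_log hly, one_div]
    constructor
    · have h2 : Real.exp (-(B + 1)) * (1 / Real.log y) ≤ Real.exp (-(ACP.G y)) := by
        rw [← hexp, ← Real.exp_add]
        exact Real.exp_le_exp.2 (by linarith [h1.2])
      have h3 : min (Real.exp (-(ACP.G x₀)) * Real.log 2) (Real.exp (-(B + 1))) / Real.log y ≤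
          Real.exp (-(B + 1)) * (1 / Real.log y) := by
        rw [mul_one_div]
        exact div_le_div_of_nonneg_right (min_le_right _ _) hly.le
      exact h3.trans h2
    · have h2 : Real.exp (-(ACP.G y)) ≤ Real.exp (-(B - 1)) * (1 / Real.log y) := by
        rw [← hexp, ← Real.exp_add]
        exact Real.exp_le_exp.2 (by linarith [h1.1])
      refine h2.trans ?_
      rw [mul_one_div]
      exact div_le_div_of_nonneg_right (le_max_right _ _) hly.le
  · have hly2 : Real.log 2 ≤ Real.log y := Real.log_le_log (by norm_num) hy'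
    have hly0 : Real.log y ≤ Real.log x₀ :=
      Real.log_le_log (by linarith) (by exact_mod_cast h)
    constructor
    · rw [div_le_iff₀ hly]
      calc min (Real.exp (-(ACP.G x₀)) * Real.log 2) (Real.exp (-(B + 1)))
          ≤ Real.exp (-(ACP.G x₀)) * Real.log 2 := min_le_left _ _
        _ ≤ Real.exp (-(ACP.G y)) * Real.log y := by
            refine mul_le_mul (Real.exp_le_exp.2 ?_) hly2 hl2.le (Real.exp_pos _).le
            have := VB_.G_mono h
            linarith
    · rw [le_div_iff₀ hly]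
      have h3 : Real.exp (-(ACP.G y)) ≤ 1 := by
        rw [Real.exp_le_one_iff]
        have := VB_.G_nonneg y
        linarith
      calc Real.exp (-(ACP.G y)) * Real.log y ≤ 1 * Real.log y :=
            mul_le_mul_of_nonneg_right h3 hly.le
        _ ≤ Real.log x₀ := by rw [one_mul]; exact hly0
        _ ≤ max (Real.log x₀) (Real.exp (-(B - 1))) := le_max_left _ _

end Pool.Agent.ACQ
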