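import Pool.Agent.ACQ.Targets

set_option autoImplicit false

/-!
# ACQ: WTS, the weights (MP_512c7d_nt)
-/

open Finset

namespace Pool.Agent.ACQ

namespace WTS_

theorem log_gt {N : ℕ} (hN : 8 ≤ N) : 2 < Real.log N := by
  have h8 : Real.log 8 = 3 * Real.log 2 := by
    rw [show (8 : ℝ) = 2 ^ 3 by norm_num, Real.log_pow]
    norm_num
  have h2 := Real.log_two_gt_d9
  have h : Real.log 8 ≤ Real.log N :=
    Real.log_le_log (by norm_num) (by exact_mod_cast hN)
  linarith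

theorem zN_ge {N : ℕ} (hN : 8 ≤ N) : 2 ≤ zN N := by
  have h := log_gt hN
  unfold zN
  apply Nat.le_floor
  have h1 : (2 : ℝ) ^ 10 ≤ Real.log N ^ 10 := pow_le_pow_left₀ (by norm_num) h.le 10
  push_cast
  have h3 : (2 : ℝ) ≤ 2 ^ 10 := by norm_num
  linarith

end WTS_

theorem p_WTS (h_VB : T_VB) (h_SUP : T_SUP) (h_SLO : T_SLO) (h_DIS : T_DIS)
    (h_YW0 : T_YW0) (h_YW2 : T_YW2) (h_YW3 : T_YW3) (h_YW4 : T_YW4) (h_XCH : T_XCH) :
    T_WTS := by
  obtain ⟨cv, Cv, hcv, hcC, hV⟩ := h_VB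
  set c : ℝ := cv / 2 with hc
  set C : ℝ := max (Cv / cv) c with hC
  have hc0 : 0 < c := by positivity
  have hcC' : c ≤ C := le_max_right _ _
  have hC0 : 0 < C := lt_of_lt_of_le hc0 hcC'
  have hCv : Cv / cv ≤ C := le_max_left _ _
  refine ⟨c, C, hc0, hcC', ?_⟩
  intro I hI
  have hκ0 : 0 < c / (2 * C) := by positivity
  have hκ1 : c / (2 * C) ≤ 1 := by
    rw [div_le_one (by positivity)]
    linarith
  obtain ⟨N₀, hN₀⟩ := h_XCH (c / (2 * C)) I hκ0 hκ1
  refine ⟨max N₀ 8, ?_⟩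
  intro N hN ι _ _ p B hR hB
  have hN8 : 8 ≤ N := le_trans (le_max_right _ _) hN
  obtain ⟨x, hx0, hxk, hxd⟩ := hN₀ N (le_trans (le_max_left _ _) hN)
  have hz2 : 2 ≤ zN N := WTS_.zN_ge hN8
  have hlz : 0 < Real.log (zN N) := Real.log_pos (by exact_mod_cast hz2)
  have hpr : ∀ i, (p i).Prime ∧ zN N < p i := by
    intro i
    have h := (hR.2 (p i)).1 ⟨i, rfl⟩
    exact ⟨h.1, h.2.1⟩
  have hx2 : ∀ k, k ≤ I → 2 ≤ x k := fun k hk => le_trans hz2 (hxk k hk).1
  have hlx : ∀ k, k ≤ I → 0 < Real.log (x k) := fun k hk =>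
    Real.log_pos (by exact_mod_cast hx2 k hk)
  have hlo : ∀ k, k ≤ I → c * Real.log (x k) / Real.log (zN N) ≤ Sg p (x k) := by
    intro k hk
    have h1 := h_SLO ι p (zN N) (XN N) (x k) B hR hz2 hB (le_trans (by norm_num) (hx2 k hk))
      (hxk k hk).2
    have h2 := (hV (zN N) hz2).1
    have h3 : cv / Real.log (zN N) * Real.log (x k) / 2 ≤
        ACP.V (zN N) * Real.log (x k) / 2 := by
      have := mul_le_mul_of_nonneg_right h2 (hlx k hk).le
      linarith
    calc c * Real.log (x k) / Real.log (zN N)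
        = cv / Real.log (zN N) * Real.log (x k) / 2 := by
          rw [hc]
          ring
      _ ≤ _ := h3
      _ ≤ _ := h1
  have hup : ∀ k, k ≤ I → Sg p (x k) ≤ C * Real.log (x k) / Real.log (zN N) := by
    intro k hk
    have h1 := h_SUP ι p (zN N) (x k) hpr hR.1 (hxk k hk).1
    have h2 := (hV (zN N) hz2).2
    have h3 := (hV (x k) (hx2 k hk)).1
    have h4 : 0 < cv / Real.log (x k) := div_pos hcv (hlx k hk)
    have hCv0 : 0 < Cv := lt_of_lt_of_le hcv hcC
    have h5 : ACP.V (zN N) / ACP.V (x k) ≤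
        (Cv / Real.log (zN N)) / (cv / Real.log (x k)) :=
      div_le_div₀ (by positivity) h2 h4 h3
    have h6 : (Cv / Real.log (zN N)) / (cv / Real.log (x k)) =
        (Cv / cv) * (Real.log (x k) / Real.log (zN N)) := by
      have := (hlx k hk).ne'
      field_simp
    have h7 : (Cv / cv) * (Real.log (x k) / Real.log (zN N)) ≤
        C * (Real.log (x k) / Real.log (zN N)) :=
      mul_le_mul_of_nonneg_right hCv (div_nonneg (hlx k hk).le hlz.le)
    calc Sg p (x k) ≤ ACP.V (zN N) / ACP.V (x k) := h1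
      _ ≤ _ := h5
      _ = _ := h6
      _ ≤ _ := h7
      _ = _ := by ring
  have hx0' : Real.log (x 0) ≤ Real.log N / 16 := by
    have h1 : (x 0 : ℝ) ≤ (N : ℝ) ^ ((1 : ℝ) / 16) := by
      rw [hx0]
      exact Nat.floor_le (Real.rpow_nonneg (Nat.cast_nonneg N) _)
    have h2 : (0 : ℝ) < x 0 := by
      have := hx2 0 (Nat.zero_le I)
      exact_mod_cast (by omega : 0 < x 0)
    have h3 := Real.log_le_log h2 h1
    rw [Real.log_rpow (by exact_mod_cast (by omega : 0 < N))] at h3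
    linarith
  have hChn : Chn p N (zN N) I x c C :=
    { c0 := hc0
      cC := hcC'
      I1 := hI
      z2 := hz2
      big := fun i => (hpr i).2
      zx := fun k hk => (hxk k hk).1
      dec := hxd
      lo := fun k hk => hlo k hk.le
      up := hup
      x0 := hx0' }
  obtain ⟨hnn, hem, hY1⟩ := h_YW0 ι p N (zN N) I x c C hChn
  refine ⟨⟨yw p I x, ⟨hnn, hem, hY1, h_YW2 ι p N (zN N) I x c C hChn,
    h_YW3 ι p N (zN N) I x c C hChn, h_YW4 ι p N (zN N) I x c C hChn⟩⟩, ?_⟩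
  intro E hE
  have h1 := h_DIS ι p (zN N) (XN N) E (fun i => (hpr i).2) (le_trans (by norm_num) hz2) hE
  have h2 := hlo 0 (Nat.zero_le I)
  rw [hx0] at h2
  have h3 : c * Real.log (XN N) / (2 * Real.log (zN N)) =
      (c * Real.log (XN N) / Real.log (zN N)) / 2 := by
    field_simp
  rw [h3]
  linarith

end Pool.Agent.ACQ
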