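import Pool.Agent.ACQ.Targets

set_option autoImplicit false

/-!
# ACQ, target YW0: the weight is nonnegative, vanishes at the empty set and has total mass one
-/

open Finset

namespace Pool.Agent.ACQ

namespace YW0_

/-- The blocks have positive mass. -/
theorem Mk_pos (h_MK : T_MK) {ι : Type} [Fintype ι] [DecidableEq ι] {p : ι → ℕ} {N z I : ℕ}
    {x : ℕ → ℕ} {c C : ℝ} (h : Chn p N z I x c C) (k : ℕ) (hk : k < I) : 0 < Mk p x k := by
  obtain ⟨h1, _, h3⟩ := h_MK ι p N z I x c C h k hk
  have hz : 0 < Real.log (z : ℝ) := by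
    apply Real.log_pos
    have := h.z2
    have h2 : (2 : ℝ) ≤ (z : ℝ) := by exact_mod_cast this
    linarith
  have hc := h.c0
  have h4 : 0 < c * Real.log (x k) / (2 * Real.log z) := by positivity
  linarith

/-- The mass of a block as a sum over all sets. -/
theorem Mk_eq {ι : Type} [Fintype ι] [DecidableEq ι] (p : ι → ℕ) (x : ℕ → ℕ) (k : ℕ) :
    ∑ D : Finset ι, (if x (k + 1) < pd p D ∧ pd p D ≤ x k then mm p D else 0) = Mk p x k := by
  unfold Mk
  rw [Finset.sum_filter]

end YW0_

theorem p_YW0 (h_MK : T_MK) : T_YW0 := by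
  intro ι _ _ p N z I x c C h
  have hM := YW0_.Mk_pos h_MK h
  have hI : (0 : ℝ) < (I : ℝ) := by
    have := h.I1
    exact_mod_cast this
  refine ⟨fun D => ?_, ?_, ?_⟩
  · unfold yw
    refine Finset.sum_nonneg fun k hk => ?_
    rw [Finset.mem_range] at hk
    have := hM k hk
    split_ifs
    · positivity
    · exact le_refl _
  · unfold yw
    refine Finset.sum_eq_zero fun k hk => ?_
    rw [Finset.mem_range] at hk
    rw [if_neg]
    rintro ⟨h1, _⟩
    have h2 := h.zx (k + 1) hk
    have h3 := h.z2
    unfold pd at h1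
    rw [Finset.prod_empty] at h1
    omega
  · unfold yw
    simp_rw [Finset.sum_mul]
    rw [Finset.sum_comm]
    have h1 : ∀ k ∈ range I, ∑ D : Finset ι,
        (if x (k + 1) < pd p D ∧ pd p D ≤ x k then 1 / ((I : ℝ) * Mk p x k) else 0) * mm p D =
        1 / (I : ℝ) := by
      intro k hk
      rw [Finset.mem_range] at hk
      have hMk := hM k hk
      have h2 : ∀ D : Finset ι,
          (if x (k + 1) < pd p D ∧ pd p D ≤ x k then 1 / ((I : ℝ) * Mk p x k) else 0) * mm p D =
          1 / ((I : ℝ) * Mk p x k) *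
            (if x (k + 1) < pd p D ∧ pd p D ≤ x k then mm p D else 0) := by
        intro D
        split_ifs
        · rfl
        · rw [zero_mul, mul_zero]
      rw [Finset.sum_congr rfl fun D _ => h2 D, ← Finset.mul_sum, YW0_.Mk_eq]
      field_simp
    rw [Finset.sum_congr rfl h1, Finset.sum_const, Finset.card_range, nsmul_eq_mul]
    field_simp

end Pool.Agent.ACQ
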