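import Pool.Agent.ACQ.Targets

set_option autoImplicit false

/-!
# ACQ, job YW2: the first moment of `tt` for the weight `yw`
-/

open Finset

namespace Pool.Agent.ACQ

namespace YW2_

theorem half {c C : ℝ} (c0 : 0 < c) (cC : c ≤ C) : c / (2 * C) ≤ 1 / 2 := by
  have hC : 0 < C := lt_of_lt_of_le c0 cC
  rw [div_le_div_iff₀ (by linarith) (by norm_num)]
  linarith

section

variable {ι : Type} [Fintype ι] [DecidableEq ι]

/-- The sum of the logarithms of the scales. -/
theorem sum_log {p : ι → ℕ} {N z I : ℕ} {x : ℕ → ℕ} {c C : ℝ} (h : Chn p N z I x c C)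
    (hpos : ∀ k, k < I → 0 < Real.log (x k)) :
    ∑ k ∈ range I, Real.log (x k) ≤ 2 * Real.log (x 0) := by
  have key : ∀ j, j ≤ I → ∑ k ∈ range j, Real.log (x k) ≤
      2 * Real.log (x 0) - 2 * Real.log (x j) := by
    intro j
    induction j with
    | zero => intro _; simp
    | succ j ih =>
      intro hj
      have hj' : j < I := hj
      have h1 := ih hj'.le
      have h2 := h.dec j hj'
      have h3 := mul_le_mul_of_nonneg_right (half h.c0 h.cC) (hpos j hj').le
      rw [sum_range_succ]
      linarith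
  have h1 := key I le_rfl
  have h2 : 0 ≤ Real.log (x I) := Real.log_natCast_nonneg _
  linarith

theorem mm_nonneg {p : ι → ℕ} (hp : ∀ i, 1 ≤ p i) (D : Finset ι) : 0 ≤ mm p D := by
  unfold mm
  refine prod_nonneg fun i _ => ?_
  have : (1 : ℝ) ≤ p i := by exact_mod_cast hp i
  exact div_nonneg zero_le_one (by linarith)

theorem tt_le {p : ι → ℕ} (hp : ∀ i, 1 ≤ p i) {N : ℕ} (hN : 0 < Real.log N) (D : Finset ι)
    {y : ℕ} (hy : pd p D ≤ y) : tt p N D ≤ Real.log y / Real.log N := by
  unfold tt
  refine div_le_div_of_nonneg_right ?_ hN.le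
  have h1 : ∑ i ∈ D, Real.log (p i) = Real.log ((pd p D : ℕ) : ℝ) := by
    unfold pd
    push_cast
    rw [Real.log_prod]
    intro i _
    have : (1 : ℝ) ≤ p i := by exact_mod_cast hp i
    linarith
  rw [h1]
  have h0 : 0 < pd p D := by
    unfold pd
    exact prod_pos fun i _ => hp i
  exact Real.log_le_log (by exact_mod_cast h0) (by exact_mod_cast hy)

end

end YW2_

open YW2_ in
/-- YW2. -/
theorem p_YW2 (h_MK : T_MK) : T_YW2 := by
  intro ι _ _ p N z I x c C h
  have hMK := h_MK ι p N z I x c C h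
  have hI : 0 < I := h.I1
  have hpos : ∀ k, k < I → 0 < Real.log (x k) := fun k hk => (hMK k hk).1
  have hp : ∀ i, 1 ≤ p i := fun i => by
    have := h.big i
    have := h.z2
    omega
  have hlz : 0 < Real.log z := by
    refine Real.log_pos ?_
    have := h.z2
    exact_mod_cast this
  have hN : 0 < Real.log N := by
    have h1 := h.x0
    have h2 := hpos 0 hI
    linarith
  have hM : ∀ k, k < I → 0 < Mk p x k := by
    intro k hk
    refine lt_of_lt_of_le ?_ (hMK k hk).2.2
    have := hpos k hk
    have := h.c0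
    positivity
  have hI0 : (0 : ℝ) < I := by exact_mod_cast hI
  -- exchange the sums
  have e1 : ∑ D, yw p I x D * mm p D * tt p N D = ∑ k ∈ range I, ∑ D,
      (if x (k + 1) < pd p D ∧ pd p D ≤ x k then
        1 / ((I : ℝ) * Mk p x k) * (mm p D * tt p N D) else 0) := by
    rw [sum_comm]
    refine sum_congr rfl fun D _ => ?_
    unfold yw
    rw [mul_assoc, sum_mul]
    refine sum_congr rfl fun k _ => ?_
    split_ifs
    · rfl
    · rw [zero_mul]
  have e2 : ∀ k ∈ range I, ∑ D, (if x (k + 1) < pd p D ∧ pd p D ≤ x k then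
        1 / ((I : ℝ) * Mk p x k) * (mm p D * tt p N D) else 0) ≤
      1 / (I : ℝ) * (Real.log (x k) / Real.log N) := by
    intro k hk
    have hk' := mem_range.mp hk
    have hMp := hM k hk'
    have hc : 0 ≤ 1 / ((I : ℝ) * Mk p x k) := by positivity
    calc ∑ D, (if x (k + 1) < pd p D ∧ pd p D ≤ x k then
          1 / ((I : ℝ) * Mk p x k) * (mm p D * tt p N D) else 0)
        ≤ ∑ D, (if x (k + 1) < pd p D ∧ pd p D ≤ x k then
          1 / ((I : ℝ) * Mk p x k) * (mm p D * (Real.log (x k) / Real.log N)) else 0) := by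
          refine sum_le_sum fun D _ => ?_
          split_ifs with hD
          · refine mul_le_mul_of_nonneg_left ?_ hc
            exact mul_le_mul_of_nonneg_left (tt_le hp hN D hD.2) (mm_nonneg hp D)
          · exact le_refl _
      _ = 1 / ((I : ℝ) * Mk p x k) * (Mk p x k * (Real.log (x k) / Real.log N)) := by
          rw [← sum_filter, ← mul_sum, ← sum_mul]
          rfl
      _ = 1 / (I : ℝ) * (Real.log (x k) / Real.log N) := by
          field_simp
  rw [e1]
  refine (sum_le_sum e2).trans ?_
  rw [← mul_sum, ← sum_div]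
  have h3 : (∑ k ∈ range I, Real.log (x k)) / Real.log N ≤ 1 / 8 := by
    rw [div_le_iff₀ hN]
    have h1 := sum_log h hpos
    have h2 := h.x0
    linarith
  calc 1 / (I : ℝ) * ((∑ k ∈ range I, Real.log (x k)) / Real.log N)
      ≤ 1 / (I : ℝ) * (1 / 8) := mul_le_mul_of_nonneg_left h3 (by positivity)
    _ = 1 / (8 * (I : ℝ)) := by
        field_simp

end Pool.Agent.ACQ
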