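import Pool.Agent.ACQ.Targets

set_option autoImplicit false

/-!
# ACQ: target YW3, the second moment of the weight
-/

open Finset

namespace Pool.Agent.ACQ

namespace YW3_

theorem mm_nonneg {ι : Type} (p : ι → ℕ) (z : ℕ) (hz : 2 ≤ z) (hb : ∀ i, z < p i)
    (D : Finset ι) : 0 ≤ mm p D := by
  refine prod_nonneg fun i _ => ?_
  have h1 : (2 : ℝ) < p i := by
    have := hb i
    exact_mod_cast lt_of_le_of_lt hz this
  apply div_nonneg zero_le_one
  linarith

theorem tt_eq {ι : Type} (p : ι → ℕ) (z N : ℕ) (hb : ∀ i, z < p i) (D : Finset ι) :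
    tt p N D = Real.log (pd p D : ℕ) / Real.log N := by
  unfold tt pd
  rw [Nat.cast_prod, Real.log_prod]
  intro i _
  have := hb i
  exact_mod_cast (by omega : p i ≠ 0)

theorem sq_sum {I : ℕ} (a : ℕ → ℝ) (P : ℕ → Prop) [DecidablePred P]
    (h : ∀ k < I, ∀ l < I, P k → P l → k = l) :
    (∑ k ∈ range I, if P k then a k else 0) ^ 2 =
      ∑ k ∈ range I, if P k then a k ^ 2 else 0 := by
  by_cases hP : ∃ k < I, P k
  · obtain ⟨k, hk, hPk⟩ := hP
    rw [sum_eq_single k, sum_eq_single k, if_pos hPk, if_pos hPk]
    · intro l hl hlk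
      rw [if_neg]
      intro hPl
      exact hlk (h l (mem_range.1 hl) k hk hPl hPk)
    · intro hk'
      exact absurd (mem_range.2 hk) hk'
    · intro l hl hlk
      rw [if_neg]
      intro hPl
      exact hlk (h l (mem_range.1 hl) k hk hPl hPk)
    · intro hk'
      exact absurd (mem_range.2 hk) hk'
  · push Not at hP
    rw [sum_eq_zero, sum_eq_zero]
    · norm_num
    · intro k hk
      rw [if_neg (hP k (mem_range.1 hk))]
    · intro k hk
      rw [if_neg (hP k (mem_range.1 hk))]

end YW3_

open YW3_

/-- Target YW3. -/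
theorem p_YW3 (h_MK : T_MK) : T_YW3 := by
  intro ι _ _ p N z I x c C hC
  have hMK := h_MK ι p N z I x c C hC
  have hI : (0 : ℝ) < I := by exact_mod_cast (lt_of_lt_of_le Nat.zero_lt_one hC.I1)
  have hlz : 0 < Real.log z := Real.log_pos (by exact_mod_cast (by have := hC.z2; omega : 1 < z))
  have hlN : 0 < Real.log N := by
    have h1 := (hMK 0 hC.I1).1
    have h2 := hC.x0
    linarith
  have hdec : ∀ k l, k < l → l ≤ I → x l < x k := by
    intro k l hkl hl
    induction l, hkl using Nat.le_induction with
    | base => exact (hMK k (by omega)).2.1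
    | succ l hkl ih =>
      exact lt_trans (hMK l (by omega)).2.1 (ih (by omega))
  have hdis : ∀ D : Finset ι, ∀ k < I, ∀ l < I, (x (k + 1) < pd p D ∧ pd p D ≤ x k) →
      (x (l + 1) < pd p D ∧ pd p D ≤ x l) → k = l := by
    intro D k hk l hl h1 h2
    by_contra hne
    rcases lt_or_gt_of_ne hne with hlt | hlt
    · have h3 : x l ≤ x (k + 1) := by
        rcases Nat.eq_or_lt_of_le (Nat.succ_le_of_lt hlt) with h4 | h4
        · rw [← h4]
        · exact (hdec (k + 1) l h4 hl.le).le
      omega
    · have h3 : x k ≤ x (l + 1) := by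
        rcases Nat.eq_or_lt_of_le (Nat.succ_le_of_lt hlt) with h4 | h4
        · rw [← h4]
        · exact (hdec (l + 1) k h4 hk.le).le
      omega
  have hsq : ∀ D : Finset ι, yw p I x D ^ 2 = ∑ k ∈ range I,
      if x (k + 1) < pd p D ∧ pd p D ≤ x k then (1 / ((I : ℝ) * Mk p x k)) ^ 2 else 0 :=
    fun D => sq_sum (fun k => 1 / ((I : ℝ) * Mk p x k))
      (fun k => x (k + 1) < pd p D ∧ pd p D ≤ x k) (hdis D)
  have hmm := mm_nonneg p z hC.z2 hC.big
  calc ∑ D, yw p I x D ^ 2 * mm p D * tt p N D
      = ∑ k ∈ range I, ∑ D, (if x (k + 1) < pd p D ∧ pd p D ≤ x k then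
          (1 / ((I : ℝ) * Mk p x k)) ^ 2 else 0) * mm p D * tt p N D := by
        rw [sum_comm]
        refine sum_congr rfl fun D _ => ?_
        rw [hsq, sum_mul, sum_mul]
    _ ≤ ∑ _k ∈ range I, 2 * Real.log z / (c * (I : ℝ) ^ 2 * Real.log N) := by
        refine sum_le_sum fun k hk => ?_
        have hk' := mem_range.1 hk
        obtain ⟨hx, -, hM⟩ := hMK k hk'
        have hMpos : 0 < Mk p x k := by
          refine lt_of_lt_of_le ?_ hM
          have := hC.c0
          positivity
        have h1 : ∑ D, (if x (k + 1) < pd p D ∧ pd p D ≤ x k then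
            (1 / ((I : ℝ) * Mk p x k)) ^ 2 else 0) * mm p D * tt p N D ≤
            ∑ D, (if x (k + 1) < pd p D ∧ pd p D ≤ x k then
              (1 / ((I : ℝ) * Mk p x k)) ^ 2 * (Real.log (x k) / Real.log N) * mm p D
              else 0) := by
          refine sum_le_sum fun D _ => ?_
          split_ifs with hD
          · have h2 : tt p N D ≤ Real.log (x k) / Real.log N := by
              rw [tt_eq p z N hC.big]
              apply div_le_div_of_nonneg_right _ hlN.le
              apply Real.log_le_log
              · have : 0 < pd p D := by omega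
                exact_mod_cast this
              · exact_mod_cast hD.2
            have h3 : 0 ≤ (1 / ((I : ℝ) * Mk p x k)) ^ 2 * mm p D :=
              mul_nonneg (sq_nonneg _) (hmm D)
            nlinarith [mul_le_mul_of_nonneg_left h2 h3]
          · simp
        refine h1.trans ?_
        rw [← sum_filter, ← mul_sum]
        have h4 : ∑ D ∈ (univ : Finset (Finset ι)).filter
            (fun D => x (k + 1) < pd p D ∧ pd p D ≤ x k), mm p D = Mk p x k := rfl
        rw [h4]
        have h5 : (1 / ((I : ℝ) * Mk p x k)) ^ 2 * (Real.log (x k) / Real.log N) * Mk p x k =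
            Real.log (x k) / ((I : ℝ) ^ 2 * Real.log N * Mk p x k) := by
          field_simp
        rw [h5, div_le_div_iff₀ (by positivity) (by have := hC.c0; positivity)]
        have h6 : c * Real.log (x k) ≤ 2 * Real.log z * Mk p x k := by
          rw [div_le_iff₀ (by positivity)] at hM
          linarith
        have h7 : 0 ≤ (I : ℝ) ^ 2 * Real.log N := by positivity
        nlinarith [mul_le_mul_of_nonneg_left h6 h7]
    _ = 2 * Real.log z / (c * I * Real.log N) := by
        rw [sum_const, card_range, nsmul_eq_mul]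
        have := hC.c0
        field_simp

end Pool.Agent.ACQ
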