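import Pool.Agent.ACQ.Targets

set_option autoImplicit false

/-!
# ACQ, target YW4: the weight of the sets which contain `i`
-/

open Finset

namespace Pool.Agent.ACQ

namespace YW4_

/-- `Sg (x k) ≤ (2 C / c) M_k` and `M_k > 0`. -/
theorem bound {ι : Type} [Fintype ι] [DecidableEq ι] (h_MK : T_MK) {p : ι → ℕ} {N z I : ℕ}
    {x : ℕ → ℕ} {c C : ℝ} (h : Chn p N z I x c C) {k : ℕ} (hk : k < I) :
    0 < Mk p x k ∧ Sg p (x k) ≤ 2 * C / c * Mk p x k := by
  obtain ⟨h1, -, h3⟩ := h_MK ι p N z I x c C h k hk
  have hz : (2 : ℝ) ≤ (z : ℝ) := by exact_mod_cast h.z2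
  have hlz : 0 < Real.log z := Real.log_pos (by linarith)
  have hc := h.c0
  have hC : 0 < C := lt_of_lt_of_le hc h.cC
  have hup := h.up k hk.le
  constructor
  · exact lt_of_lt_of_le (by positivity) h3
  · calc Sg p (x k) ≤ C * Real.log (x k) / Real.log z := hup
      _ = 2 * C / c * (c * Real.log (x k) / (2 * Real.log z)) := by field_simp
      _ ≤ 2 * C / c * Mk p x k := by
        apply mul_le_mul_of_nonneg_left h3
        positivity

end YW4_

/-- YW4. -/
theorem p_YW4 (h_MK : T_MK) (h_INC : T_INC) : T_YW4 := by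
  intro ι _ _ p N z I x c C h i
  have hc := h.c0
  have hC : 0 < C := lt_of_lt_of_le hc h.cC
  have hz : (2 : ℝ) ≤ (z : ℝ) := by exact_mod_cast h.z2
  have hI : (0 : ℝ) < (I : ℝ) := by
    have := h.I1
    exact_mod_cast (by omega : 0 < I)
  have hmm : ∀ D : Finset ι, 0 ≤ mm p D := by
    intro D
    apply Finset.prod_nonneg
    intro j _
    have h1 : (2 : ℝ) ≤ (p j : ℝ) := by
      have := h.big j
      have := h.z2
      exact_mod_cast (by omega : 2 ≤ p j)
    apply div_nonneg zero_le_one
    linarith
  calc ∑ D ∈ (univ : Finset (Finset ι)).filter (fun D => i ∈ D), yw p I x D * mm p D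
      = ∑ k ∈ range I, ∑ D ∈ (univ : Finset (Finset ι)).filter (fun D => i ∈ D),
          (if x (k + 1) < pd p D ∧ pd p D ≤ x k then 1 / ((I : ℝ) * Mk p x k) else 0) *
            mm p D := by
        rw [Finset.sum_comm]
        apply Finset.sum_congr rfl
        intro D _
        rw [yw, Finset.sum_mul]
    _ ≤ ∑ k ∈ range I, 1 / ((I : ℝ) * Mk p x k) * (Sg p (x k) / z) := by
        apply Finset.sum_le_sum
        intro k hk
        have hk' := Finset.mem_range.1 hk
        obtain ⟨hM, -⟩ := YW4_.bound h_MK h hk'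
        have hnn : 0 ≤ 1 / ((I : ℝ) * Mk p x k) := by positivity
        calc ∑ D ∈ (univ : Finset (Finset ι)).filter (fun D => i ∈ D),
            (if x (k + 1) < pd p D ∧ pd p D ≤ x k then 1 / ((I : ℝ) * Mk p x k) else 0) *
              mm p D
            ≤ ∑ D ∈ (univ : Finset (Finset ι)).filter (fun D => i ∈ D),
              (if pd p D ≤ x k then 1 / ((I : ℝ) * Mk p x k) * mm p D else 0) := by
              apply Finset.sum_le_sum
              intro D _
              have hp : 0 ≤ 1 / ((I : ℝ) * Mk p x k) * mm p D := mul_nonneg hnn (hmm D)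
              by_cases h1 : pd p D ≤ x k
              · by_cases h2 : x (k + 1) < pd p D
                · rw [if_pos ⟨h2, h1⟩, if_pos h1]
                · rw [if_neg (fun hh => h2 hh.1), if_pos h1, zero_mul]
                  exact hp
              · rw [if_neg (fun hh => h1 hh.2), if_neg h1, zero_mul]
          _ = 1 / ((I : ℝ) * Mk p x k) *
              ∑ D ∈ (univ : Finset (Finset ι)).filter (fun D => i ∈ D ∧ pd p D ≤ x k),
                mm p D := by
              rw [← Finset.sum_filter, Finset.filter_filter, Finset.mul_sum]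
          _ ≤ 1 / ((I : ℝ) * Mk p x k) * (Sg p (x k) / z) := by
              apply mul_le_mul_of_nonneg_left _ hnn
              exact h_INC ι p z (x k) h.big (by have := h.z2; omega) i
    _ ≤ ∑ k ∈ range I, 1 / (I : ℝ) * (2 * C / (c * z)) := by
        apply Finset.sum_le_sum
        intro k hk
        have hk' := Finset.mem_range.1 hk
        obtain ⟨hM, hS⟩ := YW4_.bound h_MK h hk'
        have hz0 : (0 : ℝ) < (z : ℝ) := by linarith
        have hnn : 0 ≤ 1 / ((I : ℝ) * Mk p x k) := by positivity
        calc 1 / ((I : ℝ) * Mk p x k) * (Sg p (x k) / z)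
            ≤ 1 / ((I : ℝ) * Mk p x k) * (2 * C / c * Mk p x k / z) := by
              apply mul_le_mul_of_nonneg_left _ hnn
              exact div_le_div_of_nonneg_right hS hz0.le
          _ = 1 / (I : ℝ) * (2 * C / (c * z)) := by
              field_simp
    _ = 2 * C / (c * z) := by
        rw [Finset.sum_const, Finset.card_range, nsmul_eq_mul]
        field_simp

end Pool.Agent.ACQ
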