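import Pool.Agent.ACQ.Targets

set_option autoImplicit false

/-!
# ACQ: target ZT
-/

open Finset

namespace Pool.Agent.ACQ

namespace ZT_

variable {ι σ : Type} [Fintype ι] [Fintype σ] [DecidableEq ι] [DecidableEq σ]

lemma tt_nonneg (p : ι → ℕ) (N : ℕ) (D : Finset ι) (hN : 2 ≤ N) (hp : ∀ i, 2 ≤ p i) :
    0 ≤ tt p N D := by
  unfold tt
  apply div_nonneg
  · apply sum_nonneg
    intro i _
    exact Real.log_natCast_nonneg _
  · exact Real.log_natCast_nonneg _

lemma mm_nonneg (p : ι → ℕ) (D : Finset ι) (hp : ∀ i, 2 ≤ p i) : 0 ≤ mm p D := by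
  unfold mm
  apply prod_nonneg
  intro i _
  have : (2 : ℝ) ≤ p i := by exact_mod_cast hp i
  apply div_nonneg zero_le_one
  linarith

lemma tt_sum (p : ι → ℕ) (N : ℕ) (ψ : ι → Option σ) :
    tt p N (spp ψ) = ∑ b, tt p N (cls ψ b) := by
  unfold tt
  rw [← sum_div]
  congr 1
  have h1 : spp ψ = (univ : Finset σ).biUnion (fun b => cls ψ b) := by
    ext i
    unfold spp cls
    simp only [mem_filter, mem_univ, true_and, mem_biUnion]
    constructor
    · intro h
      obtain ⟨b, hb⟩ := Option.ne_none_iff_exists'.1 h
      exact ⟨b, hb⟩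
    · rintro ⟨b, hb⟩
      rw [hb]
      exact Option.some_ne_none b
  rw [h1, sum_biUnion]
  intro b _ b' _ hbb
  rw [Function.onFun, disjoint_left]
  intro i hi hi'
  unfold cls at hi hi'
  rw [mem_filter] at hi hi'
  have := hi.2.symm.trans hi'.2
  exact hbb (Option.some_injective _ this)

end ZT_

theorem p_ZT (h_SPL : T_SPL) (h_UPD : T_UPD) : T_ZT := by
  classical
  intro ι σ _ _ _ _ p N y x hp hN
  have key : ∀ b : σ, (∑ ψ : ι → Option σ, if tt p N (spp ψ) ≤ x then
      tt p N (cls ψ b) * ((∏ b, vv y (cls ψ b) ^ 2) * mm p (spp ψ)) else 0) ≤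
      (∑ D, y D ^ 2 * mm p D * tt p N D) * ZZ σ p N y x := by
    intro b
    rw [h_SPL ι σ b]
    have hZ : ZZ σ p N y x = ∑ ψ : ι → Option σ, if tt p N (spp ψ) ≤ x then
        (∏ b, vv y (cls ψ b) ^ 2) * mm p (spp ψ) else 0 := by
      unfold ZZ
      rw [sum_filter]
    rw [hZ, mul_sum]
    have hT0 : ∀ ψ : ι → Option σ, 0 ≤ (if tt p N (spp ψ) ≤ x then
        (∏ b, vv y (cls ψ b) ^ 2) * mm p (spp ψ) else 0) := by
      intro ψ
      split_ifs
      · exact mul_nonneg (prod_nonneg fun _ _ => sq_nonneg _) (ZT_.mm_nonneg p _ hp)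
      · exact le_rfl
    have hY0 : ∀ D : Finset ι, 0 ≤ y D ^ 2 * mm p D * tt p N D := fun D =>
      mul_nonneg (mul_nonneg (sq_nonneg _) (ZT_.mm_nonneg p _ hp)) (ZT_.tt_nonneg p N D hN hp)
    calc _ ≤ ∑ ψ ∈ (univ : Finset (ι → Option σ)).filter (fun ψ => cls ψ b = ∅),
          (∑ D, y D ^ 2 * mm p D * tt p N D) * (if tt p N (spp ψ) ≤ x then
          (∏ b, vv y (cls ψ b) ^ 2) * mm p (spp ψ) else 0) := by
          apply sum_le_sum
          intro ψ hψ
          rw [mem_filter] at hψ
          rw [sum_mul]
          calc _ ≤ ∑ D ∈ (spp ψ)ᶜ.powerset, y D ^ 2 * mm p D * tt p N D *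
                (if tt p N (spp ψ) ≤ x then
                (∏ b, vv y (cls ψ b) ^ 2) * mm p (spp ψ) else 0) := by
                apply sum_le_sum
                intro D hD
                rw [mem_powerset] at hD
                obtain ⟨_, _, h3, _, _, h6, _, h8, _, h10⟩ := h_UPD ι σ p (fun _ => 0) N b ψ D
                  hψ.2 hD
                have hv := h10 (fun D => vv y D ^ 2) (by unfold vv; simp)
                by_cases hx : tt p N (spp (upd ψ D b)) ≤ x
                · have hx2 : tt p N (spp ψ) ≤ x := by
                    rw [h8] at hx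
                    have := ZT_.tt_nonneg p N D hN hp
                    linarith
                  rw [if_pos hx, if_pos hx2, h3, h6, hv]
                  rcases D.eq_empty_or_nonempty with h0 | h0
                  · rw [h0]
                    unfold tt
                    simp
                  · have hvv : vv y D ^ 2 = y D ^ 2 := by
                      unfold vv
                      rw [if_neg h0.ne_empty]
                      ring
                    rw [hvv]
                    apply le_of_eq
                    ring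
                · rw [if_neg hx]
                  exact mul_nonneg (hY0 D) (hT0 ψ)
            _ ≤ _ := by
                apply sum_le_sum_of_subset_of_nonneg (subset_univ _)
                intro D _ _
                exact mul_nonneg (hY0 D) (hT0 ψ)
      _ ≤ _ := by
          apply sum_le_sum_of_subset_of_nonneg (subset_univ _)
          intro ψ _ _
          exact mul_nonneg (sum_nonneg fun D _ => hY0 D) (hT0 ψ)
  rw [sum_filter]
  calc _ = ∑ b : σ, (∑ ψ : ι → Option σ, if tt p N (spp ψ) ≤ x then
      tt p N (cls ψ b) * ((∏ b, vv y (cls ψ b) ^ 2) * mm p (spp ψ)) else 0) := by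
        rw [sum_comm]
        apply sum_congr rfl
        intro ψ _
        split_ifs
        · rw [ZT_.tt_sum, sum_mul]
        · simp
    _ ≤ ∑ b : σ, (∑ D, y D ^ 2 * mm p D * tt p N D) * ZZ σ p N y x :=
        sum_le_sum fun b _ => key b
    _ = _ := by
        rw [sum_const, card_univ, nsmul_eq_mul]
        ring

end Pool.Agent.ACQ
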