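import Pool.Agent.ACQ.Targets

set_option autoImplicit false

/-!
# ACQ: doubling of the truncated sum (ZZ)
-/

open Finset

namespace Pool.Agent.ACQ

namespace ZZ_

variable {ι σ : Type} [Fintype ι] [Fintype σ] [DecidableEq ι] [DecidableEq σ]

/-- The terms of the sum. -/
noncomputable def ww (p : ι → ℕ) (y : Finset ι → ℝ) (ψ : ι → Option σ) : ℝ :=
  (∏ b, vv y (cls ψ b) ^ 2) * mm p (spp ψ)

theorem ww_nonneg (p : ι → ℕ) (hp : ∀ i, 2 ≤ p i) (y : Finset ι → ℝ) (ψ : ι → Option σ) :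
    0 ≤ ww p y ψ := by
  unfold ww mm
  refine mul_nonneg (Finset.prod_nonneg fun b _ => sq_nonneg _)
    (Finset.prod_nonneg fun i _ => ?_)
  have : (2 : ℝ) ≤ (p i : ℝ) := by exact_mod_cast hp i
  apply div_nonneg zero_le_one
  linarith

omit [Fintype ι] [DecidableEq ι] in
theorem tt_nonneg (p : ι → ℕ) (hp : ∀ i, 2 ≤ p i) (N : ℕ) (hN : 2 ≤ N) (D : Finset ι) :
    0 ≤ tt p N D := by
  unfold tt
  refine div_nonneg (Finset.sum_nonneg fun i _ => Real.log_nonneg ?_) (Real.log_nonneg ?_)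
  · have : 1 ≤ p i := le_trans (by norm_num) (hp i)
    exact_mod_cast this
  · have : 1 ≤ N := le_trans (by norm_num) hN
    exact_mod_cast this

open Classical in
theorem ZZ_eq (p : ι → ℕ) (N : ℕ) (y : Finset ι → ℝ) (x : ℝ) :
    ZZ σ p N y x = ∑ ψ ∈ (univ : Finset (ι → Option σ)).filter
      (fun ψ => tt p N (spp ψ) ≤ x), ww p y ψ := rfl

omit [Fintype σ] [DecidableEq ι] [DecidableEq σ] in
theorem spp_none : spp (fun _ => none : ι → Option σ) = ∅ := by
  unfold spp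
  simp

omit [Fintype σ] [DecidableEq ι] in
theorem cls_none (b : σ) : cls (fun _ => none : ι → Option σ) b = ∅ := by
  unfold cls
  simp

theorem ww_none (p : ι → ℕ) (y : Finset ι → ℝ) :
    ww p y (fun _ => none : ι → Option σ) = 1 := by
  unfold ww
  rw [spp_none]
  simp [cls_none, vv, mm]

open Classical in
theorem main (p : ι → ℕ) (hp : ∀ i, 2 ≤ p i) (N : ℕ) (hN : 2 ≤ N) (y : Finset ι → ℝ)
    (T E : ℝ) (hT : 0 < T) (hE : E ≤ T / 4)
    (h : ∑ ψ ∈ (univ : Finset (ι → Option σ)).filter (fun ψ => tt p N (spp ψ) ≤ T),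
      tt p N (spp ψ) * ww p y ψ ≤ E * ZZ σ p N y T) :
    ZZ σ p N y T ≤ 2 * ZZ σ p N y (T / 2) := by
  have h1 : ZZ σ p N y T - 2 / T * ∑ ψ ∈ (univ : Finset (ι → Option σ)).filter
      (fun ψ => tt p N (spp ψ) ≤ T), tt p N (spp ψ) * ww p y ψ ≤ ZZ σ p N y (T / 2) := by
    rw [ZZ_eq p N y T, ZZ_eq p N y (T / 2), Finset.mul_sum, ← Finset.sum_sub_distrib]
    have h2 : (univ : Finset (ι → Option σ)).filter (fun ψ => tt p N (spp ψ) ≤ T / 2) =
        ((univ : Finset (ι → Option σ)).filter (fun ψ => tt p N (spp ψ) ≤ T)).filter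
          (fun ψ => tt p N (spp ψ) ≤ T / 2) := by
      ext ψ
      simp only [Finset.mem_filter, Finset.mem_univ, true_and]
      constructor
      · intro h3
        exact ⟨by linarith, h3⟩
      · exact fun h3 => h3.2
    rw [h2, Finset.sum_filter (s := (univ : Finset (ι → Option σ)).filter
      (fun ψ => tt p N (spp ψ) ≤ T))]
    refine Finset.sum_le_sum fun ψ _ => ?_
    have hw := ww_nonneg p hp y ψ
    have ht := tt_nonneg p hp N hN (spp ψ)
    split_ifs with h3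
    · have : 0 ≤ 2 / T * (tt p N (spp ψ) * ww p y ψ) := by positivity
      linarith
    · push Not at h3
      have h4 : 1 ≤ 2 / T * tt p N (spp ψ) := by
        rw [div_mul_eq_mul_div, le_div_iff₀ hT]
        linarith
      have h5 : ww p y ψ ≤ 2 / T * tt p N (spp ψ) * ww p y ψ := by
        nlinarith
      rw [← mul_assoc]
      linarith
  have hZ : 0 ≤ ZZ σ p N y T := by
    rw [ZZ_eq]
    exact Finset.sum_nonneg fun ψ _ => ww_nonneg p hp y ψ
  have h6 : 2 / T * ∑ ψ ∈ (univ : Finset (ι → Option σ)).filter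
      (fun ψ => tt p N (spp ψ) ≤ T), tt p N (spp ψ) * ww p y ψ ≤ 2 / T * (T / 4 * ZZ σ p N y T) :=
    mul_le_mul_of_nonneg_left (h.trans (mul_le_mul_of_nonneg_right hE hZ)) (by positivity)
  have h7 : 2 / T * (T / 4 * ZZ σ p N y T) = ZZ σ p N y T / 2 := by
    field_simp
    ring
  linarith

theorem one_le (p : ι → ℕ) (hp : ∀ i, 2 ≤ p i) (N : ℕ) (y : Finset ι → ℝ)
    (x : ℝ) (hx : 0 ≤ x) : 1 ≤ ZZ σ p N y x := by
  classical
  rw [ZZ_eq, ← ww_none (σ := σ) p y]
  refine Finset.single_le_sum (f := fun ψ : ι → Option σ => ww p y ψ)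
    (fun ψ _ => ww_nonneg p hp y ψ) ?_
  rw [Finset.mem_filter]
  refine ⟨Finset.mem_univ _, ?_⟩
  rw [spp_none]
  simpa [tt] using hx

end ZZ_

open ZZ_ in
theorem p_ZZ (h_ZT : T_ZT) : T_ZZ := by
  intro ι σ _ _ _ _ p N y T hp hN hT hE
  exact ⟨main p hp N hN y T _ hT hE (h_ZT ι σ p N y T hp hN),
    one_le p hp N y (T / 2) (by positivity)⟩

end Pool.Agent.ACQ
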