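import Pool.Agent.ACQ.Final
import Pool.Agent.ACP.P_M1
import Pool.Agent.ACP.P_M2
import Pool.Agent.ACP.P_M3
import Pool.Agent.ACP.P_LS
import Pool.Agent.ACP.P_LQ
import Pool.Agent.ACQ.P_ABS
import Pool.Agent.ACQ.P_AS1
import Pool.Agent.ACQ.P_AS2
import Pool.Agent.ACQ.P_BAD
import Pool.Agent.ACQ.P_CLS
import Pool.Agent.ACQ.P_DIS
import Pool.Agent.ACQ.P_EQD
import Pool.Agent.ACQ.P_EXC
import Pool.Agent.ACQ.P_FIN
import Pool.Agent.ACQ.P_GRAM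
import Pool.Agent.ACQ.P_GRE
import Pool.Agent.ACQ.P_GRM
import Pool.Agent.ACQ.P_INC
import Pool.Agent.ACQ.P_LOC
import Pool.Agent.ACQ.P_MAIN
import Pool.Agent.ACQ.P_MK
import Pool.Agent.ACQ.P_OFF
import Pool.Agent.ACQ.P_PAIR
import Pool.Agent.ACQ.P_PS1
import Pool.Agent.ACQ.P_PS2
import Pool.Agent.ACQ.P_PSB
import Pool.Agent.ACQ.P_PSI
import Pool.Agent.ACQ.P_QF
import Pool.Agent.ACQ.P_SL1
import Pool.Agent.ACQ.P_SL2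
import Pool.Agent.ACQ.P_SLO
import Pool.Agent.ACQ.P_SMALL
import Pool.Agent.ACQ.P_SPL
import Pool.Agent.ACQ.P_SUM
import Pool.Agent.ACQ.P_SUP
import Pool.Agent.ACQ.P_SUY
import Pool.Agent.ACQ.P_SZ
import Pool.Agent.ACQ.P_UPD
import Pool.Agent.ACQ.P_UPP
import Pool.Agent.ACQ.P_UU1
import Pool.Agent.ACQ.P_UU2
import Pool.Agent.ACQ.P_UU3
import Pool.Agent.ACQ.P_VB
import Pool.Agent.ACQ.P_WTS
import Pool.Agent.ACQ.P_XCH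
import Pool.Agent.ACQ.P_YW0
import Pool.Agent.ACQ.P_YW2
import Pool.Agent.ACQ.P_YW3
import Pool.Agent.ACQ.P_YW4
import Pool.Agent.ACQ.P_ZT
import Pool.Agent.ACQ.P_ZZ

set_option autoImplicit false

/-!
# ACQ: assembly
-/

namespace Pool.Agent.ACQ

theorem all_VB : T_VB := p_VB (ACP.p_M3 (ACP.p_M2 ACP.p_M1))

theorem all_DIS : T_DIS := p_DIS p_INC

theorem all_SLO : T_SLO := p_SLO p_SL1 p_SL2 ACP.p_LS ACP.p_LQ

theorem all_WTS : T_WTS :=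
  p_WTS all_VB p_SUP all_SLO all_DIS (p_YW0 p_MK) (p_YW2 p_MK) (p_YW3 p_MK) (p_YW4 p_MK p_INC)
    p_XCH

theorem all_PAIR : T_PAIR := p_PAIR p_LOC (p_EQD p_CLS)

theorem all_GRM : T_GRM := p_GRM (p_GRAM all_PAIR p_OFF) p_SMALL

theorem all_PSB : T_PSB := p_PSB (p_PS1 p_UPD) p_PS2

theorem all_UPP : T_UPP :=
  p_UPP (p_UU1 p_SPL p_UPD) (p_UU2 p_SPL p_UPD) (p_UU3 p_SPL p_UPD) all_GRM

theorem all_MAIN : T_MAIN :=
  p_MAIN all_GRM (p_PSI p_SPL p_UPD) all_UPP (p_ZZ (p_ZT p_SPL p_UPD)) (p_QF all_PSB)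
    (p_SUY p_SUM all_PSB) p_ABS

theorem all_FIN : T_FIN :=
  p_FIN all_MAIN all_WTS p_GRE p_BAD (p_SZ all_VB) p_AS1 p_AS2 p_EXC p_SMALL

end Pool.Agent.ACQ
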