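import Mathlib
import Pool.Agent.ACP.Defs

set_option autoImplicit false

/-!
# ACQ: no additive complement of the primes has `A(N) = O(log N)` (MP_512c7d_nt). Definitions.

`ι` indexes the sieving primes `p i`, `σ` indexes the shifts `s b` (elements of `A`).
A labelled set is `ψ : ι → Option σ` (the prime `p i` is attached to the shift `s b` if
`ψ i = some b`).
-/

open Finset

namespace Pool.Agent.ACQ

section

variable {ι σ : Type} [Fintype ι] [Fintype σ] [DecidableEq ι] [DecidableEq σ]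

/-- Local function: `1` without label; with label `b`: `-1` if `n = s b` modulo `p i`, else
`1/(p i - 1)`. -/
noncomputable def chi (p : ι → ℕ) (s : σ → ℕ) (i : ι) (o : Option σ) (n : ℕ) : ℝ :=
  match o with
  | none => 1
  | some b => if n ≡ s b [MOD p i] then -1 else 1 / ((p i : ℝ) - 1)

/-- Mean value of `chi i o * chi i o'`. -/
noncomputable def EE (p : ι → ℕ) (i : ι) (o o' : Option σ) : ℝ :=
  match o, o' with
  | none, none => 1
  | some b, some b' => if b = b' then 1 / ((p i : ℝ) - 1) else -(1 / ((p i : ℝ) - 1) ^ 2)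
  | _, _ => 0

/-- `∏_{i ∈ D} 1/(p i - 1)` -/
noncomputable def mm (p : ι → ℕ) (D : Finset ι) : ℝ := ∏ i ∈ D, 1 / ((p i : ℝ) - 1)

/-- The product of the primes in `D`. -/
def pd (p : ι → ℕ) (D : Finset ι) : ℕ := ∏ i ∈ D, p i

/-- `log (∏_{i ∈ D} p i) / log N` -/
noncomputable def tt (p : ι → ℕ) (N : ℕ) (D : Finset ι) : ℝ :=
  (∑ i ∈ D, Real.log (p i)) / Real.log N

/-- The labelled primes. -/
def spp (ψ : ι → Option σ) : Finset ι := univ.filter fun i => ψ i ≠ none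

/-- The primes with label `b`. -/
def cls (ψ : ι → Option σ) (b : σ) : Finset ι := univ.filter fun i => ψ i = some b

/-- Add the label `a` on `D`. -/
def upd (ψ : ι → Option σ) (D : Finset ι) (a : σ) : ι → Option σ :=
  fun i => if i ∈ D then some a else ψ i

/-- The function on integers attached to coefficients `Y`. -/
noncomputable def VV (p : ι → ℕ) (s : σ → ℕ) (Y : (ι → Option σ) → ℝ) (n : ℕ) : ℝ :=
  ∑ ψ, Y ψ * ∏ i, chi p s i (ψ i) n

/-- The progression. -/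
def Ar (N W w : ℕ) : Finset ℕ := (Icc 1 N).filter fun n => n ≡ w [MOD W]

/-- `max 0 (1 - x/T)` -/
noncomputable def gg (T x : ℝ) : ℝ := max 0 (1 - x / T)

/-- `1` for the empty set, `-y D` otherwise. -/
noncomputable def vv (y : Finset ι → ℝ) (D : Finset ι) : ℝ := if D = ∅ then 1 else -y D

/-- The coefficients of the weight. -/
noncomputable def YY (p : ι → ℕ) (N : ℕ) (T : ℝ) (y : Finset ι → ℝ) (ψ : ι → Option σ) : ℝ :=
  gg T (tt p N (spp ψ)) * ∏ b, vv y (cls ψ b)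

/-- `Z(x)`. -/
noncomputable def ZZ (σ : Type) [Fintype σ] [DecidableEq σ] (p : ι → ℕ) (N : ℕ)
    (y : Finset ι → ℝ) (x : ℝ) : ℝ :=
  open Classical in
  ∑ ψ ∈ (univ : Finset (ι → Option σ)).filter (fun ψ => tt p N (spp ψ) ≤ x),
    (∏ b, vv y (cls ψ b) ^ 2) * mm p (spp ψ)

/-- `∑_{∏ D ≤ x} m(D)` -/
noncomputable def Sg (p : ι → ℕ) (x : ℕ) : ℝ :=
  ∑ D ∈ (univ : Finset (Finset ι)).filter (fun D => pd p D ≤ x), mm p D

/-- The primes `p i` are exactly the primes in `(z, X]` outside `B`. -/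
def Rng (p : ι → ℕ) (z X : ℕ) (B : Finset ℕ) : Prop :=
  Function.Injective p ∧ ∀ q : ℕ, (∃ i, p i = q) ↔ (q.Prime ∧ z < q ∧ q ≤ X ∧ q ∉ B)

/-- `∑_{D ∩ E = ∅, ∏ D ≤ R} m(D)` -/
noncomputable def SS (p : ι → ℕ) (R : ℕ) (E : Finset ι) : ℝ :=
  ∑ D ∈ (univ : Finset (Finset ι)).filter (fun D => Disjoint D E ∧ pd p D ≤ R), mm p D

/-- The standing assumptions on the primes `p i`, the shifts `s b` and the modulus `W`. -/
structure Good (p : ι → ℕ) (s : σ → ℕ) (W z : ℕ) : Prop where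
  pr : ∀ i, (p i).Prime
  inj : Function.Injective p
  big : ∀ i, z < p i
  z2 : 2 ≤ z
  W1 : 1 ≤ W
  cop : ∀ i, (p i).Coprime W
  dif : ∀ i b b', b ≠ b' → ¬ s b ≡ s b' [MOD p i]

/-- Properties of the weight `y`. -/
structure Wt (p : ι → ℕ) (N : ℕ) (y : Finset ι → ℝ) (e2 e3 e4 : ℝ) : Prop where
  nn : ∀ D, 0 ≤ y D
  em : y ∅ = 0
  Y1 : ∑ D, y D * mm p D = 1
  Y2 : ∑ D, y D * mm p D * tt p N D ≤ e2
  Y3 : ∑ D, y D ^ 2 * mm p D * tt p N D ≤ e3
  Y4 : ∀ i, ∑ D ∈ (univ : Finset (Finset ι)).filter (fun D => i ∈ D), y D * mm p D ≤ e4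

/-- Chain of scales `x 0 > x 1 > ... > x I ≥ z`. -/
structure Chn (p : ι → ℕ) (N z I : ℕ) (x : ℕ → ℕ) (c C : ℝ) : Prop where
  c0 : 0 < c
  cC : c ≤ C
  I1 : 1 ≤ I
  z2 : 2 ≤ z
  big : ∀ i, z < p i
  zx : ∀ k, k ≤ I → z ≤ x k
  dec : ∀ k, k < I → Real.log (x (k + 1)) ≤ c / (2 * C) * Real.log (x k)
  lo : ∀ k, k < I → c * Real.log (x k) / Real.log z ≤ Sg p (x k)
  up : ∀ k, k ≤ I → Sg p (x k) ≤ C * Real.log (x k) / Real.log z
  x0 : Real.log (x 0) ≤ Real.log N / 16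

/-- Mass of the block `x (k+1) < ∏ D ≤ x k`. -/
noncomputable def Mk (p : ι → ℕ) (x : ℕ → ℕ) (k : ℕ) : ℝ :=
  ∑ D ∈ (univ : Finset (Finset ι)).filter (fun D => x (k + 1) < pd p D ∧ pd p D ≤ x k), mm p D

/-- The weight: `1/(I M_k)` on the block `k`, `k < I`. -/
noncomputable def yw (p : ι → ℕ) (I : ℕ) (x : ℕ → ℕ) (D : Finset ι) : ℝ :=
  ∑ k ∈ range I, if x (k + 1) < pd p D ∧ pd p D ≤ x k then 1 / ((I : ℝ) * Mk p x k) else 0

/-- `M = ∏_{q ≤ z} q ∏_{q ∈ B, q > z} q`. -/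
def MB (z : ℕ) (B : Finset ℕ) : ℕ :=
  (∏ q ∈ ACP.pr z, q) * ∏ q ∈ B.filter (fun q => q.Prime ∧ z < q), q

/-- Coefficients after the label `a` has been summed out. -/
noncomputable def Psi (p : ι → ℕ) (Y : (ι → Option σ) → ℝ) (a : σ) (ψ : ι → Option σ) : ℝ :=
  if cls ψ a = ∅ then ∑ D ∈ (spp ψ)ᶜ.powerset, Y (upd ψ D a) * mm p D else 0

/-- Remove the label `a`. -/
def era (ψ : ι → Option σ) (a : σ) : ι → Option σ := fun i => if ψ i = some a then none else ψ i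

/-- Coefficients of Selberg's majorant. -/
noncomputable def UU (p : ι → ℕ) (R : ℕ) (a : σ) (F : (ι → Option σ) → ℝ)
    (φ : ι → Option σ) : ℝ :=
  if pd p (cls φ a) ≤ R then F (era φ a) / SS p R (spp (era φ a)) else 0

/-- The integers `n` of the progression such that every `n - s b` is divisible by some `p i`. -/
def GG (p : ι → ℕ) (s : σ → ℕ) (N W w : ℕ) : Finset ℕ :=
  (Ar N W w).filter fun n => ∀ b, ∃ i, n ≡ s b [MOD p i]

/-- The integers `n` of the progression such that `n - s a` is divisible by no `p i`. -/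
def FF (p : ι → ℕ) (s : σ → ℕ) (N W w : ℕ) (a : σ) : Finset ℕ :=
  (Ar N W w).filter fun n => ∀ i, ¬ n ≡ s a [MOD p i]

end

/-- `⌊√(log N)⌋` -/
noncomputable def yN (N : ℕ) : ℕ := ⌊Real.sqrt (Real.log N)⌋₊

/-- `⌊(log N)^10⌋` -/
noncomputable def zN (N : ℕ) : ℕ := ⌊Real.log N ^ 10⌋₊

/-- `⌊N^(1/16)⌋` -/
noncomputable def XN (N : ℕ) : ℕ := ⌊(N : ℝ) ^ ((1 : ℝ) / 16)⌋₊

end Pool.Agent.ACQ
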