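import Pool.Agent.ACQ.Targets

set_option autoImplicit false

/-!
# ACQ: from T_FIN to the frozen statement S16944.
-/

open Finset

namespace Pool.Agent.ACQ

/-- The negative answer to Q1, from `T_FIN`. -/
theorem not_log (h : T_FIN) :
    ¬ (∃ A : Set ℕ,
      (∃ M : ℕ, ∀ n : ℕ, M ≤ n → ∃ p a : ℕ, p.Prime ∧ a ∈ A ∧ n = p + a) ∧
      (∃ C : ℝ, ∃ N₀ : ℕ, ∀ N : ℕ, N₀ ≤ N →
        ((A ∩ Set.Icc 1 N).ncard : ℝ) ≤ C * Real.log N)) := by
  classical
  rintro ⟨A, ⟨M, hM⟩, C, N₀, hC⟩
  obtain ⟨N₁, hN₁⟩ := h C M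
  obtain ⟨n, hMn, hnN, hn⟩ := hN₁ (max N₀ N₁) (le_max_right _ _)
    ((Icc 0 (max N₀ N₁)).filter fun a => a ∈ A)
    (fun a ha => by
      rw [mem_filter, mem_Icc] at ha
      exact ha.1.2)
    (by
      have h1 := hC (max N₀ N₁) (le_max_left _ _)
      set N := max N₀ N₁ with hN
      have h2 : ((Icc 0 N).filter fun a => a ∈ A).card ≤ (A ∩ Set.Icc 1 N).ncard + 1 := by
        have h3 : (A ∩ Set.Icc 1 N).ncard = ((Icc 1 N).filter fun a => a ∈ A).card := by
          rw [← Set.ncard_coe_finset]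
          congr 1
          ext a
          simp only [Set.mem_inter_iff, Set.mem_Icc, coe_filter, mem_Icc]
          constructor
          · rintro ⟨h1, h2⟩
            exact ⟨h2, h1⟩
          · rintro ⟨h1, h2⟩
            exact ⟨h2, h1⟩
        rw [h3]
        calc ((Icc 0 N).filter fun a => a ∈ A).card
            ≤ (insert 0 ((Icc 1 N).filter fun a => a ∈ A)).card := by
              apply card_le_card
              intro a ha
              rw [mem_filter, mem_Icc] at ha
              rw [mem_insert, mem_filter, mem_Icc]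
              rcases Nat.eq_zero_or_pos a with h0 | h0
              · exact Or.inl h0
              · exact Or.inr ⟨⟨h0, ha.1.2⟩, ha.2⟩
          _ ≤ _ := card_insert_le _ _
      have h4 : ((((Icc 0 N).filter fun a => a ∈ A).card : ℕ) : ℝ) ≤
          ((A ∩ Set.Icc 1 N).ncard : ℝ) + 1 := by exact_mod_cast h2
      linarith)
  obtain ⟨p, a, hp, ha, hnpa⟩ := hM n hMn
  exact hn a (by
    rw [mem_filter, mem_Icc]
    exact ⟨⟨Nat.zero_le _, by omega⟩, ha⟩) p hp hnpa

end Pool.Agent.ACQ
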