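import Pool.Agent.ACQ.Targets

set_option autoImplicit false

/-!
# ACQ, T_GRAM: the Gram lemma
-/

open Finset

namespace Pool.Agent.ACQ

namespace GRAM_

variable {ι σ : Type} [Fintype ι] [Fintype σ] [DecidableEq ι] [DecidableEq σ]

/-- The correlation of the functions attached to `ψ` and `ψ'`. -/
noncomputable def PP (p : ι → ℕ) (s : σ → ℕ) (N W w : ℕ) (ψ ψ' : ι → Option σ) : ℝ :=
  ∑ n ∈ Ar N W w, (∏ i, chi p s i (ψ i) n) * ∏ i, chi p s i (ψ' i) n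

/-- The main term of the correlation. -/
noncomputable def EP (p : ι → ℕ) (ψ ψ' : ι → Option σ) : ℝ := ∏ i, EE p i (ψ i) (ψ' i)

lemma sum_sq (p : ι → ℕ) (s : σ → ℕ) (N W w : ℕ) (Y : (ι → Option σ) → ℝ) :
    ∑ n ∈ Ar N W w, VV p s Y n ^ 2 = ∑ ψ, ∑ ψ', Y ψ * Y ψ' * PP p s N W w ψ ψ' := by
  have h1 : ∀ n, VV p s Y n ^ 2 = ∑ ψ, ∑ ψ', Y ψ * Y ψ' *
      ((∏ i, chi p s i (ψ i) n) * ∏ i, chi p s i (ψ' i) n) := by
    intro n
    unfold VV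
    rw [pow_two, sum_mul_sum]
    refine sum_congr rfl fun ψ _ => sum_congr rfl fun ψ' _ => ?_
    ring
  rw [sum_congr rfl fun n _ => h1 n, sum_comm]
  refine sum_congr rfl fun ψ _ => ?_
  rw [sum_comm]
  refine sum_congr rfl fun ψ' _ => ?_
  unfold PP
  rw [mul_sum]

lemma EE_symm (p : ι → ℕ) (i : ι) (o o' : Option σ) : EE p i o o' = EE p i o' o := by
  cases o with
  | none => cases o' <;> rfl
  | some b =>
    cases o' with
    | none => rfl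
    | some b' =>
      unfold EE
      by_cases h : b = b'
      · subst h
        rfl
      · simp only [if_neg h, if_neg (Ne.symm h)]

lemma EP_symm (p : ι → ℕ) (ψ ψ' : ι → Option σ) : EP p ψ ψ' = EP p ψ' ψ :=
  prod_congr rfl fun i _ => EE_symm p i _ _

lemma EP_self (p : ι → ℕ) (ψ : ι → Option σ) : EP p ψ ψ = mm p (spp ψ) := by
  unfold EP mm spp
  rw [prod_filter]
  refine prod_congr rfl fun i _ => ?_
  cases h : ψ i with
  | none => simp [EE]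
  | some b => simp [EE]

lemma mm_nonneg {p : ι → ℕ} (hp : ∀ i, 2 ≤ p i) (D : Finset ι) : 0 ≤ mm p D := by
  unfold mm
  refine prod_nonneg fun i _ => ?_
  have h1 : (2 : ℝ) ≤ p i := by exact_mod_cast hp i
  have h2 : (0 : ℝ) ≤ (p i : ℝ) - 1 := by linarith
  positivity

end GRAM_

open GRAM_ in
/-- GRAM. The sum of squares of `VV` is nearly diagonal. -/
theorem p_GRAM (h_PAIR : T_PAIR) (h_OFF : T_OFF) : T_GRAM := by
  intro ι σ _ _ _ _ p s N W w z hG Y hA hB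
  have hp2 : ∀ i, 2 ≤ p i := fun i => (hG.pr i).two_le
  set K : ℝ := (N : ℝ) / W with hK
  have hK0 : 0 ≤ K := by positivity
  have hP : ∀ ψ ψ', |PP p s N W w ψ ψ' - K * EP p ψ ψ'| ≤
      (∏ i ∈ spp ψ, ((p i : ℝ) + 1) / ((p i : ℝ) - 1)) *
        ∏ i ∈ spp ψ', ((p i : ℝ) + 1) / ((p i : ℝ) - 1) :=
    fun ψ ψ' => h_PAIR ι σ p s N W w z hG ψ ψ'
  have hAn : ∀ ψ : ι → Option σ, 0 ≤ ∏ i ∈ spp ψ, ((p i : ℝ) + 1) / ((p i : ℝ) - 1) := by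
    intro ψ
    refine prod_nonneg fun i _ => ?_
    have h1 : (2 : ℝ) ≤ p i := by exact_mod_cast hp2 i
    have h2 : (0 : ℝ) ≤ (p i : ℝ) - 1 := by linarith
    positivity
  -- the error terms
  have herr : |∑ ψ, ∑ ψ', Y ψ * Y ψ' * (PP p s N W w ψ ψ' - K * EP p ψ ψ')| ≤
      4 * (∑ ψ, |Y ψ|) ^ 2 := by
    refine (abs_sum_le_sum_abs _ _).trans ?_
    have h1 : 4 * (∑ ψ, |Y ψ|) ^ 2 = ∑ ψ, ∑ ψ', 4 * (|Y ψ| * |Y ψ'|) := by
      rw [pow_two, sum_mul_sum, mul_sum]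
      exact sum_congr rfl fun ψ _ => mul_sum _ _ _
    rw [h1]
    refine sum_le_sum fun ψ _ => (abs_sum_le_sum_abs _ _).trans (sum_le_sum fun ψ' _ => ?_)
    rw [abs_mul, abs_mul]
    by_cases h2 : Y ψ = 0
    · simp [h2]
    · by_cases h3 : Y ψ' = 0
      · simp [h3]
      · have h4 : |PP p s N W w ψ ψ' - K * EP p ψ ψ'| ≤ 4 := by
          refine (hP ψ ψ').trans ?_
          calc _ ≤ (2 : ℝ) * 2 := mul_le_mul (hB ψ h2) (hB ψ' h3) (hAn ψ') (by norm_num)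
            _ = 4 := by norm_num
        calc |Y ψ| * |Y ψ'| * |PP p s N W w ψ ψ' - K * EP p ψ ψ'| ≤ |Y ψ| * |Y ψ'| * 4 :=
              mul_le_mul_of_nonneg_left h4 (by positivity)
          _ = 4 * (|Y ψ| * |Y ψ'|) := by ring
  -- the off-diagonal terms
  have hoffsum : ∀ ψ : ι → Option σ, Y ψ ≠ 0 →
      ∑ ψ' ∈ univ.erase ψ, |EP p ψ ψ'| ≤ 1 / 4 * mm p (spp ψ) := by
    intro ψ hψ
    have h1 := h_OFF ι σ p hp2 ψ
    have h2 : ∀ ψ' : ι → Option σ, |EP p ψ ψ'| = ∏ i, |EE p i (ψ i) (ψ' i)| := by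
      intro ψ'
      unfold EP
      exact abs_prod _ _
    have h3 : ∑ ψ' : ι → Option σ, |EP p ψ ψ'| ≤ mm p (spp ψ) * (5 / 4) := by
      rw [sum_congr rfl fun ψ' _ => h2 ψ']
      exact h1.trans (mul_le_mul_of_nonneg_left (hA ψ hψ) (mm_nonneg hp2 _))
    rw [← add_sum_erase univ _ (mem_univ ψ), EP_self, abs_of_nonneg (mm_nonneg hp2 _)] at h3
    linarith
  have hoff : |∑ ψ, ∑ ψ' ∈ univ.erase ψ, Y ψ * Y ψ' * EP p ψ ψ'| ≤
      1 / 4 * ∑ ψ, Y ψ ^ 2 * mm p (spp ψ) := by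
    refine (abs_sum_le_sum_abs _ _).trans ?_
    have h1 : ∑ ψ, |∑ ψ' ∈ univ.erase ψ, Y ψ * Y ψ' * EP p ψ ψ'| ≤
        ∑ ψ, ∑ ψ' ∈ univ.erase ψ, (Y ψ ^ 2 * |EP p ψ ψ'| + Y ψ' ^ 2 * |EP p ψ ψ'|) / 2 := by
      refine sum_le_sum fun ψ _ => (abs_sum_le_sum_abs _ _).trans (sum_le_sum fun ψ' _ => ?_)
      rw [abs_mul, abs_mul]
      have h2 : 2 * (|Y ψ| * |Y ψ'|) ≤ Y ψ ^ 2 + Y ψ' ^ 2 := by
        have := two_mul_le_add_sq (|Y ψ|) (|Y ψ'|)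
        rw [sq_abs, sq_abs] at this
        linarith
      have h3 := mul_le_mul_of_nonneg_right h2 (abs_nonneg (EP p ψ ψ'))
      linarith
    have hsw : ∑ ψ, ∑ ψ' ∈ univ.erase ψ, Y ψ' ^ 2 * |EP p ψ ψ'| =
        ∑ ψ, ∑ ψ' ∈ univ.erase ψ, Y ψ ^ 2 * |EP p ψ ψ'| := by
      have e1 : ∀ F : (ι → Option σ) → (ι → Option σ) → ℝ,
          ∑ ψ, ∑ ψ' ∈ univ.erase ψ, F ψ ψ' = ∑ ψ, ∑ ψ', if ψ' ≠ ψ then F ψ ψ' else 0 := by
        intro F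
        refine sum_congr rfl fun ψ _ => ?_
        rw [← sum_filter]
        refine sum_congr ?_ fun _ _ => rfl
        ext x
        simp
      rw [e1, e1, sum_comm]
      refine sum_congr rfl fun ψ _ => sum_congr rfl fun ψ' _ => ?_
      by_cases h : ψ = ψ'
      · simp [h]
      · rw [if_pos h, if_pos (Ne.symm h), EP_symm]
    have h4 : ∑ ψ, ∑ ψ' ∈ univ.erase ψ, (Y ψ ^ 2 * |EP p ψ ψ'| + Y ψ' ^ 2 * |EP p ψ ψ'|) / 2 =
        ∑ ψ, ∑ ψ' ∈ univ.erase ψ, Y ψ ^ 2 * |EP p ψ ψ'| := by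
      simp only [← sum_div, sum_add_distrib]
      rw [hsw]
      ring
    refine h1.trans (h4.le.trans ?_)
    rw [mul_sum]
    refine sum_le_sum fun ψ _ => ?_
    rw [← mul_sum]
    by_cases h5 : Y ψ = 0
    · simp [h5]
    · have h6 := mul_le_mul_of_nonneg_left (hoffsum ψ h5) (sq_nonneg (Y ψ))
      linarith
  -- the decomposition
  have hdec : (∑ n ∈ Ar N W w, VV p s Y n ^ 2) - K * ∑ ψ, Y ψ ^ 2 * mm p (spp ψ) =
      (∑ ψ, ∑ ψ', Y ψ * Y ψ' * (PP p s N W w ψ ψ' - K * EP p ψ ψ')) +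
        K * ∑ ψ, ∑ ψ' ∈ univ.erase ψ, Y ψ * Y ψ' * EP p ψ ψ' := by
    rw [sum_sq]
    have h1 : ∀ ψ, ∑ ψ', Y ψ * Y ψ' * EP p ψ ψ' = Y ψ ^ 2 * mm p (spp ψ) +
        ∑ ψ' ∈ univ.erase ψ, Y ψ * Y ψ' * EP p ψ ψ' := by
      intro ψ
      rw [← add_sum_erase univ _ (mem_univ ψ), EP_self]
      ring
    have h2 : ∑ ψ, ∑ ψ', Y ψ * Y ψ' * (PP p s N W w ψ ψ' - K * EP p ψ ψ') =
        (∑ ψ, ∑ ψ', Y ψ * Y ψ' * PP p s N W w ψ ψ') -
          K * ∑ ψ, ∑ ψ', Y ψ * Y ψ' * EP p ψ ψ' := by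
      rw [mul_sum, ← sum_sub_distrib]
      refine sum_congr rfl fun ψ _ => ?_
      rw [mul_sum, ← sum_sub_distrib]
      refine sum_congr rfl fun ψ' _ => ?_
      ring
    rw [h2, sum_congr rfl fun ψ _ => h1 ψ, sum_add_distrib]
    ring
  rw [hdec]
  refine (abs_add_le _ _).trans ?_
  rw [abs_mul, abs_of_nonneg hK0]
  have h7 := mul_le_mul_of_nonneg_left hoff hK0
  linarith

end Pool.Agent.ACQ
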