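import Pool.Agent.ACQ.Targets

set_option autoImplicit false

/-!
# ACQ: target SL2
-/

open Finset

namespace Pool.Agent.ACQ

namespace SL2_

lemma tot (Q : Finset ℕ) (h : ∀ q ∈ Q, q.Prime) :
    (Nat.totient (∏ q ∈ Q, q) : ℝ) / ((∏ q ∈ Q, q : ℕ) : ℝ) = ∏ q ∈ Q, (1 - 1 / (q : ℝ)) := by
  induction Q using Finset.induction_on with
  | empty => simp
  | insert a Q ha ih =>
    have ha' : a.Prime := h a (mem_insert_self a Q)
    have hQ : ∀ q ∈ Q, q.Prime := fun q hq => h q (mem_insert_of_mem hq)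
    have hcop : Nat.Coprime a (∏ q ∈ Q, q) := by
      apply Nat.Coprime.prod_right
      intro q hq
      apply (Nat.coprime_primes ha' (hQ q hq)).2
      rintro rfl
      exact ha hq
    rw [prod_insert ha, prod_insert ha, Nat.totient_mul hcop, Nat.totient_prime ha', ← ih hQ,
      Nat.cast_mul, Nat.cast_mul, Nat.cast_sub ha'.one_le, Nat.cast_one]
    have h0 : (a : ℝ) ≠ 0 := by exact_mod_cast ha'.ne_zero
    rw [mul_div_mul_comm]
    congr 1
    field_simp

lemma one_sub (T : Finset ℕ) (x : ℕ → ℝ) (h : ∀ q ∈ T, 0 ≤ x q ∧ x q ≤ 1) :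
    1 - ∑ q ∈ T, x q ≤ ∏ q ∈ T, (1 - x q) ∧ ∏ q ∈ T, (1 - x q) ≤ 1 ∧
      0 ≤ ∏ q ∈ T, (1 - x q) := by
  induction T using Finset.induction_on with
  | empty => simp
  | insert a T ha ih =>
    obtain ⟨h1, h2, h3⟩ := ih fun q hq => h q (mem_insert_of_mem hq)
    obtain ⟨h4, h5⟩ := h a (mem_insert_self a T)
    rw [sum_insert ha, prod_insert ha]
    refine ⟨by nlinarith, by nlinarith, mul_nonneg (by linarith) h3⟩

end SL2_

open SL2_ in
/-- SL2. -/
theorem p_SL2 : T_SL2 := by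
  intro z B hz hB
  set B' := B.filter fun q => q.Prime ∧ z < q with hB'
  have hdisj : Disjoint (ACP.pr z) B' := by
    rw [Finset.disjoint_left]
    intro q hq hq'
    rw [ACP.pr, mem_filter, mem_Icc] at hq
    rw [hB', mem_filter] at hq'
    omega
  have hM : MB z B = ∏ q ∈ ACP.pr z ∪ B', q := by
    rw [prod_union hdisj]
    rfl
  have hpr : ∀ q ∈ ACP.pr z ∪ B', q.Prime := by
    intro q hq
    rw [mem_union] at hq
    rcases hq with hq | hq
    · exact (mem_filter.1 hq).2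
    · exact (mem_filter.1 hq).2.1
  rw [hM, tot _ hpr, prod_union hdisj]
  have hV : 0 ≤ ∏ q ∈ ACP.pr z, (1 - 1 / (q : ℝ)) := by
    apply prod_nonneg
    intro q hq
    have h1 : (1 : ℝ) ≤ q := by exact_mod_cast (mem_filter.1 hq).2.one_le
    have h2 : 1 / (q : ℝ) ≤ 1 := by
      rw [div_le_one (by linarith)]
      exact h1
    linarith
  have hz0 : (0 : ℝ) < z := by exact_mod_cast (by omega : 0 < z)
  have hx : ∀ q ∈ B', (0 : ℝ) ≤ 1 / (q : ℝ) ∧ 1 / (q : ℝ) ≤ 1 / z := by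
    intro q hq
    have h1 := (mem_filter.1 hq).2.2
    have h2 : (z : ℝ) ≤ q := by exact_mod_cast h1.le
    refine ⟨by positivity, one_div_le_one_div_of_le hz0 h2⟩
  have hz1 : 1 / (z : ℝ) ≤ 1 := by
    rw [div_le_one hz0]
    exact_mod_cast (by omega : 1 ≤ z)
  obtain ⟨h1, -, -⟩ := one_sub B' (fun q => 1 / (q : ℝ)) fun q hq =>
    ⟨(hx q hq).1, (hx q hq).2.trans hz1⟩
  have h2 : ∑ q ∈ B', 1 / (q : ℝ) ≤ 1 / 2 := by
    calc ∑ q ∈ B', 1 / (q : ℝ) ≤ ∑ _q ∈ B', 1 / (z : ℝ) := sum_le_sum fun q hq => (hx q hq).2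
      _ = B'.card * (1 / z) := by rw [sum_const, nsmul_eq_mul]
      _ ≤ (z / 2) * (1 / z) := by
          apply mul_le_mul_of_nonneg_right _ (by positivity)
          have h3 : B'.card ≤ B.card := card_filter_le _ _
          have h4 : ((2 * B'.card : ℕ) : ℝ) ≤ z := by exact_mod_cast (by omega : 2 * B'.card ≤ z)
          push_cast at h4
          linarith
      _ = 1 / 2 := by field_simp
  have h3 : (1 : ℝ) / 2 ≤ ∏ q ∈ B', (1 - 1 / (q : ℝ)) := by linarith
  calc ACP.V z / 2 = (∏ q ∈ ACP.pr z, (1 - 1 / (q : ℝ))) * (1 / 2) := by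
        rw [ACP.V]
        ring
    _ ≤ _ := mul_le_mul_of_nonneg_left h3 hV

end Pool.Agent.ACQ
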