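import Pool.Agent.ACQ.Targets

set_option autoImplicit false

/-!
# ACQ: target XCH
-/

open Finset

namespace Pool.Agent.ACQ

namespace XCH_

/-- Half of the logarithm survives the floor. -/
lemma floor_log (y : ℝ) (hy : 4 ≤ y) : Real.log y / 2 ≤ Real.log (⌊y⌋₊ : ℝ) := by
  have h1 : y < (⌊y⌋₊ : ℝ) + 1 := Nat.lt_floor_add_one y
  have h2 : Real.sqrt y ≤ y / 2 := by
    rw [Real.sqrt_le_left (by linarith)]
    nlinarith
  have h3 : Real.sqrt y ≤ (⌊y⌋₊ : ℝ) := by linarith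
  have h4 : 0 < Real.sqrt y := Real.sqrt_pos.2 (by linarith)
  have h5 := Real.log_le_log h4 h3
  rwa [Real.log_sqrt (by linarith)] at h5

end XCH_

open XCH_ in
theorem p_XCH : T_XCH := by
  intro κ I hκ hκ1
  have hh : (0 : ℝ) < κ / 2 := by linarith
  have hh1 : κ / 2 ≤ 1 := by linarith
  have ha : ∀ k : ℕ, 0 < (κ / 2) ^ k * (1 / 16) := fun k => by positivity
  have hdec : ∀ k, k ≤ I → (κ / 2) ^ I * (1 / 16) ≤ (κ / 2) ^ k * (1 / 16) := fun k hk => by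
    have := pow_le_pow_of_le_one hh.le hh1 hk
    linarith
  have hup : ∀ k : ℕ, (κ / 2) ^ k * (1 / 16) ≤ (1 : ℝ) / 16 := fun k => by
    have := pow_le_one₀ hh.le hh1 (n := k)
    linarith
  have e1 : ∀ᶠ N : ℕ in Filter.atTop,
      Real.log (N : ℝ) ≤ (N : ℝ) ^ ((κ / 2) ^ I * (1 / 16) / 10) := by
    have h := (isLittleO_log_rpow_atTop
      (show (0 : ℝ) < (κ / 2) ^ I * (1 / 16) / 10 by have := ha I; positivity)).bound
      (show (0 : ℝ) < 1 by norm_num)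
    have h2 := tendsto_natCast_atTop_atTop.eventually h
    filter_upwards [h2, Filter.eventually_ge_atTop 1] with N hN h1
    rw [one_mul] at hN
    have h3 : (0 : ℝ) ≤ (N : ℝ) ^ ((κ / 2) ^ I * (1 / 16) / 10) := by positivity
    rw [Real.norm_of_nonneg h3] at hN
    exact (le_abs_self _).trans hN
  have e2 : ∀ᶠ N : ℕ in Filter.atTop, (4 : ℝ) ≤ (N : ℝ) ^ ((κ / 2) ^ I * (1 / 16)) :=
    tendsto_natCast_atTop_atTop.eventually
      ((tendsto_rpow_atTop (ha I)).eventually (Filter.eventually_ge_atTop 4))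
  obtain ⟨N₀, hN₀⟩ := Filter.eventually_atTop.1 ((e1.and e2).and (Filter.eventually_ge_atTop 1))
  refine ⟨N₀, fun N hN => ?_⟩
  obtain ⟨⟨h1, h2⟩, h3⟩ := hN₀ N hN
  have hN1 : (1 : ℝ) ≤ N := by exact_mod_cast h3
  have hN0 : (0 : ℝ) < N := by linarith
  have h4 : ∀ k, k ≤ I → (4 : ℝ) ≤ (N : ℝ) ^ ((κ / 2) ^ k * (1 / 16)) := fun k hk =>
    h2.trans (Real.rpow_le_rpow_of_exponent_le hN1 (hdec k hk))
  refine ⟨fun k => ⌊(N : ℝ) ^ ((κ / 2) ^ k * (1 / 16))⌋₊, ?_, ?_, ?_⟩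
  · simp only [XN, pow_zero, one_mul]
  · intro k hk
    constructor
    · unfold zN
      apply Nat.floor_le_floor
      calc Real.log N ^ 10 ≤ ((N : ℝ) ^ ((κ / 2) ^ I * (1 / 16) / 10)) ^ 10 :=
            pow_le_pow_left₀ (Real.log_nonneg hN1) h1 10
        _ = (N : ℝ) ^ ((κ / 2) ^ I * (1 / 16)) := by
            rw [← Real.rpow_natCast, ← Real.rpow_mul hN0.le]
            congr 1
            push_cast
            ring
        _ ≤ _ := Real.rpow_le_rpow_of_exponent_le hN1 (hdec k hk)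
    · unfold XN
      exact Nat.floor_le_floor (Real.rpow_le_rpow_of_exponent_le hN1 (hup k))
  · intro k hk
    have h5 := floor_log _ (h4 k hk.le)
    have h6 : (0 : ℝ) ≤ (N : ℝ) ^ ((κ / 2) ^ (k + 1) * (1 / 16)) := by positivity
    have h7 : 0 < ⌊(N : ℝ) ^ ((κ / 2) ^ (k + 1) * (1 / 16))⌋₊ :=
      Nat.floor_pos.2 (by linarith [h4 (k + 1) hk])
    have h8 : Real.log (⌊(N : ℝ) ^ ((κ / 2) ^ (k + 1) * (1 / 16))⌋₊ : ℝ) ≤
        Real.log ((N : ℝ) ^ ((κ / 2) ^ (k + 1) * (1 / 16))) :=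
      Real.log_le_log (by exact_mod_cast h7) (Nat.floor_le h6)
    rw [Real.log_rpow hN0] at h5 h8
    show Real.log (⌊(N : ℝ) ^ ((κ / 2) ^ (k + 1) * (1 / 16))⌋₊ : ℝ) ≤
      κ * Real.log (⌊(N : ℝ) ^ ((κ / 2) ^ k * (1 / 16))⌋₊ : ℝ)
    calc _ ≤ (κ / 2) ^ (k + 1) * (1 / 16) * Real.log N := h8
      _ = κ * ((κ / 2) ^ k * (1 / 16) * Real.log N / 2) := by ring
      _ ≤ _ := mul_le_mul_of_nonneg_left h5 hκ.le

end Pool.Agent.ACQ
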