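import Pool.Agent.ACQ.Defs

set_option autoImplicit false

/-!
# ACQ: targets (MP_512c7d_nt, frozen S16944). Every target has its proof in the docstring.
-/

open Finset

namespace Pool.Agent.ACQ

/-! ## Block A: sums over products of primes, the weight `y` -/

/-- VB. Mertens bounds. PROOF. `V y = exp (-G y)` (`ACP.V`, `ACP.G`). By `ACP.p_M3` (hypothesis
`ACP.T_M3`) with `κ = 1`: `|G y - G x₀ - (log log y - log log x₀)| ≤ 1` for `y ≥ x₀`. For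
`2 ≤ y ≤ x₀`: `V x₀ ≤ V y ≤ 1` and `log 2 ≤ log y ≤ log x₀`. -/
def T_VB : Prop := ∃ c C : ℝ, 0 < c ∧ c ≤ C ∧ ∀ y : ℕ, 2 ≤ y →
  c / Real.log y ≤ ACP.V y ∧ ACP.V y ≤ C / Real.log y

/-- SUP. PROOF. If `pd p D ≤ x` then `p i ≤ x` for all `i ∈ D` (`p i ∣ pd p D`, positive). So
`Sg p x ≤ ∑_{D ⊆ {i : p i ≤ x}} mm p D = ∏_{i : p i ≤ x} (1 + 1/(p i - 1))`
(`Finset.prod_one_add` or `prod_add_one`) and `1 + 1/(q - 1) = (1 - 1/q)⁻¹`; by injectivity this is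
at most `∏_{q ∈ pr x \ pr z} (1 - 1/q)⁻¹ = V z / V x` (all factors are `≥ 1`). -/
def T_SUP : Prop := ∀ (ι : Type) [Fintype ι] [DecidableEq ι] (p : ι → ℕ) (z x : ℕ),
  (∀ i, (p i).Prime ∧ z < p i) → Function.Injective p → z ≤ x →
  Sg p x ≤ ACP.V z / ACP.V x

/-- SL1. PROOF. `ACP.LQ M x` is the sum of `f2 m` over `m ≤ x` coprime to `M = MB z B`, and
`f2 m = 0` unless `m` is squarefree. For such `m` every prime factor `q` of `m` is `> z` (it does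
not divide `∏_{pr z}`), not in `B`, and `q ≤ m ≤ x ≤ X`; so `q = p i` for some `i` (`Rng`). Let
`D m = {i : p i ∣ m}`: `pd p (D m) = m` (`Nat.prod_primeFactors_of_squarefree`, `p` injective),
`φ(m) = ∏ (p i - 1)` (totient of a product of distinct primes), so `f2 m = mm p (D m)`. The map
`m ↦ D m` is injective, with values in the index set of `Sg p x`, and `mm ≥ 0`. -/
def T_SL1 : Prop := ∀ (ι : Type) [Fintype ι] [DecidableEq ι] (p : ι → ℕ) (z X x : ℕ)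
  (B : Finset ℕ), Rng p z X B → 2 ≤ z → x ≤ X → ACP.LQ (MB z B) x ≤ Sg p x

/-- SL2. PROOF. `MB z B` is a product of distinct primes (`pr z` and
`B' = {q ∈ B : q prime, q > z}`
are disjoint), so `φ(M)/M = ∏ (1 - 1/q) = V z ∏_{B'} (1 - 1/q)` and
`∏_{B'} (1 - 1/q) ≥ 1 - ∑_{B'} 1/q ≥ 1 - |B|/z ≥ 1/2` (induction). -/
def T_SL2 : Prop := ∀ (z : ℕ) (B : Finset ℕ), 2 ≤ z → 2 * B.card ≤ z →
  ACP.V z / 2 ≤ (Nat.totient (MB z B) : ℝ) / (MB z B : ℝ)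

/-- SLO. PROOF (uses T_SL1, T_SL2, ACP.T_LS, ACP.T_LQ).
`log x ≤ LQ 1 x ≤ (M/φ(M)) LQ M x ≤ (M/φ(M)) Sg p x` and `φ(M)/M ≥ V z/2`. -/
def T_SLO : Prop := ∀ (ι : Type) [Fintype ι] [DecidableEq ι] (p : ι → ℕ) (z X x : ℕ)
  (B : Finset ℕ), Rng p z X B → 2 ≤ z → 2 * B.card ≤ z → 1 ≤ x → x ≤ X →
  ACP.V z * Real.log x / 2 ≤ Sg p x

/-- INC. PROOF. `D ↦ D.erase i` is injective on `{D : i ∈ D}`, `mm D = mm (D.erase i)/(p i - 1)`,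
`pd (D.erase i) ≤ pd D ≤ x`, and `1/(p i - 1) ≤ 1/z`. -/
def T_INC : Prop := ∀ (ι : Type) [Fintype ι] [DecidableEq ι] (p : ι → ℕ) (z x : ℕ),
  (∀ i, z < p i) → 1 ≤ z → ∀ i,
  ∑ D ∈ (univ : Finset (Finset ι)).filter (fun D => i ∈ D ∧ pd p D ≤ x), mm p D ≤ Sg p x / z

/-- DIS. PROOF (uses T_INC). A set `D` which is not disjoint from `E` contains some `i ∈ E`, so
`Sg p x - SS p x E ≤ ∑_{i ∈ E} ∑_{D ∋ i, pd D ≤ x} mm D ≤ |E| Sg p x / z ≤ Sg p x / 2`. -/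
def T_DIS : Prop := ∀ (ι : Type) [Fintype ι] [DecidableEq ι] (p : ι → ℕ) (z x : ℕ)
  (E : Finset ι), (∀ i, z < p i) → 1 ≤ z → 2 * E.card ≤ z → Sg p x ≤ 2 * SS p x E

/-- MK. PROOF. From `zx`, `z2`: `log (x k) > 0`, from `dec` and `c/(2C) ≤ 1/2`:
`log (x (k+1)) ≤ log (x k)/2`, so `x (k+1) < x k`. `Mk = Sg (x k) - Sg (x (k+1))`, and by `lo`,
`up`, `dec` it is at least `(c log (x k) - C (c/(2C)) log (x k))/log z`. -/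
def T_MK : Prop := ∀ (ι : Type) [Fintype ι] [DecidableEq ι] (p : ι → ℕ) (N z I : ℕ)
  (x : ℕ → ℕ) (c C : ℝ), Chn p N z I x c C → ∀ k, k < I →
  0 < Real.log (x k) ∧ x (k + 1) < x k ∧
    c * Real.log (x k) / (2 * Real.log z) ≤ Mk p x k

/-- YW0. PROOF (uses T_MK: `Mk > 0`). Exchange the sums:
`∑_D yw D mm D = ∑_k (1/(I Mk)) Mk = 1`.
`yw ∅ = 0`: `pd p ∅ = 1 < 2 ≤ z ≤ x (k+1)` for `k < I`. -/
def T_YW0 : Prop := ∀ (ι : Type) [Fintype ι] [DecidableEq ι] (p : ι → ℕ) (N z I : ℕ)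
  (x : ℕ → ℕ) (c C : ℝ), Chn p N z I x c C →
  (∀ D, 0 ≤ yw p I x D) ∧ yw p I x ∅ = 0 ∧ ∑ D, yw p I x D * mm p D = 1

/-- YW2. PROOF (uses T_MK). On the block `k`: `tt p N D = log (pd p D)/log N ≤ log (x k)/log N`
(`Real.log_prod`; `log N > 0` because `log (x 0) ≤ log N/16`). So the sum is at most
`∑_{k<I} (1/I) log (x k)/log N`, `log (x k) ≤ 2^(-k) log (x 0)` (`c/(2C) ≤ 1/2`),
`∑ 2^(-k) ≤ 2`. -/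
def T_YW2 : Prop := ∀ (ι : Type) [Fintype ι] [DecidableEq ι] (p : ι → ℕ) (N z I : ℕ)
  (x : ℕ → ℕ) (c C : ℝ), Chn p N z I x c C →
  ∑ D, yw p I x D * mm p D * tt p N D ≤ 1 / (8 * (I : ℝ))

/-- YW3. PROOF (uses T_MK). The blocks are disjoint (`x` decreases on `[0, I]`), so
`yw D ^ 2 = ∑_k [D in block k]/(I Mk)^2`, and the sum is
`∑_k (1/(I Mk)^2) ∑_{block} mm tt ≤ ∑_k (1/(I^2 Mk)) log (x k)/log N ≤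
∑_k (1/I^2) (2 log z/(c log (x k))) log (x k)/log N = 2 log z/(c I log N)`. -/
def T_YW3 : Prop := ∀ (ι : Type) [Fintype ι] [DecidableEq ι] (p : ι → ℕ) (N z I : ℕ)
  (x : ℕ → ℕ) (c C : ℝ), Chn p N z I x c C →
  ∑ D, yw p I x D ^ 2 * mm p D * tt p N D ≤ 2 * Real.log z / (c * I * Real.log N)

/-- YW4. PROOF (uses T_MK, T_INC). The sum is at most `∑_k (1/(I Mk)) Sg (x k)/z` and
`Sg (x k)/Mk ≤ (C log (x k)/log z) (2 log z/(c log (x k))) = 2 C/c`. -/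
def T_YW4 : Prop := ∀ (ι : Type) [Fintype ι] [DecidableEq ι] (p : ι → ℕ) (N z I : ℕ)
  (x : ℕ → ℕ) (c C : ℝ), Chn p N z I x c C → ∀ i,
  ∑ D ∈ (univ : Finset (Finset ι)).filter (fun D => i ∈ D), yw p I x D * mm p D ≤
    2 * C / (c * z)

/-- XCH. PROOF. `K = ⌈2/κ⌉ + 1`, `x k = ⌊N^((1/16) K^(-k))⌋`. For large `N` all `x k`, `k ≤ I`, are
at least `(log N)^10 ≥ 2` and `log (x k) ≥ log (N^(...)) - log 2 ≥ (1/2)(1/16) K^(-k) log N`, while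
`log (x (k+1)) ≤ (1/16) K^(-k-1) log N ≤ κ (1/2)(1/16) K^(-k) log N`. -/
def T_XCH : Prop := ∀ (κ : ℝ) (I : ℕ), 0 < κ → κ ≤ 1 → ∃ N₀ : ℕ, ∀ N : ℕ, N₀ ≤ N →
  ∃ x : ℕ → ℕ, x 0 = XN N ∧ (∀ k, k ≤ I → zN N ≤ x k ∧ x k ≤ XN N) ∧
    ∀ k, k < I → Real.log (x (k + 1)) ≤ κ * Real.log (x k)

/-- WTS. The weights. PROOF (uses T_VB, T_SUP, T_SLO, T_DIS, T_MK, T_YW0, T_YW2, T_YW3, T_YW4,
T_XCH). With `cv, Cv` of T_VB: `Sg p x ≤ V z/V x ≤ (Cv/cv) log x/log z` for `2 ≤ z ≤ x`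
(T_SUP), `Sg p x ≥ V z log x/2 ≥ (cv/2) log x/log z` for `z ≤ x ≤ X` (T_SLO): take `c = cv/2`,
`C = max (Cv/cv) c` and `κ = c/(2C)` in T_XCH. Then `Chn p N z I x c C` holds (`x 0 = XN N ≤
N^(1/16)`), so `y = yw p I x` satisfies `Wt`. The last claim: `SS p X E ≥ Sg p X/2` by T_DIS. -/
def T_WTS : Prop := ∃ c C : ℝ, 0 < c ∧ c ≤ C ∧ ∀ I : ℕ, 1 ≤ I → ∃ N₀ : ℕ, ∀ N : ℕ, N₀ ≤ N →
  ∀ (ι : Type) [Fintype ι] [DecidableEq ι] (p : ι → ℕ) (B : Finset ℕ),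
  Rng p (zN N) (XN N) B → 2 * B.card ≤ zN N →
  (∃ y : Finset ι → ℝ, Wt p N y (1 / (8 * (I : ℝ)))
    (2 * Real.log (zN N) / (c * I * Real.log N)) (2 * C / (c * zN N))) ∧
  ∀ E : Finset ι, 2 * E.card ≤ zN N →
    c * Real.log (XN N) / (2 * Real.log (zN N)) ≤ SS p (XN N) E

/-! ## Block B: products of local functions in a progression -/

/-- CLS. PROOF. `Nat.count_modEq_card` or `Int`/`Nat` interval counting: each block of `q`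
consecutive integers contains exactly one `n ≡ b`, so the number is `⌊N/q⌋` or `⌊N/q⌋ + 1`. -/
def T_CLS : Prop := ∀ (N q b : ℕ), 0 < q →
  |(((Icc 1 N).filter fun n => n ≡ b [MOD q]).card : ℝ) - (N : ℝ) / q| ≤ 1

/-- EQD. PROOF (uses T_CLS). Expand the product over `i` of
`α i + ∑_b β i b 1[n ≡ s b] = ∑_{o : Option σ}` (`Finset.prod_univ_sum`,
`Fintype.sum_option`): a sum over `φ : ι → Option σ` of a coefficient times the indicator of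
`n ≡ s (φ i) [MOD p i]` for all `i` with `φ i ≠ none`. With `d` the product of these `p i`, by the
Chinese remainder theorem (`Nat.chineseRemainderOfFinset`; moduli pairwise coprime and coprime to
`W`) these `n` in `Ar N W w` form one class modulo `W d`, so their number is `N/(W d)` up to `1`.
Sum: main term `(N/W) ∑_φ coeff/d = (N/W) ∏ (...)`, error at most
`∑_φ |coeff| = ∏ (|α i| + ∑_b |β i b|)`. -/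
def T_EQD : Prop := ∀ (ι σ : Type) [Fintype ι] [DecidableEq ι] [Fintype σ] [DecidableEq σ]
  (p : ι → ℕ) (s : σ → ℕ) (N W w : ℕ) (α : ι → ℝ) (β : ι → σ → ℝ), 0 < W → (∀ i, 0 < p i) →
  (∀ i, (p i).Coprime W) → (∀ i j, i ≠ j → (p i).Coprime (p j)) →
  |(∑ n ∈ Ar N W w, ∏ i, (α i + ∑ b, β i b * (if n ≡ s b [MOD p i] then 1 else 0))) -
    (N : ℝ) / W * ∏ i, (α i + ∑ b, β i b / p i)| ≤ ∏ i, (|α i| + ∑ b, |β i b|)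

/-- LOC. PROOF. `q = p i ≥ 2`. Cases. `(none, none)`: `α = 1`, `β = 0`. `(some b, none)`:
`α = 1/(q-1)`, `β b = -q/(q-1)`. `(some b, some b)`: `α = 1/(q-1)^2`, `β b = 1 - 1/(q-1)^2`.
`(some b, some b')`, `b ≠ b'` (the two classes are disjoint by `dif`): `α = 1/(q-1)^2`,
`β b = β b' = -q/(q-1)^2`. In each case the mean `α + ∑ β/q` is `EE` and `|α| + ∑ |β|` is at most
`((q+1)/(q-1))` to the number of labels. -/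
def T_LOC : Prop := ∀ (ι σ : Type) [Fintype ι] [DecidableEq ι] [Fintype σ] [DecidableEq σ]
  (p : ι → ℕ) (s : σ → ℕ) (W z : ℕ), Good p s W z → ∀ (i : ι) (o o' : Option σ),
  ∃ (α : ℝ) (β : σ → ℝ),
    (∀ n : ℕ, chi p s i o n * chi p s i o' n =
      α + ∑ b, β b * (if n ≡ s b [MOD p i] then 1 else 0)) ∧
    α + ∑ b, β b / (p i : ℝ) = EE p i o o' ∧
    |α| + ∑ b, |β b| ≤ (if o = none then 1 else ((p i : ℝ) + 1) / ((p i : ℝ) - 1)) *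
      (if o' = none then 1 else ((p i : ℝ) + 1) / ((p i : ℝ) - 1))

/-- PAIR. PROOF (uses T_LOC, T_EQD). Choose `α i, β i` from LOC for `(ψ i, ψ' i)`
(`Finset.prod_mul_distrib`), then `∏_i (if ψ i = none then 1 else ..) = ∏_{i ∈ spp ψ} ..`
(`Finset.prod_ite`/`prod_filter`). Distinct primes are coprime. -/
def T_PAIR : Prop := ∀ (ι σ : Type) [Fintype ι] [DecidableEq ι] [Fintype σ] [DecidableEq σ]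
  (p : ι → ℕ) (s : σ → ℕ) (N W w z : ℕ), Good p s W z → ∀ (ψ ψ' : ι → Option σ),
  |(∑ n ∈ Ar N W w, (∏ i, chi p s i (ψ i) n) * ∏ i, chi p s i (ψ' i) n) -
    (N : ℝ) / W * ∏ i, EE p i (ψ i) (ψ' i)| ≤
  (∏ i ∈ spp ψ, ((p i : ℝ) + 1) / ((p i : ℝ) - 1)) *
    ∏ i ∈ spp ψ', ((p i : ℝ) + 1) / ((p i : ℝ) - 1)

/-- OFF. PROOF. `∑_{ψ'} ∏_i |EE i (ψ i) (ψ' i)| = ∏_i ∑_{o'} |EE i (ψ i) o'|`
(`Finset.prod_univ_sum`); for `ψ i = none` the factor is `1`; for `ψ i = some b` it is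
`1/(p-1) + (|σ|-1)/(p-1)^2 ≤ (1/(p-1)) (1 + |σ|/(p-1))`. -/
def T_OFF : Prop := ∀ (ι σ : Type) [Fintype ι] [DecidableEq ι] [Fintype σ] [DecidableEq σ]
  (p : ι → ℕ), (∀ i, 2 ≤ p i) → ∀ (ψ : ι → Option σ),
  ∑ ψ' : ι → Option σ, ∏ i, |EE p i (ψ i) (ψ' i)| ≤
    mm p (spp ψ) * ∏ i ∈ spp ψ, (1 + (Fintype.card σ : ℝ) / ((p i : ℝ) - 1))

/-- GRAM. PROOF (uses T_PAIR, T_OFF). `VV^2 = ∑_{ψ, ψ'} Y ψ Y ψ' (∏ chi)(∏ chi')`. Error: by PAIR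
and
`hB` at most `∑ |Y ψ| |Y ψ'| 2 * 2 = 4 (∑ |Y|)^2`. Main term: `∏_i EE i (ψ i) (ψ i) = mm (spp ψ)`
for `ψ' = ψ`; for `ψ' ≠ ψ`: `|Y ψ Y ψ'| ≤ (Y ψ^2 + Y ψ'^2)/2` and `EE` is symmetric, so the
off-diagonal sum is at most `∑_ψ Y ψ^2 ∑_{ψ' ≠ ψ} ∏ |EE|
≤ ∑_ψ Y ψ^2 mm (spp ψ) (5/4 - 1)` by OFF and `hA`. (In the AM-GM step keep only pairs with
`Y ψ ≠ 0` and `Y ψ' ≠ 0`, or note that the bound for `Y ψ = 0` is `0`.) -/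
def T_GRAM : Prop := ∀ (ι σ : Type) [Fintype ι] [DecidableEq ι] [Fintype σ] [DecidableEq σ]
  (p : ι → ℕ) (s : σ → ℕ) (N W w z : ℕ), Good p s W z → ∀ (Y : (ι → Option σ) → ℝ),
  (∀ ψ, Y ψ ≠ 0 → ∏ i ∈ spp ψ, (1 + (Fintype.card σ : ℝ) / ((p i : ℝ) - 1)) ≤ 5 / 4) →
  (∀ ψ, Y ψ ≠ 0 → ∏ i ∈ spp ψ, ((p i : ℝ) + 1) / ((p i : ℝ) - 1) ≤ 2) →
  |(∑ n ∈ Ar N W w, VV p s Y n ^ 2) - (N : ℝ) / W * ∑ ψ, Y ψ ^ 2 * mm p (spp ψ)| ≤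
    1 / 4 * ((N : ℝ) / W * ∑ ψ, Y ψ ^ 2 * mm p (spp ψ)) + 4 * (∑ ψ, |Y ψ|) ^ 2

/-- SMALL. PROOF. `2^|D| ≤ pd p D ≤ N` gives `|D| ≤ log N/log 2 ≤ 1.45 log N`
(`Real.log_two_gt_d9`).
`p i - 1 ≥ z`, so the first product is at most
`exp (m |D|/z) ≤ exp (0.145) ≤ 5/4` with `m = |σ|`, the second at most
`exp (2 |D|/z) ≤ exp (0.145) ≤ 2` (`1 + x ≤ exp x`). -/
def T_SMALL : Prop := ∀ (ι : Type) [Fintype ι] [DecidableEq ι] (p : ι → ℕ) (z N m : ℕ)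
  (D : Finset ι), (∀ i, z < p i) → 2 ≤ z → 2 ≤ N → 10 * ((m : ℝ) + 2) * Real.log N ≤ z →
  pd p D ≤ N → (∏ i ∈ D, (1 + (m : ℝ) / ((p i : ℝ) - 1)) ≤ 5 / 4) ∧
    (∏ i ∈ D, ((p i : ℝ) + 1) / ((p i : ℝ) - 1) ≤ 2) ∧ (D.card : ℝ) ≤ 2 * Real.log N

/-- GRM. PROOF (uses T_GRAM, T_SMALL): put together. -/
def T_GRM : Prop := ∀ (ι σ : Type) [Fintype ι] [DecidableEq ι] [Fintype σ] [DecidableEq σ]
  (p : ι → ℕ) (s : σ → ℕ) (N W w z : ℕ), Good p s W z → 2 ≤ N →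
  10 * ((Fintype.card σ : ℝ) + 2) * Real.log N ≤ z → ∀ (Y : (ι → Option σ) → ℝ),
  (∀ ψ, Y ψ ≠ 0 → pd p (spp ψ) ≤ N) →
  |(∑ n ∈ Ar N W w, VV p s Y n ^ 2) - (N : ℝ) / W * ∑ ψ, Y ψ ^ 2 * mm p (spp ψ)| ≤
    1 / 4 * ((N : ℝ) / W * ∑ ψ, Y ψ ^ 2 * mm p (spp ψ)) + 4 * (∑ ψ, |Y ψ|) ^ 2

/-! ## Block C: the weight `W(n) = VV p s (YY p N T y) n` -/

/-- SPL. PROOF. `φ ↦ (era φ a, cls φ a)` is a bijection from all `φ` to the pairs `(ψ, D)` with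
`cls ψ a = ∅`, `D ⊆ (spp ψ)ᶜ`; the inverse is `(ψ, D) ↦ upd ψ D a`. (`Finset.sum_sigma'`,
`Finset.sum_bij'`.) -/
def T_SPL : Prop := ∀ (ι σ : Type) [Fintype ι] [DecidableEq ι] [Fintype σ] [DecidableEq σ]
  (a : σ) (F : (ι → Option σ) → ℝ),
  ∑ φ, F φ = ∑ ψ ∈ (univ : Finset (ι → Option σ)).filter (fun ψ => cls ψ a = ∅),
    ∑ D ∈ (spp ψ)ᶜ.powerset, F (upd ψ D a)

/-- UPD. PROOF. Direct (pointwise in `i`; products over `i` split over `D` and its complement). -/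
def T_UPD : Prop := ∀ (ι σ : Type) [Fintype ι] [DecidableEq ι] [Fintype σ] [DecidableEq σ]
  (p : ι → ℕ) (s : σ → ℕ) (N : ℕ) (a : σ) (ψ : ι → Option σ) (D : Finset ι), cls ψ a = ∅ →
  D ⊆ (spp ψ)ᶜ →
  spp (upd ψ D a) = spp ψ ∪ D ∧ Disjoint (spp ψ) D ∧ cls (upd ψ D a) a = D ∧
  (∀ b, b ≠ a → cls (upd ψ D a) b = cls ψ b) ∧ era (upd ψ D a) a = ψ ∧
  mm p (spp (upd ψ D a)) = mm p (spp ψ) * mm p D ∧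
  pd p (spp (upd ψ D a)) = pd p (spp ψ) * pd p D ∧
  tt p N (spp (upd ψ D a)) = tt p N (spp ψ) + tt p N D ∧
  (∀ n, (∏ i, chi p s i (upd ψ D a i) n) =
    (∏ i, chi p s i (ψ i) n) * ∏ i ∈ D, chi p s i (some a) n) ∧
  ∀ v : Finset ι → ℝ, v ∅ = 1 → ∏ b, v (cls (upd ψ D a) b) = v D * ∏ b, v (cls ψ b)

/-- PSI. PROOF (uses T_SPL, T_UPD). SPL for `F φ = Y φ ∏ chi`; if no `p i` divides `n - s a` then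
`∏_{i ∈ D} chi p s i (some a) n = mm p D`. -/
def T_PSI : Prop := ∀ (ι σ : Type) [Fintype ι] [DecidableEq ι] [Fintype σ] [DecidableEq σ]
  (p : ι → ℕ) (s : σ → ℕ) (Y : (ι → Option σ) → ℝ) (a : σ) (n : ℕ),
  (∀ i, ¬ n ≡ s a [MOD p i]) → VV p s Y n = VV p s (Psi p Y a) n

/-- PS1. PROOF (uses T_UPD). In `Psi` the term `D = ∅` is `gg T (tt ψ) ∏ vv` (`upd ψ ∅ a = ψ`,
`mm p ∅ = 1`), the other terms are `gg T (tt ψ + tt D) (-y D) mm D ∏ vv`; `y ∅ = 0`, so the sum can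
be taken over all `D`. -/
def T_PS1 : Prop := ∀ (ι σ : Type) [Fintype ι] [DecidableEq ι] [Fintype σ] [DecidableEq σ]
  (p : ι → ℕ) (N : ℕ) (T : ℝ) (y : Finset ι → ℝ) (a : σ) (ψ : ι → Option σ), y ∅ = 0 →
  cls ψ a = ∅ → Psi p (YY p N T y) a ψ = (∏ b, vv y (cls ψ b)) *
    (gg T (tt p N (spp ψ)) -
      ∑ D ∈ (spp ψ)ᶜ.powerset, gg T (tt p N (spp ψ) + tt p N D) * (y D * mm p D))

/-- PS2. PROOF. `gg T t = gg T t ∑_D y mm` (`Y1`); so the difference is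
`∑_{D ⊆ Eᶜ} (gg T t - gg T (t + tt D)) y mm + gg T t ∑_{D not ⊆ Eᶜ} y mm`. The first sum is between
`0` and `∑ (tt D/T) y mm ≤ e2/T` (`gg` is decreasing and Lipschitz with constant `1/T`, `tt ≥ 0`),
the second between `0` and `∑_{i ∈ E} ∑_{D ∋ i} y mm ≤ |E| e4` (`0 ≤ gg ≤ 1`). -/
def T_PS2 : Prop := ∀ (ι : Type) [Fintype ι] [DecidableEq ι]
  (p : ι → ℕ) (N : ℕ) (T t : ℝ) (y : Finset ι → ℝ) (e2 e3 e4 : ℝ) (E : Finset ι),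
  (∀ i, 2 ≤ p i) → 2 ≤ N → Wt p N y e2 e3 e4 → 0 < T → 0 ≤ t →
  |gg T t - ∑ D ∈ Eᶜ.powerset, gg T (t + tt p N D) * (y D * mm p D)| ≤ e2 / T + E.card * e4

/-- PSB. PROOF (uses T_PS1, T_PS2). The second claim: `gg T x = 0` for `x ≥ T`. Third: `Psi = 0`
if `cls ψ a ≠ ∅`. -/
def T_PSB : Prop := ∀ (ι σ : Type) [Fintype ι] [DecidableEq ι] [Fintype σ] [DecidableEq σ]
  (p : ι → ℕ) (N : ℕ) (T : ℝ) (y : Finset ι → ℝ) (e2 e3 e4 : ℝ) (a : σ) (ψ : ι → Option σ),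
  (∀ i, 2 ≤ p i) → 2 ≤ N → Wt p N y e2 e3 e4 → 0 < T →
  (|Psi p (YY p N T y) a ψ| ≤ (e2 / T + (spp ψ).card * e4) * ∏ b, |vv y (cls ψ b)|) ∧
  (T ≤ tt p N (spp ψ) → Psi p (YY p N T y) a ψ = 0)

/-- UU1. PROOF (uses T_SPL, T_UPD). On `n` with no `p i` dividing `n - s a`:
`VV (UU F) n = ∑_{ψ : cls ψ a = ∅} F ψ/SS ψ ∏ chi ∑_{D ⊆ (spp ψ)ᶜ, pd D ≤ R} mm D` and the inner
sum is `SS p R (spp ψ)` (`> 0`: the term `D = ∅` is `1`, `1 ≤ R`). -/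
def T_UU1 : Prop := ∀ (ι σ : Type) [Fintype ι] [DecidableEq ι] [Fintype σ] [DecidableEq σ]
  (p : ι → ℕ) (s : σ → ℕ) (R : ℕ) (a : σ) (F : (ι → Option σ) → ℝ) (n : ℕ),
  (∀ i, 2 ≤ p i) → 1 ≤ R → (∀ ψ, F ψ ≠ 0 → cls ψ a = ∅) → (∀ i, ¬ n ≡ s a [MOD p i]) →
  VV p s F n = VV p s (UU p R a F) n

/-- UU2. PROOF (uses T_SPL, T_UPD). `∑_φ UU^2 mm = ∑_{ψ : cls ψ a = ∅} (F ψ/SS ψ)^2 mm ψ
∑_{D, pd D ≤ R} mm D = ∑ F ψ^2 mm ψ/SS ψ`. -/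
def T_UU2 : Prop := ∀ (ι σ : Type) [Fintype ι] [DecidableEq ι] [Fintype σ] [DecidableEq σ]
  (p : ι → ℕ) (R : ℕ) (a : σ) (F : (ι → Option σ) → ℝ),
  (∀ i, 2 ≤ p i) → 1 ≤ R → (∀ ψ, F ψ ≠ 0 → cls ψ a = ∅) →
  ∑ φ, UU p R a F φ ^ 2 * mm p (spp φ) =
    ∑ ψ, F ψ ^ 2 * mm p (spp ψ) / SS p R (spp ψ)

/-- UU3. PROOF (uses T_SPL, T_UPD). `∑_φ |UU φ| = ∑_ψ |F ψ|/SS ψ #{D ⊆ (spp ψ)ᶜ : pd D ≤ R}`,
`SS ≥ 1`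
(`D = ∅`) and the number of `D` is at most `R` because `pd p` is injective on sets of distinct
primes with values in `[1, R]`. Second claim: if `UU φ ≠ 0` then `pd (cls φ a) ≤ R`,
`F (era φ a) ≠ 0`, `pd (spp φ) = pd (spp (era φ a)) * pd (cls φ a)`. -/
def T_UU3 : Prop := ∀ (ι σ : Type) [Fintype ι] [DecidableEq ι] [Fintype σ] [DecidableEq σ]
  (p : ι → ℕ) (N R : ℕ) (a : σ) (F : (ι → Option σ) → ℝ),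
  (∀ i, (p i).Prime) → Function.Injective p → 1 ≤ R → (∀ ψ, F ψ ≠ 0 → cls ψ a = ∅) →
  (∑ φ, |UU p R a F φ| ≤ R * ∑ ψ, |F ψ|) ∧
  ((∀ ψ, F ψ ≠ 0 → pd p (spp ψ) * R ≤ N) → ∀ φ, UU p R a F φ ≠ 0 → pd p (spp φ) ≤ N)

/-- UPP. Selberg's upper bound. PROOF (uses T_UU1, T_UU2, T_UU3, T_GRM). On `FF` the two functions
`VV F`, `VV (UU F)` agree; extend the sum to `Ar` and use GRM (upper half) for `UU F`. -/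
def T_UPP : Prop := ∀ (ι σ : Type) [Fintype ι] [DecidableEq ι] [Fintype σ] [DecidableEq σ]
  (p : ι → ℕ) (s : σ → ℕ) (N W w z R : ℕ), Good p s W z → 2 ≤ N →
  10 * ((Fintype.card σ : ℝ) + 2) * Real.log N ≤ z → 1 ≤ R → ∀ (a : σ)
  (F : (ι → Option σ) → ℝ) (s0 : ℝ), 0 < s0 → (∀ ψ, F ψ ≠ 0 → s0 ≤ SS p R (spp ψ)) →
  (∀ ψ, F ψ ≠ 0 → cls ψ a = ∅) → (∀ ψ, F ψ ≠ 0 → pd p (spp ψ) * R ≤ N) →
  ∑ n ∈ FF p s N W w a, VV p s F n ^ 2 ≤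
    5 / 4 * ((N : ℝ) / W * ((∑ ψ, F ψ ^ 2 * mm p (spp ψ)) / s0)) +
      4 * ((R : ℝ) * ∑ ψ, |F ψ|) ^ 2

/-- ZT. PROOF (uses T_SPL, T_UPD). `tt (spp ψ) = ∑_b tt (cls ψ b)`. For each `b` apply SPL with
`a = b`: the terms are `tt D * vv D^2 * mm D * (∏_{b'} vv (cls ψ b')^2 mm (spp ψ))` with
`tt ψ + tt D ≤ x`, so `tt ψ ≤ x`, and `tt ∅ = 0`, `vv D^2 = y D^2` for `D ≠ ∅`; extend both sums
(all terms are `≥ 0`). -/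
def T_ZT : Prop := ∀ (ι σ : Type) [Fintype ι] [DecidableEq ι] [Fintype σ] [DecidableEq σ]
  (p : ι → ℕ) (N : ℕ) (y : Finset ι → ℝ) (x : ℝ), (∀ i, 2 ≤ p i) → 2 ≤ N →
  (open Classical in
    ∑ ψ ∈ (univ : Finset (ι → Option σ)).filter (fun ψ => tt p N (spp ψ) ≤ x),
      tt p N (spp ψ) * ((∏ b, vv y (cls ψ b) ^ 2) * mm p (spp ψ))) ≤
  (Fintype.card σ : ℝ) * (∑ D, y D ^ 2 * mm p D * tt p N D) * ZZ σ p N y x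

/-- ZZ. PROOF (uses T_ZT). `(T/2) (ZZ T - ZZ (T/2)) ≤ ∑_{T/2 < tt ≤ T} tt ∏ vv^2 mm ≤ (T/4) ZZ T`.
And
`ZZ x ≥ 1` for `x ≥ 0` (the term `ψ = none`), `ZZ` is monotone. -/
def T_ZZ : Prop := ∀ (ι σ : Type) [Fintype ι] [DecidableEq ι] [Fintype σ] [DecidableEq σ]
  (p : ι → ℕ) (N : ℕ) (y : Finset ι → ℝ) (T : ℝ), (∀ i, 2 ≤ p i) → 2 ≤ N → 0 < T →
  (Fintype.card σ : ℝ) * (∑ D, y D ^ 2 * mm p D * tt p N D) ≤ T / 4 →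
  ZZ σ p N y T ≤ 2 * ZZ σ p N y (T / 2) ∧ 1 ≤ ZZ σ p N y (T / 2)

/-- QF. PROOF (uses T_PSB). `gg T t ≥ 1/2` for `t ≤ T/2`. And
`Psi ψ^2 ≤ δ^2 ∏ vv^2` with `tt (spp ψ) ≤ T`, else `0`; if `tt (spp ψ) ≤ T` then
`log (pd (spp ψ)) ≤ T log N ≤ log N` and `pd ≥ 2^card`, so `card ≤ 2 log N`
(`log 2 ≥ 1/2`). (`e4 ≥ 0` follows from `Wt` as soon as `spp ψ` is non-empty.) -/
def T_QF : Prop := ∀ (ι σ : Type) [Fintype ι] [DecidableEq ι] [Fintype σ] [DecidableEq σ]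
  (p : ι → ℕ) (N : ℕ) (T : ℝ) (y : Finset ι → ℝ) (e2 e3 e4 δ : ℝ) (a : σ),
  (∀ i, 2 ≤ p i) → 2 ≤ N → Wt p N y e2 e3 e4 → 0 < T → T ≤ 1 →
  e2 / T ≤ δ → e2 / T + 2 * Real.log N * e4 ≤ δ →
  (1 / 4 * ZZ σ p N y (T / 2) ≤
    ∑ ψ : ι → Option σ, YY p N T y ψ ^ 2 * mm p (spp ψ)) ∧
  (∑ ψ : ι → Option σ, Psi p (YY p N T y) a ψ ^ 2 * mm p (spp ψ) ≤ δ ^ 2 * ZZ σ p N y T) ∧
  ∀ ψ : ι → Option σ, |Psi p (YY p N T y) a ψ| ≤ δ * ∏ b, |vv y (cls ψ b)|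

/-- SUM. PROOF. If `tt (spp ψ) ≤ T` then `pd (spp ψ) ≤ N^T`, so `1 ≤ N^T/pd (spp ψ)` and
`pd (spp ψ) = ∏_b pd (cls ψ b)`; the sum is at most `N^T ∑_ψ ∏_b |vv (cls ψ b)|/pd (cls ψ b)`. The
map
`ψ ↦ (b ↦ cls ψ b)` is injective, so this is at most `N^T (∑_D |vv D|/pd D)^|σ|`
(`Finset.prod_univ_sum`) and `∑_D |vv D|/pd D ≤ 1 + ∑_D y D mm D = 2` (`1/p ≤ 1/(p-1)`,
`y ∅ = 0`). -/
def T_SUM : Prop := ∀ (ι σ : Type) [Fintype ι] [DecidableEq ι] [Fintype σ] [DecidableEq σ]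
  (p : ι → ℕ) (N : ℕ) (T : ℝ) (y : Finset ι → ℝ) (e2 e3 e4 : ℝ), (∀ i, 2 ≤ p i) → 2 ≤ N →
  Wt p N y e2 e3 e4 →
  (open Classical in
    ∑ ψ ∈ (univ : Finset (ι → Option σ)).filter (fun ψ => tt p N (spp ψ) ≤ T),
      ∏ b, |vv y (cls ψ b)|) ≤ (N : ℝ) ^ T * 2 ^ Fintype.card σ

/-- SUY. PROOF (uses T_SUM, T_PSB). `|YY ψ| ≤ ∏ |vv|` (`0 ≤ gg ≤ 1`) and `YY ψ = 0` for
`tt ψ ≥ T`; `|Psi ψ| ≤ ∏ |vv|` by the hypothesis and `Psi ψ = 0` for `tt ψ ≥ T`. If `YY ψ ≠ 0` or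
`Psi ψ ≠ 0` then `tt (spp ψ) ≤ T`, so `pd (spp ψ) ≤ N^T`. -/
def T_SUY : Prop := ∀ (ι σ : Type) [Fintype ι] [DecidableEq ι] [Fintype σ] [DecidableEq σ]
  (p : ι → ℕ) (N : ℕ) (T : ℝ) (y : Finset ι → ℝ) (e2 e3 e4 : ℝ), (∀ i, 2 ≤ p i) → 2 ≤ N →
  Wt p N y e2 e3 e4 → 0 < T →
  (∑ ψ : ι → Option σ, |YY p N T y ψ| ≤ (N : ℝ) ^ T * 2 ^ Fintype.card σ) ∧
  (∀ ψ : ι → Option σ, YY p N T y ψ ≠ 0 → (pd p (spp ψ) : ℝ) ≤ (N : ℝ) ^ T) ∧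
  ∀ a : σ, (∀ ψ : ι → Option σ, |Psi p (YY p N T y) a ψ| ≤ ∏ b, |vv y (cls ψ b)|) →
    (∑ ψ : ι → Option σ, |Psi p (YY p N T y) a ψ| ≤ (N : ℝ) ^ T * 2 ^ Fintype.card σ) ∧
    ∀ ψ : ι → Option σ, Psi p (YY p N T y) a ψ ≠ 0 →
      cls ψ a = ∅ ∧ (pd p (spp ψ) : ℝ) ≤ (N : ℝ) ^ T

/-- ABS. PROOF. `|chi| ≤ 1` (`p i ≥ 2`), so `|∏ chi| ≤ 1`. -/
def T_ABS : Prop := ∀ (ι σ : Type) [Fintype ι] [DecidableEq ι] [Fintype σ] [DecidableEq σ]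
  (p : ι → ℕ) (s : σ → ℕ) (Y : (ι → Option σ) → ℝ) (n : ℕ), (∀ i, 2 ≤ p i) →
  |VV p s Y n| ≤ ∑ ψ, |Y ψ|

/-- MAIN. PROOF (uses T_GRM, T_PSI, T_UPP, T_ZZ, T_QF, T_SUY, T_ABS). `T = 1/8`, `Y = YY`,
`A = N^(1/8) 2^|σ|`, `Z = ZZ (1/16) ≥ 1`, `ZZ (1/8) ≤ 2 Z`. Every `n` of `Ar` outside `GG` lies in
`FF a`
for some `a`, so `∑_{Ar} VV^2 - ∑_a ∑_{FF a} VV^2 ≤ ∑_{GG} VV^2 ≤ #GG A^2`. GRM:
`∑_{Ar} VV^2 ≥ (3/4)(N/W)(1/4) Z - 4 A^2`. For each `a`, by PSI `VV Y = VV (Psi Y a)` on `FF a`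
and UPP with `F = Psi Y a` (`pd R ≤ N^(1/8) N^(1/16) ≤ N`):
`∑_{FF a} VV^2 ≤ (5/4)(N/W) δ^2 ZZ (1/8)/s0 + 4 (N^(1/16) A)^2`. Since `20 |σ| δ^2 ≤ s0`,
`|σ| (5/4) δ^2 (2 Z)/s0 ≤ Z/8`; so `#GG A^2 ≥ (N/W) Z (3/16 - 1/8) - 4 A^2 -
4 |σ| (N^(3/16) 2^|σ|)^2`. -/
def T_MAIN : Prop := ∀ (ι σ : Type) [Fintype ι] [DecidableEq ι] [Fintype σ] [DecidableEq σ]
  (p : ι → ℕ) (s : σ → ℕ) (N W w z R : ℕ) (y : Finset ι → ℝ) (e2 e3 e4 δ s0 : ℝ),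
  Good p s W z → Wt p N y e2 e3 e4 → 2 ≤ N →
  10 * ((Fintype.card σ : ℝ) + 2) * Real.log N ≤ z → 1 ≤ R →
  (R : ℝ) ≤ (N : ℝ) ^ ((1 : ℝ) / 16) → (Fintype.card σ : ℝ) * e3 ≤ 1 / 32 → 8 * e2 ≤ δ →
  8 * e2 + 2 * Real.log N * e4 ≤ δ → δ ≤ 1 → 0 < s0 →
  (∀ E : Finset ι, pd p E ≤ N → s0 ≤ SS p R E) → 20 * (Fintype.card σ : ℝ) * δ ^ 2 ≤ s0 →
  (N : ℝ) / W / 16 ≤
    ((GG p s N W w).card + 4) * ((N : ℝ) ^ ((1 : ℝ) / 8) * 2 ^ Fintype.card σ) ^ 2 +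
    4 * (Fintype.card σ : ℝ) * ((N : ℝ) ^ ((3 : ℝ) / 16) * 2 ^ Fintype.card σ) ^ 2

/-! ## Block D: the final deduction -/

/-- GRE. PROOF (uses ACP.T_GR1 for `S = A`, `y`). `W = ∏_{q ∈ pr y} q ≤ 4^y`
(`primorial_le_four_pow`), `w ≡ r q` for all these `q` (`Nat.chineseRemainderOfFinset`);
`S` the survivors.
If `a ∈ A \ S` then `a ≡ r q ≡ w ≡ n [MOD q]` for some `q`. -/
def T_GRE : Prop := ∀ (A : Finset ℕ) (y : ℕ), ∃ (W w : ℕ) (S : Finset ℕ), S ⊆ A ∧ 1 ≤ W ∧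
  W ≤ 4 ^ y ∧ (∀ q : ℕ, q.Prime → y < q → q.Coprime W) ∧ (S.card : ℝ) ≤ A.card * ACP.V y ∧
  ∀ a ∈ A, a ∉ S → ∀ n : ℕ, n ≡ w [MOD W] → ∃ q : ℕ, q.Prime ∧ q ≤ y ∧ n ≡ a [MOD q]

/-- BAD. PROOF. For each pair `b < b'` of `S` the number of primes `q ≥ 3` dividing `b' - b ≤ N`
is at
most `log N` (`3^k ≤ N`, `log 3 ≥ 1`). -/
def T_BAD : Prop := ∀ (S : Finset ℕ) (N z X : ℕ), (∀ a ∈ S, a ≤ N) → 2 ≤ z → 2 ≤ N →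
  ∃ B : Finset ℕ, (B.card : ℝ) ≤ (S.card : ℝ) ^ 2 * Real.log N ∧
    ∀ q : ℕ, q.Prime → z < q → q ≤ X → q ∉ B → ∀ b ∈ S, ∀ b' ∈ S, b ≠ b' → ¬ b ≡ b' [MOD q]

/-- SZ. PROOF (uses T_VB). `V y ≤ Cv/log y`, `y = ⌊√L⌋ ≥ L^(1/4)` for large `L = log N`, so
`log y ≥ (1/4) log L`; `(C L + 1) 4 Cv/log L ≤ C₁ L/log L`, `C₁ = 4 Cv (C + 1)` (for `C < 0` the
left side is at most the one for `C = 0`). -/
def T_SZ : Prop := ∀ C : ℝ, ∃ C₁ : ℝ, 1 ≤ C₁ ∧ ∃ N₀ : ℕ, ∀ N : ℕ, N₀ ≤ N →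
  (C * Real.log N + 1) * ACP.V (yN N) ≤ C₁ * (Real.log N / Real.log (Real.log N))

/-- AS1. PROOF. Elementary asymptotics, `L = log N`: `z = ⌊L^10⌋ ≥ L^10/2`,
`m ≤ C₁ L/log L ≤ C₁ L`,
`10 (C₁ L + 2) L`, `2 (C₁ L)^2 L`, `4 L + 2` are `≤ L^10/2`; `log z ≤ 10 log L`; `X ≥ N^(1/16)/2`,
so
`log X ≥ L/16 - log 2 ≥ L/32`; `2 L (2C/(c z)) ≤ 8 C/(c L^9) ≤ 1/I`; `L^10 ≤ N^(1/16) - 1`. -/
def T_AS1 : Prop := ∀ (C₁ c C : ℝ) (I : ℕ), 1 ≤ C₁ → 0 < c → c ≤ C → 1 ≤ I →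
  ∃ N₀ : ℕ, ∀ N : ℕ, N₀ ≤ N → 2 ≤ N ∧ 1 < Real.log (Real.log N) ∧ 2 ≤ zN N ∧ yN N ≤ zN N ∧
    zN N ≤ XN N ∧ 1 ≤ XN N ∧ XN N ≤ N ∧ (XN N : ℝ) ≤ (N : ℝ) ^ ((1 : ℝ) / 16) ∧
    Real.log (zN N) ≤ 10 * Real.log (Real.log N) ∧ 0 < Real.log (zN N) ∧
    Real.log N / 32 ≤ Real.log (XN N) ∧
    2 * Real.log N * (2 * C / (c * zN N)) ≤ 1 / (I : ℝ) ∧
    4 * Real.log N + 2 ≤ (zN N : ℝ) ∧
    ∀ m : ℝ, 0 ≤ m → m ≤ C₁ * (Real.log N / Real.log (Real.log N)) →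
      10 * (m + 2) * Real.log N ≤ zN N ∧ 2 * (m ^ 2 * Real.log N) ≤ zN N

/-- AS2. PROOF. Elementary asymptotics, `L = log N`: `4^y ≤ exp (2 √L) ≤ N^(1/100)`,
`2^m ≤ exp (C₁ L/log L) ≤ N^(1/100)`, `(C L + 1)(X + 1) + M + 5 ≤ N^(1/16 + 1/100)`,
`4 m ≤ N^(1/100)` for large `N`; the right side is at least `N^(99/100)/16`, the left side at most
`N^(1/16 + 1/4 + 3/100) + N^(3/8 + 3/100)`. -/
def T_AS2 : Prop := ∀ (C C₁ M : ℝ), 1 ≤ C₁ → ∃ N₀ : ℕ, ∀ N : ℕ, N₀ ≤ N → ∀ m : ℕ,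
  (m : ℝ) ≤ C₁ * (Real.log N / Real.log (Real.log N)) →
  ((C * Real.log N + 1) * ((XN N : ℝ) + 1) + (M + 5)) *
      ((N : ℝ) ^ ((1 : ℝ) / 8) * 2 ^ m) ^ 2 +
    4 * (m : ℝ) * ((N : ℝ) ^ ((3 : ℝ) / 16) * 2 ^ m) ^ 2 < (N : ℝ) / (4 ^ yN N : ℕ) / 16

/-- EXC. PROOF. If every `n ∈ G` were `r + a` with `r` prime, `a ∈ A`: for this `a` take the prime
`q ≤ X` with `n ≡ a [MOD q]`; `q ∣ n - a = r`, so `r = q ≤ X`. So `G` is contained in the set of all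
`q + a`, `q ∈ [0, X]`, `a ∈ A`, which has at most `|A| (X + 1)` elements. -/
def T_EXC : Prop := ∀ (A G : Finset ℕ) (X : ℕ),
  (∀ n ∈ G, ∀ a ∈ A, ∃ q : ℕ, q.Prime ∧ q ≤ X ∧ n ≡ a [MOD q]) → A.card * (X + 1) < G.card →
  ∃ n ∈ G, ∀ a ∈ A, ∀ r : ℕ, r.Prime → n ≠ r + a

/-- FIN. PROOF (uses T_MAIN, T_WTS, T_GRE, T_BAD, T_SZ, T_AS1, T_AS2, T_EXC, T_SMALL).
`C₁` of T_SZ; `c, C'` of T_WTS; choose `I ≥ 2`, `640 C₁ ≤ c I`, `51200 C₁ ≤ c I^2`; `N` large.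
GRE for `A`, `y = yN N`: `W, w, S`, `m = |S| ≤ (C L + 1) V y ≤ C₁ L/log L`. BAD: `B`,
`2 |B| ≤ z`. `ι = {q // q ∈ ((Icc 1 X).filter (prime, z < q)) \ B}`, `σ = S` (subtypes), `p`, `s`
the
inclusions: `Good p s W z` (`z ≥ y`) and `Rng p z X B`. WTS gives `y` with `e2 = 1/(8I)`,
`e3 = 2 log z/(c I L) ≤ 20 log L/(c I L)`, `e4 = 2C'/(c z)`: `m e3 ≤ 20 C₁/(c I) ≤ 1/32`;
`δ = 2/I ≥ 8 e2 + 2 L e4`, `δ ≤ 1`; `s0 = c (L/32)/(2 * 10 log L) = c L/(640 log L)`, and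
`s0 ≤ c log X/(2 log z) ≤ SS p X E` for `pd E ≤ N` (`|E| ≤ 2 L` by T_SMALL);
`20 m δ^2 ≤ 80 C₁ L/(I^2 log L) ≤ s0` iff `51200 C₁ ≤ c I^2`. MAIN with `R = X` and AS2
(`W ≤ 4^y`) give `#GG > |A| (X + 1) + M`, and EXC for `G = {n ∈ GG : M ≤ n}`, `#G ≥ #GG - M` (an
element of `A \ S` has its prime `q ≤ y ≤ X`; for `a ∈ S` use the definition of `GG`,
`p i ≤ X`). -/
def T_FIN : Prop := ∀ (C : ℝ) (M : ℕ), ∃ N₀ : ℕ, ∀ N : ℕ, N₀ ≤ N → ∀ A : Finset ℕ,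
  (∀ a ∈ A, a ≤ N) → (A.card : ℝ) ≤ C * Real.log N + 1 → ∃ n : ℕ, M ≤ n ∧ n ≤ N ∧
    ∀ a ∈ A, ∀ r : ℕ, r.Prime → n ≠ r + a

end Pool.Agent.ACQ
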